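import Mathlib

set_option autoImplicit false

namespace Pool.Agent.Lib.MP_8a1ce7_co

/-- status of one end of a segment: crease opening upwards, closing, or one of the free ends -/
inductive St | op | cl | fs | fe
  deriving DecidableEq

instance : Fintype St := ⟨{St.op, St.cl, St.fs, St.fe}, by intro x; cases x <;> simp⟩

/-- a pattern: base-4 codes of the two sides (0 unknown, 1 far end, 2 near end of a known arc)
and a pending operation on each side -/
structure Pat where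
  l : ℕ
  r : ℕ
  ml : ℕ
  mr : ℕ

def Pat.swap (p : Pat) : Pat := ⟨p.r, p.l, p.mr, p.ml⟩

section Sem
variable (Arc : ℕ → ℕ → Prop)

inductive Ok : ℕ → List ℕ → List ℕ → Prop
  | nil (cs : List ℕ) : Ok 0 cs []
  | q {s cs P} (c : ℕ) : Ok s cs P → Ok (4 * s) (c :: cs) P
  | pu {s cs P} (c : ℕ) : Ok s cs P → Ok (4 * s + 1) (c :: cs) (c :: P)
  | po {s cs P} (c c' : ℕ) : Ok s cs (c' :: P) → Arc c c' → Ok (4 * s + 2) (c :: cs) P

inductive Md : ℕ → List ℕ → List ℕ → Prop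
  | zero (X) : Md 0 X X
  | one (b x X) : Arc b x → Md 1 (b :: x :: X) X
  | two (b X) : Md 2 (b :: X) X

def Sound (p : Pat) (L R : List ℕ) : Prop :=
  ∃ YL YR XL XR, Ok Arc p.l L YL ∧ Ok Arc p.r R YR ∧ Md Arc p.ml YL XL ∧ Md Arc p.mr YR XR ∧
    List.Forall₂ Arc XL XR

inductive Run : List ℕ → List ℕ → List (St × St) → Prop
  | nil (L R) : Run L R []
  | oo {L R w} (a b : ℕ) : Arc a b → Run (a :: L) (b :: R) w → Run L R ((St.op, St.op) :: w)
  | co {L R w} (a b : ℕ) : (∀ x, Arc a x → Arc b x) → Run L (b :: R) w →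
      Run (a :: L) R ((St.cl, St.op) :: w)
  | oc {L R w} (a b : ℕ) : (∀ x, Arc b x → Arc a x) → Run (a :: L) R w →
      Run L (b :: R) ((St.op, St.cl) :: w)
  | cc {L R w} (a b : ℕ) : ¬ Arc a b → (∀ x y, Arc a x → Arc b y → Arc x y) → Run L R w →
      Run (a :: L) (b :: R) ((St.cl, St.cl) :: w)
  | fr {L R L' R' w} (s t : St) : (s = St.fs ∨ s = St.fe ∨ t = St.fs ∨ t = St.fe) → Run L' R' w →
      Run L R ((s, t) :: w)
end Sem

def Real' (p : Pat) (w : List (St × St)) : Prop :=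
  ∃ (Arc : ℕ → ℕ → Prop) (L R : List ℕ), (∀ a b, Arc a b → Arc b a) ∧ Sound Arc p L R ∧ Run Arc L R w

variable {Arc : ℕ → ℕ → Prop}

lemma Ok.inv {s cs P} (h : Ok Arc s cs P) : (s = 0 ∧ P = []) ∨ ∃ c cs', cs = c :: cs' ∧
    ((s % 4 = 0 ∧ Ok Arc (s / 4) cs' P) ∨
     (s % 4 = 1 ∧ ∃ P', P = c :: P' ∧ Ok Arc (s / 4) cs' P') ∨
     (s % 4 = 2 ∧ ∃ c', Arc c c' ∧ Ok Arc (s / 4) cs' (c' :: P))) := by
  cases h with
  | nil _ => exact Or.inl ⟨rfl, rfl⟩
  | @q s cs P c h =>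
    exact Or.inr ⟨c, cs, rfl, Or.inl ⟨by omega, by rwa [show 4 * s / 4 = s by omega]⟩⟩
  | @pu s cs P c h =>
    exact Or.inr ⟨c, cs, rfl, Or.inr (Or.inl ⟨by omega, P, rfl,
      by rwa [show (4 * s + 1) / 4 = s by omega]⟩)⟩
  | @po s cs P c c' h ha =>
    exact Or.inr ⟨c, cs, rfl, Or.inr (Or.inr ⟨by omega, c', ha,
      by rwa [show (4 * s + 2) / 4 = s by omega]⟩)⟩

lemma Ok.inv' {s c cs P} (h : Ok Arc s (c :: cs) P) :
    (s % 4 = 0 ∧ Ok Arc (s / 4) cs P) ∨
     (s % 4 = 1 ∧ ∃ P', P = c :: P' ∧ Ok Arc (s / 4) cs P') ∨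
     (s % 4 = 2 ∧ ∃ c', Arc c c' ∧ Ok Arc (s / 4) cs (c' :: P)) := by
  rcases h.inv with ⟨rfl, rfl⟩ | ⟨c', cs', e, h⟩
  · exact Or.inl ⟨rfl, Ok.nil _⟩
  · obtain ⟨rfl, rfl⟩ := List.cons.inj e
    exact h

lemma Ok.q' {t c cs P} (h0 : t % 4 = 0) (h : Ok Arc (t / 4) cs P) : Ok Arc t (c :: cs) P := by
  have := Ok.q c h
  rwa [show 4 * (t / 4) = t by omega] at this

lemma Ok.pu' {t c cs P} (h0 : t % 4 = 1) (h : Ok Arc (t / 4) cs P) :
    Ok Arc t (c :: cs) (c :: P) := by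
  have := Ok.pu c h
  rwa [show 4 * (t / 4) + 1 = t by omega] at this

lemma Ok.po' {t c c' cs P} (h0 : t % 4 = 2) (h : Ok Arc (t / 4) cs (c' :: P)) (ha : Arc c c') :
    Ok Arc t (c :: cs) P := by
  have := Ok.po c c' h ha
  rwa [show 4 * (t / 4) + 2 = t by omega] at this

noncomputable def br3 (a x y z : ℕ) : ℕ :=
  @Nat.rec (fun _ => ℕ) x (fun n _ => @Nat.rec (fun _ => ℕ) y (fun _ _ => z) n) a

noncomputable def ite' (b : Bool) (x y : ℕ) : ℕ := @Bool.rec (fun _ => ℕ) y x b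

lemma br3_eq (a x y z : ℕ) : br3 a x y z = if a = 0 then x else if a = 1 then y else z := by
  rcases a with _ | _ | a <;> simp [br3]

lemma ite'_beq (a b x y : ℕ) : ite' (Nat.beq a b) x y = if a = b then x else y := by
  by_cases h : a = b
  · subst h; simp [ite', Nat.beq_refl]
  · have : Nat.beq a b = false := by
      cases h' : Nat.beq a b
      · rfl
      · exact absurd (Nat.eq_of_beq_eq_true h') h
    simp [ite', this, h]

lemma land3 (s : ℕ) : Nat.land s 3 = s % 4 := Nat.and_two_pow_sub_one_eq_mod s 2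
lemma land1 (s : ℕ) : Nat.land s 1 = s % 2 := Nat.and_two_pow_sub_one_eq_mod s 1
lemma shr2 (s : ℕ) : Nat.shiftRight s 2 = s / 4 := Nat.shiftRight_eq_div_pow s 2
lemma shr1 (s : ℕ) : Nat.shiftRight s 1 = s / 2 := Nat.shiftRight_eq_div_pow s 1

noncomputable def consT (r : ℕ) : ℕ := br3 r 0 1 (Nat.add (Nat.mul 2 r) 1)

noncomputable def wkB (ih : ℕ → ℕ → ℕ → ℕ → ℕ) (s t st md : ℕ) : ℕ :=
      ite' (Nat.beq (Nat.add (Nat.xor s t) (Nat.add st md)) 1) 1
        (br3 (Nat.land s 3)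
          (br3 (Nat.land t 3) (ih (Nat.shiftRight s 2) (Nat.shiftRight t 2) st md) 0 0)
          (ite' (Nat.beq st 1)
            (br3 md
              (br3 (Nat.land t 3) (Nat.mul 2 (ih (Nat.shiftRight s 2) (Nat.shiftRight t 2) 1 0))
                (consT (ih (Nat.shiftRight s 2) (Nat.shiftRight t 2) 1 0)) 0)
              (ite' (Nat.beq (Nat.land t 3) 0) (ih (Nat.shiftRight s 2) (Nat.shiftRight t 2) 2 0)
                (ite' (Nat.beq (Nat.land t 3) 2) (ih (Nat.shiftRight s 2) (Nat.shiftRight t 2) 3 0) 0))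
              (br3 (Nat.land t 3) (ih (Nat.shiftRight s 2) (Nat.shiftRight t 2) 1 0) 0 0))
            (ite' (Nat.beq (Nat.land t 3) (Nat.land st 1))
              (ih (Nat.shiftRight s 2) (Nat.shiftRight t 2) (Nat.shiftRight st 1) md) 0))
          (ite' (Nat.beq (Nat.land t 3) 0)
            (ih (Nat.shiftRight s 2) (Nat.shiftRight t 2) (Nat.mul 2 st) md)
            (ite' (Nat.beq (Nat.land t 3) 2)
              (ih (Nat.shiftRight s 2) (Nat.shiftRight t 2) (Nat.add (Nat.mul 2 st) 1) md) 0)))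

noncomputable def wkN (f : ℕ) : ℕ → ℕ → ℕ → ℕ → ℕ :=
  @Nat.rec (fun _ => ℕ → ℕ → ℕ → ℕ → ℕ) (fun _ _ _ _ => 0) (fun _ ih => wkB ih) f

lemma wkN_succ (f s t st md : ℕ) : wkN (f + 1) s t st md =
    if (s ^^^ t) + (st + md) = 1 then 1 else
    if s % 4 = 0 then (if t % 4 = 0 then wkN f (s / 4) (t / 4) st md else 0)
    else if s % 4 = 1 then
      (if st = 1 then
        (if md = 0 then (if t % 4 = 0 then 2 * wkN f (s / 4) (t / 4) 1 0
            else if t % 4 = 1 then consT (wkN f (s / 4) (t / 4) 1 0) else 0)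
          else if md = 1 then (if t % 4 = 0 then wkN f (s / 4) (t / 4) 2 0
            else if t % 4 = 2 then wkN f (s / 4) (t / 4) 3 0 else 0)
          else (if t % 4 = 0 then wkN f (s / 4) (t / 4) 1 0 else 0))
        else (if t % 4 = st % 2 then wkN f (s / 4) (t / 4) (st / 2) md else 0))
    else (if t % 4 = 0 then wkN f (s / 4) (t / 4) (2 * st) md
      else if t % 4 = 2 then wkN f (s / 4) (t / 4) (2 * st + 1) md else 0) := by
  show wkB (wkN f) s t st md = _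
  simp only [wkB, br3_eq, ite'_beq, land3, land1, shr2, shr1, Nat.add_eq, Nat.mul_eq, ite_self]
  rfl

def selN : List ℕ → ℕ → List ℕ
  | [], _ => []
  | c :: P, n => if n ≤ 1 then c :: P else if n % 2 = 1 then c :: selN P (n / 2) else selN P (n / 2)

lemma selN_one (P : List ℕ) : selN P 1 = P := by cases P <;> simp [selN]

inductive Stk : ℕ → List ℕ → List ℕ → Prop
  | one : Stk 1 [] []
  | f {st Q Q'} (c : ℕ) : Stk st Q Q' → Stk (2 * st) (c :: Q) Q'
  | t {st Q Q'} (c : ℕ) : Stk st Q Q' → Stk (2 * st + 1) (c :: Q) (c :: Q')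

lemma Stk.pos {st Q Q'} (h : Stk st Q Q') : 1 ≤ st := by
  induction h <;> omega

lemma Stk.inv {st Q Q'} (h : Stk st Q Q') : (st = 1 ∧ Q = [] ∧ Q' = []) ∨
    (st ≠ 1 ∧ ∃ c Q0, Q = c :: Q0 ∧ ((st % 2 = 0 ∧ Stk (st / 2) Q0 Q') ∨
      (st % 2 = 1 ∧ ∃ Q1, Q' = c :: Q1 ∧ Stk (st / 2) Q0 Q1))) := by
  cases h with
  | one => exact Or.inl ⟨rfl, rfl, rfl⟩
  | @f st Q Q' c h =>
    exact Or.inr ⟨by omega, c, Q, rfl, Or.inl ⟨by omega, by rwa [show 2 * st / 2 = st by omega]⟩⟩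
  | @t st Q Q' c h =>
    have := h.pos
    exact Or.inr ⟨by omega, c, Q, rfl, Or.inr ⟨by omega, Q', rfl,
      by rwa [show (2 * st + 1) / 2 = st by omega]⟩⟩

lemma wkN_zero : ∀ f t, wkN f 0 t 1 0 ≠ 0 → t = 0 := by
  intro f
  induction f with
  | zero => intro t h; exact absurd rfl h
  | succ f ih =>
    intro t h
    rw [wkN_succ] at h
    by_cases h1 : (0 ^^^ t) + (1 + 0) = 1
    · simpa using h1
    · rw [if_neg h1, if_pos (by norm_num)] at h
      by_cases h2 : t % 4 = 0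
      · rw [if_pos h2] at h
        have := ih _ h
        omega
      · rw [if_neg h2] at h
        exact absurd rfl h

lemma ok_wkN : ∀ (f s t st md : ℕ) (cs Q Q' Y X : List ℕ), wkN f s t st md ≠ 0 → Stk st Q Q' →
    Md Arc md Y X → Ok Arc s cs (Q ++ Y) → Ok Arc t cs (Q' ++ selN X (wkN f s t st md)) := by
  intro f
  induction f with
  | zero => intro s t st md cs Q Q' Y X h; exact absurd rfl h
  | succ f ih =>
    intro s t st md cs Q Q' Y X h hS hM hO
    have hpos := hS.pos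
    by_cases h1 : (s ^^^ t) + (st + md) = 1
    · have e1 : s ^^^ t = 0 := by omega
      have e2 : st = 1 := by omega
      have e3 : md = 0 := by omega
      obtain rfl := Nat.xor_eq_zero_iff.1 e1
      rw [wkN_succ, if_pos h1, selN_one]
      subst e2 e3
      cases hM
      rcases hS.inv with ⟨-, rfl, rfl⟩ | ⟨h2, -⟩
      · exact hO
      · exact absurd rfl h2
    rcases hO.inv with ⟨rfl, hP⟩ | ⟨c, cs', rfl, hc⟩
    · obtain ⟨rfl, rfl⟩ := List.append_eq_nil_iff.1 hP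
      cases hM
      rcases hS.inv with ⟨rfl, -, rfl⟩ | ⟨-, c, Q0, e, -⟩
      · obtain rfl := wkN_zero _ _ h
        exact Ok.nil _
      · simp at e
    rw [wkN_succ, if_neg h1] at h ⊢
    rcases hc with ⟨s0, h2⟩ | ⟨s1, P', e, h2⟩ | ⟨s2, c', ha, h2⟩
    · rw [if_pos s0] at h ⊢
      by_cases t0 : t % 4 = 0
      · rw [if_pos t0] at h ⊢
        exact Ok.q' t0 (ih _ _ _ _ _ _ _ _ _ h hS hM h2)
      · rw [if_neg t0] at h
        exact absurd rfl h
    · rw [if_neg (by omega), if_pos s1] at h ⊢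
      rcases hS.inv with ⟨rfl, rfl, rfl⟩ | ⟨hne, c0, Q0, rfl, h3⟩
      · rw [if_pos rfl] at h ⊢
        simp only [List.nil_append] at e ⊢
        subst e
        cases hM with
        | zero _ =>
          rw [if_pos rfl] at h ⊢
          by_cases t0 : t % 4 = 0
          · rw [if_pos t0] at h ⊢
            have h4 := ih _ (t / 4) 1 0 _ [] [] _ _ (by omega) Stk.one (Md.zero P') h2
            generalize wkN f (s / 4) (t / 4) 1 0 = r at h h4
            simp only [selN]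
            rw [if_neg (by omega), if_neg (by omega), show 2 * r / 2 = r by omega]
            exact Ok.q' t0 h4
          · rw [if_neg t0] at h ⊢
            by_cases t1 : t % 4 = 1
            · rw [if_pos t1] at h ⊢
              have h5 : wkN f (s / 4) (t / 4) 1 0 ≠ 0 := by
                intro h0
                rw [h0] at h
                exact h rfl
              have h4 := ih _ (t / 4) 1 0 _ [] [] _ _ h5 Stk.one (Md.zero P') h2
              generalize wkN f (s / 4) (t / 4) 1 0 = r at h5 h4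
              simp only [consT, br3_eq, if_neg h5, Nat.add_eq, Nat.mul_eq]
              by_cases r1 : r = 1
              · subst r1
                rw [if_pos rfl, selN_one]
                rw [selN_one] at h4
                exact Ok.pu' t1 h4
              · rw [if_neg r1]
                simp only [selN]
                rw [if_neg (by omega), if_pos (by omega), show (2 * r + 1) / 2 = r by omega]
                exact Ok.pu' t1 h4
            · rw [if_neg t1] at h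
              exact absurd rfl h
        | one _ x _ hx =>
          rw [if_neg (by omega), if_pos rfl] at h ⊢
          by_cases t0 : t % 4 = 0
          · rw [if_pos t0] at h ⊢
            exact Ok.q' t0 (ih _ (t / 4) 2 0 _ [x] [] _ _ h (Stk.f x Stk.one) (Md.zero X) h2)
          · rw [if_neg t0] at h ⊢
            by_cases t2 : t % 4 = 2
            · rw [if_pos t2] at h ⊢
              exact Ok.po' t2
                (ih _ (t / 4) 3 0 _ [x] [x] _ _ h (Stk.t x Stk.one) (Md.zero X) h2) hx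
            · rw [if_neg t2] at h
              exact absurd rfl h
        | two _ _ =>
          rw [if_neg (by omega), if_neg (by omega)] at h ⊢
          by_cases t0 : t % 4 = 0
          · rw [if_pos t0] at h ⊢
            exact Ok.q' t0 (ih _ (t / 4) 1 0 _ [] [] _ _ h Stk.one (Md.zero X) h2)
          · rw [if_neg t0] at h
            exact absurd rfl h
      · rw [if_neg hne] at h ⊢
        simp only [List.cons_append, List.cons.injEq] at e
        obtain ⟨rfl, rfl⟩ := e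
        by_cases tt : t % 4 = st % 2
        · rw [if_pos tt] at h ⊢
          rcases h3 with ⟨p0, h3⟩ | ⟨p1, Q1, rfl, h3⟩
          · exact Ok.q' (by omega) (ih _ _ _ _ _ _ _ _ _ h h3 hM h2)
          · exact Ok.pu' (by omega) (ih _ _ _ _ _ _ _ _ _ h h3 hM h2)
        · rw [if_neg tt] at h
          exact absurd rfl h
    · rw [if_neg (by omega), if_neg (by omega)] at h ⊢
      by_cases t0 : t % 4 = 0
      · rw [if_pos t0] at h ⊢
        exact Ok.q' t0 (ih _ _ _ _ _ (c' :: Q) _ _ _ h (Stk.f c' hS) hM h2)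
      · rw [if_neg t0] at h ⊢
        by_cases t2 : t % 4 = 2
        · rw [if_pos t2] at h ⊢
          exact Ok.po' t2 (ih _ _ _ _ _ (c' :: Q) _ _ _ h (Stk.t c' hS) hM h2) ha
        · rw [if_neg t2] at h
          exact absurd rfl h

lemma forall₂_selN {PL PR : List ℕ} (h : List.Forall₂ Arc PL PR) :
    ∀ n, List.Forall₂ Arc (selN PL n) (selN PR n) := by
  induction h with
  | nil => intro n; exact List.Forall₂.nil
  | cons h1 h2 ih =>
    intro n
    simp only [selN]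
    split_ifs
    · exact List.Forall₂.cons h1 h2
    · exact List.Forall₂.cons h1 (ih _)
    · exact ih _

def Weak (p : Pat) (l r : ℕ) : Prop :=
  wkN 26 p.l l 1 p.ml ≠ 0 ∧ wkN 26 p.l l 1 p.ml = wkN 26 p.r r 1 p.mr

lemma sound_weak {p : Pat} {l r : ℕ} {L R} (h : Sound Arc p L R) (hw : Weak p l r) :
    Sound Arc ⟨l, r, 0, 0⟩ L R := by
  obtain ⟨YL, YR, XL, XR, h1, h2, h3, h4, h5⟩ := h
  have a := ok_wkN _ _ _ _ _ L [] [] YL XL hw.1 Stk.one h3 h1
  have b := ok_wkN _ _ _ _ _ R [] [] YR XR (hw.2 ▸ hw.1) Stk.one h4 h2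
  rw [← hw.2] at b
  exact ⟨_, _, _, _, a, b, Md.zero _, Md.zero _, forall₂_selN h5 _⟩

lemma sound_swap (hs : ∀ a b, Arc a b → Arc b a) {p : Pat} {L R} (h : Sound Arc p L R) :
    Sound Arc p.swap R L := by
  obtain ⟨YL, YR, XL, XR, h1, h2, h3, h4, h5⟩ := h
  exact ⟨YR, YL, XR, XL, h2, h1, h4, h3, (List.Forall₂.flip h5).imp (fun a b hab => hs _ _ hab)⟩

lemma sound_zero {l r : ℕ} {L R} (h : Sound Arc ⟨l, r, 0, 0⟩ L R) :
    ∃ XL XR, Ok Arc l L XL ∧ Ok Arc r R XR ∧ List.Forall₂ Arc XL XR := by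
  obtain ⟨YL, YR, XL, XR, h1, h2, h3, h4, h5⟩ := h
  cases h3
  cases h4
  exact ⟨_, _, h1, h2, h5⟩

def mv (a : ℕ) : ℕ := if a = 0 then 0 else if a = 1 then 2 else 1

def stepC (a b l r : ℕ) : Option Pat :=
  if a = 0 then (if b = 0 then some ⟨l, r, 0, 0⟩ else if b = 1 then some ⟨l, r, 2, 0⟩
    else some ⟨l, r, 0, 2⟩)
  else if a = 1 then (if b = 0 then some ⟨l, r, 0, 2⟩ else if b = 1 then none
    else some ⟨l, r, 0, 1⟩)
  else (if b = 0 then some ⟨l, r, 2, 0⟩ else if b = 1 then some ⟨l, r, 1, 0⟩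
    else some ⟨l, r, 0, 0⟩)

lemma sound_O {l r : ℕ} {L R} {a b} (h : Sound Arc ⟨l, r, 0, 0⟩ L R) (hab : Arc a b) :
    Sound Arc ⟨4 * l + 1, 4 * r + 1, 0, 0⟩ (a :: L) (b :: R) := by
  obtain ⟨PL, PR, h1, h2, h3⟩ := sound_zero h
  exact ⟨_, _, _, _, Ok.pu a h1, Ok.pu b h2, Md.zero _, Md.zero _, List.Forall₂.cons hab h3⟩

lemma sound_R (hs : ∀ a b, Arc a b → Arc b a) {l r : ℕ} {L R} {a b}
    (h : Sound Arc ⟨l, r, 0, 0⟩ (a :: L) R) (hab : ∀ x, Arc a x → Arc b x) :
    Sound Arc ⟨l / 4, 4 * r + mv (l % 4), 0, 0⟩ L (b :: R) := by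
  obtain ⟨PL, PR, h1, h2, h3⟩ := sound_zero h
  rcases h1.inv' with ⟨e, g1⟩ | ⟨e, P', rfl, g1⟩ | ⟨e, c', ha, g1⟩ <;> rw [e]
  · exact ⟨_, _, _, _, g1, Ok.q b h2, Md.zero _, Md.zero _, h3⟩
  · cases h3 with
    | cons h4 h5 => exact ⟨_, _, _, _, g1, Ok.po b _ h2 (hab _ h4), Md.zero _, Md.zero _, h5⟩
  · exact ⟨_, _, _, _, g1, Ok.pu b h2, Md.zero _, Md.zero _,
      List.Forall₂.cons (hs _ _ (hab _ ha)) h3⟩

lemma sound_L (hs : ∀ a b, Arc a b → Arc b a) {l r : ℕ} {L R} {a b}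
    (h : Sound Arc ⟨l, r, 0, 0⟩ L (b :: R)) (hab : ∀ x, Arc b x → Arc a x) :
    Sound Arc ⟨4 * l + mv (r % 4), r / 4, 0, 0⟩ (a :: L) R :=
  sound_swap hs (sound_R hs (sound_swap hs h) hab)

lemma sound_C (hs : ∀ a b, Arc a b → Arc b a) {l r : ℕ} {L R} {a b}
    (h : Sound Arc ⟨l, r, 0, 0⟩ (a :: L) (b :: R)) (hn : ¬ Arc a b)
    (hm : ∀ x y, Arc a x → Arc b y → Arc x y) :
    ∃ p', stepC (l % 4) (r % 4) (l / 4) (r / 4) = some p' ∧ Sound Arc p' L R := by
  obtain ⟨PL, PR, h1, h2, h3⟩ := sound_zero h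
  rcases h1.inv' with ⟨e, g1⟩ | ⟨e, P', rfl, g1⟩ | ⟨e, c', ha, g1⟩ <;> rw [e] <;>
    rcases h2.inv' with ⟨e', g2⟩ | ⟨e', P'', rfl, g2⟩ | ⟨e', d', hb, g2⟩ <;> rw [e']
  · exact ⟨_, rfl, _, _, _, _, g1, g2, Md.zero _, Md.zero _, h3⟩
  · cases h3 with
    | cons h4 h5 => exact ⟨_, rfl, _, _, _, _, g1, g2, Md.two _ _, Md.zero _, h5⟩
  · exact ⟨_, rfl, _, _, _, _, g1, g2, Md.zero _, Md.two _ _, h3⟩
  · cases h3 with
    | cons h4 h5 => exact ⟨_, rfl, _, _, _, _, g1, g2, Md.zero _, Md.two _ _, h5⟩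
  · cases h3 with
    | cons h4 h5 => exact absurd h4 hn
  · cases h3 with
    | cons h4 h5 =>
      exact ⟨_, rfl, _, _, _, _, g1, g2, Md.zero _, Md.one _ _ _ (hs _ _ (hm _ _ h4 hb)), h5⟩
  · exact ⟨_, rfl, _, _, _, _, g1, g2, Md.two _ _, Md.zero _, h3⟩
  · cases h3 with
    | cons h4 h5 =>
      exact ⟨_, rfl, _, _, _, _, g1, g2, Md.one _ _ _ (hm _ _ ha (hs _ _ h4)), Md.zero _, h5⟩
  · exact ⟨_, rfl, _, _, _, _, g1, g2, Md.zero _, Md.zero _, List.Forall₂.cons (hm _ _ ha hb) h3⟩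

lemma run_swap (hs : ∀ a b, Arc a b → Arc b a) {L R w} (h : Run Arc L R w) :
    Run Arc R L (w.map Prod.swap) := by
  induction h with
  | nil L R => exact Run.nil _ _
  | oo a b h _ ih => exact Run.oo b a (hs _ _ h) ih
  | co a b h _ ih => exact Run.oc b a h ih
  | oc a b h _ ih => exact Run.co b a h ih
  | cc a b h1 h2 _ ih =>
    exact Run.cc b a (fun h => h1 (hs _ _ h)) (fun x y hx hy => hs _ _ (h2 y x hy hx)) ih
  | fr s t h _ ih => exact Run.fr t s (by tauto) ih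

lemma real_swap {p : Pat} {w} (h : Real' p w) : Real' p.swap (w.map Prod.swap) := by
  obtain ⟨Arc, L, R, hs, h1, h2⟩ := h
  exact ⟨Arc, R, L, hs, sound_swap hs h1, run_swap hs h2⟩

lemma real_weak {p : Pat} {l r : ℕ} {w} (h : Real' p w) (hw : Weak p l r) :
    Real' ⟨l, r, 0, 0⟩ w := by
  obtain ⟨Arc, L, R, hs, h1, h2⟩ := h
  exact ⟨Arc, L, R, hs, sound_weak h1 hw, h2⟩

def step (l r : ℕ) : St × St → Option Pat
  | (St.op, St.op) => some ⟨4 * l + 1, 4 * r + 1, 0, 0⟩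
  | (St.cl, St.op) => some ⟨l / 4, 4 * r + mv (l % 4), 0, 0⟩
  | (St.op, St.cl) => some ⟨4 * l + mv (r % 4), r / 4, 0, 0⟩
  | (St.cl, St.cl) => stepC (l % 4) (r % 4) (l / 4) (r / 4)
  | _ => some ⟨0, 0, 0, 0⟩

lemma sound_empty (L R : List ℕ) : Sound Arc ⟨0, 0, 0, 0⟩ L R :=
  ⟨[], [], [], [], Ok.nil _, Ok.nil _, Md.zero _, Md.zero _, List.Forall₂.nil⟩

lemma real_step {l r : ℕ} {a w} (h : Real' ⟨l, r, 0, 0⟩ (a :: w)) :
    ∃ p', step l r a = some p' ∧ Real' p' w := by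
  obtain ⟨Arc, L, R, hs, h1, h2⟩ := h
  cases h2 with
  | oo a b h3 h4 => exact ⟨_, rfl, Arc, _, _, hs, sound_O h1 h3, h4⟩
  | co a b h3 h4 => exact ⟨_, rfl, Arc, _, _, hs, sound_R hs h1 h3, h4⟩
  | oc a b h3 h4 => exact ⟨_, rfl, Arc, _, _, hs, sound_L hs h1 h3, h4⟩
  | cc a b h3 h4 h5 =>
    obtain ⟨p', e, h6⟩ := sound_C hs h1 h3 h4
    exact ⟨p', e, Arc, _, _, hs, h6, h5⟩
  | fr s t h3 h4 =>
    refine ⟨⟨0, 0, 0, 0⟩, ?_, Arc, _, _, hs, sound_empty _ _, h4⟩
    rcases h3 with rfl | rfl | rfl | rfl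
    · cases t <;> rfl
    · cases t <;> rfl
    · cases s <;> rfl
    · cases s <;> rfl

section Count
variable (ω : St → ℝ)

def wt (w : List (St × St)) : ℝ := (w.map (fun a => ω a.1 * ω a.2)).prod

def Bd (p : Pat) (m : ℕ) (x : ℝ) : Prop :=
  ∀ S : Finset (List (St × St)), (∀ w ∈ S, w.length = m ∧ Real' p w) → ∑ w ∈ S, wt ω w ≤ x

variable {ω}

lemma bd_zero (p : Pat) : Bd ω p 0 1 := by
  intro S hS
  have : S ⊆ {[]} := fun w hw => by
    simpa using List.eq_nil_of_length_eq_zero (hS w hw).1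
  rcases Finset.subset_singleton_iff.1 this with rfl | rfl <;> simp [wt]

lemma Bd.mono {p m x y} (h : Bd ω p m x) (hxy : x ≤ y) : Bd ω p m y :=
  fun S hS => (h S hS).trans hxy

lemma Bd.weak {p : Pat} {l r : ℕ} {m x} (h : Bd ω ⟨l, r, 0, 0⟩ m x) (hw : Weak p l r) :
    Bd ω p m x :=
  fun S hS => h S (fun w hw' => ⟨(hS w hw').1, real_weak (hS w hw').2 hw⟩)

lemma Bd.swap {p : Pat} {m x} (h : Bd ω p.swap m x) : Bd ω p m x := by
  intro S hS
  have hinj : Function.Injective (List.map (Prod.swap : St × St → St × St)) :=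
    List.map_injective_iff.2 Prod.swap_injective
  have := h (S.image (List.map Prod.swap)) (by
    intro w hw
    obtain ⟨u, hu, rfl⟩ := Finset.mem_image.1 hw
    exact ⟨by simpa using (hS u hu).1, real_swap (hS u hu).2⟩)
  rw [Finset.sum_image (fun a _ b _ hab => hinj hab)] at this
  refine le_trans (le_of_eq ?_) this
  apply Finset.sum_congr rfl
  intro w _
  simp only [wt, List.map_map]
  congr 1
  apply List.map_congr_left
  intro a _
  simp [mul_comm]

lemma Bd.succ (hω : ∀ s, 0 ≤ ω s) {l r : ℕ} {m : ℕ} (x : St × St → ℝ) (hx : ∀ a, 0 ≤ x a)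
    (h : ∀ a p', step l r a = some p' → Bd ω p' m (x a)) :
    Bd ω ⟨l, r, 0, 0⟩ (m + 1) (∑ a : St × St, ω a.1 * ω a.2 * x a) := by
  classical
  intro S hS
  rw [← Finset.sum_fiberwise (s := S) (g := fun w => w.headD (St.op, St.op))]
  apply Finset.sum_le_sum
  intro a _
  set T := S.filter (fun w => w.headD (St.op, St.op) = a) with hT
  have hform : ∀ w ∈ T, w = a :: w.tail := by
    intro w hw
    obtain ⟨h1, h2⟩ := Finset.mem_filter.1 hw
    have := (hS w h1).1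
    cases w with
    | nil => simp at this
    | cons b w => simp at h2; simp [h2]
  have hsum : ∑ w ∈ T, wt ω w = ω a.1 * ω a.2 * ∑ w ∈ T.image List.tail, wt ω w := by
    rw [Finset.sum_image (fun u hu v hv huv => by
      rw [hform u hu, hform v hv, huv]), Finset.mul_sum]
    apply Finset.sum_congr rfl
    intro w hw
    conv_lhs => rw [hform w hw]
    simp [wt]
  rw [hsum]
  apply mul_le_mul_of_nonneg_left _ (mul_nonneg (hω _) (hω _))
  rcases T.eq_empty_or_nonempty with h0 | ⟨w0, hw0⟩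
  · rw [h0]; simpa using hx a
  · have hr : ∀ w ∈ T, ∃ p', step l r a = some p' ∧ Real' p' w.tail := by
      intro w hw
      have := (hS w (Finset.mem_filter.1 hw).1).2
      rw [hform w hw] at this
      exact real_step this
    obtain ⟨p', e, _⟩ := hr w0 hw0
    apply h a p' e
    intro w hw
    obtain ⟨u, hu, rfl⟩ := Finset.mem_image.1 hw
    obtain ⟨p'', e', h2⟩ := hr u hu
    rw [e] at e'
    obtain rfl := Option.some.inj e'
    exact ⟨by simp [(hS u (Finset.mem_filter.1 hu).1).1], h2⟩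

end Count

end Pool.Agent.Lib.MP_8a1ce7_co
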