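import Mathlib
import Pool.Agent.Lib.MP_8a1ce7_co.Auto

set_option autoImplicit false

namespace Pool.Agent.Lib.MP_8a1ce7_co

def lo (H : ℕ → ℕ) (c : ℕ) : ℕ := min (H (c - 1)) (H c)
def hi (H : ℕ → ℕ) (c : ℕ) : ℕ := max (H (c - 1)) (H c)
def cr (G : ℕ → ℕ) (s t : ℕ) : ℕ := if G t % 2 = s then G t else G t + 1

structure Fd (n : ℕ) (H G : ℕ → ℕ) : Prop where
  hH : ∀ i, i ≤ n → H i ≤ n ∧ G (H i) = i
  hG : ∀ t, t ≤ n → G t ≤ n ∧ H (G t) = t
  hN : ∀ c d, 1 ≤ c → c ≤ n → 1 ≤ d → d ≤ n → c ≠ d → c % 2 = d % 2 →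
    ¬ (lo H c < lo H d ∧ lo H d < hi H c ∧ hi H c < hi H d)

def stt (n : ℕ) (H G : ℕ → ℕ) (s t : ℕ) : St :=
  if cr G s t = 0 then St.fs else if cr G s t = n + 1 then St.fe
  else if t = lo H (cr G s t) then St.op else St.cl

def stk (a : ℕ → St) : ℕ → List ℕ
  | 0 => []
  | t + 1 => match a t with
    | St.op => t :: stk a t
    | St.cl => (stk a t).tail
    | _ => stk a t

lemma stk_congr {a b : ℕ → St} : ∀ t, (∀ u, u < t → a u = b u) → stk a t = stk b t
  | 0, _ => rfl
  | t + 1, h => by
    simp only [stk, h t (by omega), stk_congr t (fun u hu => h u (by omega))]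

variable {n : ℕ} {H G : ℕ → ℕ}

lemma Fd.inj (F : Fd n H G) {i j : ℕ} (hi : i ≤ n) (hj : j ≤ n) (h : H i = H j) : i = j := by
  rw [← (F.hH i hi).2, h, (F.hH j hj).2]

lemma Fd.lo_lt (F : Fd n H G) {c : ℕ} (h1 : 1 ≤ c) (h2 : c ≤ n) : lo H c < hi H c := by
  have : H (c - 1) ≠ H c := fun h => by have := F.inj (by omega) h2 h; omega
  unfold lo hi; omega

lemma Fd.hi_le (F : Fd n H G) {c : ℕ} (h2 : c ≤ n) : hi H c ≤ n := by
  have a := (F.hH (c - 1) (by omega)).1
  have b := (F.hH c h2).1
  unfold hi; omega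

lemma Fd.cr_ends (F : Fd n H G) {c s : ℕ} (h1 : 1 ≤ c) (h2 : c ≤ n) (hs : c % 2 = s) :
    cr G s (H (c - 1)) = c ∧ cr G s (H c) = c := by
  unfold cr
  rw [(F.hH (c - 1) (by omega)).2, (F.hH c h2).2]
  constructor
  · rw [if_neg (by omega)]; omega
  · rw [if_pos hs]

lemma Fd.cr_lo (F : Fd n H G) {c s : ℕ} (h1 : 1 ≤ c) (h2 : c ≤ n) (hs : c % 2 = s) :
    cr G s (lo H c) = c := by
  have := F.cr_ends h1 h2 hs
  unfold lo
  rcases min_choice (H (c - 1)) (H c) with h | h <;> rw [h] <;> tauto

lemma Fd.cr_hi (F : Fd n H G) {c s : ℕ} (h1 : 1 ≤ c) (h2 : c ≤ n) (hs : c % 2 = s) :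
    cr G s (hi H c) = c := by
  have := F.cr_ends h1 h2 hs
  unfold hi
  rcases max_choice (H (c - 1)) (H c) with h | h <;> rw [h] <;> tauto

lemma cr_mod {s : ℕ} (hs : s < 2) (t : ℕ) : cr G s t % 2 = s := by
  unfold cr; split_ifs <;> omega

lemma Fd.cr_le (F : Fd n H G) (s : ℕ) {t : ℕ} (ht : t ≤ n) : cr G s t ≤ n + 1 := by
  have := (F.hG t ht).1
  unfold cr; split_ifs <;> omega

lemma Fd.pos (F : Fd n H G) (s : ℕ) {t : ℕ} (ht : t ≤ n) :
    t = H (cr G s t) ∨ t = H (cr G s t - 1) := by
  have := (F.hG t ht).2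
  unfold cr; split_ifs
  · exact Or.inl this.symm
  · exact Or.inr (by simpa using this.symm)

lemma Fd.stt_op (F : Fd n H G) {s t : ℕ} (ht : t ≤ n) (h : stt n H G s t = St.op) :
    1 ≤ cr G s t ∧ cr G s t ≤ n ∧ t = lo H (cr G s t) := by
  have := F.cr_le s ht
  unfold stt at h
  split_ifs at h
  exact ⟨by omega, by omega, by assumption⟩

lemma Fd.stt_cl (F : Fd n H G) {s t : ℕ} (ht : t ≤ n) (h : stt n H G s t = St.cl) :
    1 ≤ cr G s t ∧ cr G s t ≤ n ∧ t = hi H (cr G s t) := by
  have := F.cr_le s ht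
  have h2 := F.pos s ht
  unfold stt at h
  split_ifs at h with a b c
  refine ⟨by omega, by omega, ?_⟩
  unfold lo at c
  unfold hi
  omega

def Inv (n : ℕ) (H G : ℕ → ℕ) (s t : ℕ) (l : List ℕ) : Prop :=
  l.Pairwise (· > ·) ∧ ∀ u, u ∈ l ↔
    (u < t ∧ 1 ≤ cr G s u ∧ cr G s u ≤ n ∧ u = lo H (cr G s u) ∧ t ≤ hi H (cr G s u))

lemma Fd.inv_cl (F : Fd n H G) {s t : ℕ} (hs : s < 2) (ht : t ≤ n) {l : List ℕ}
    (hI : Inv n H G s t l) (h : stt n H G s t = St.cl) : l = lo H (cr G s t) :: l.tail := by
  obtain ⟨c1, c2, c3⟩ := F.stt_cl ht h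
  have c4 := F.lo_lt c1 c2
  have c5 := F.cr_lo c1 c2 (cr_mod hs t)
  have hm : lo H (cr G s t) ∈ l := (hI.2 _).2 (by rw [c5]; omega)
  cases l with
  | nil => simp at hm
  | cons u l =>
    simp only [List.tail_cons, List.cons.injEq, and_true]
    by_contra hne
    have h1 : lo H (cr G s t) ∈ l := by
      rcases List.mem_cons.1 hm with h | h
      · exact absurd h.symm hne
      · exact h
    have h2 : u > lo H (cr G s t) := (List.pairwise_cons.1 hI.1).1 _ h1
    obtain ⟨d1, d2, d3, d4, d5⟩ := (hI.2 u).1 List.mem_cons_self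
    have hcd : cr G s t ≠ cr G s u := fun hh => hne (by rw [hh]; exact d4)
    have h3 : hi H (cr G s u) ≠ t := by
      intro hh
      have := F.cr_hi d2 d3 (cr_mod hs u)
      rw [hh] at this
      exact hcd this
    exact F.hN _ _ c1 c2 d2 d3 hcd (by rw [cr_mod hs, cr_mod hs]) ⟨by omega, by omega, by omega⟩

lemma Fd.inv (F : Fd n H G) {s : ℕ} (hs : s < 2) :
    ∀ t, t ≤ n + 1 → Inv n H G s t (stk (stt n H G s) t) := by
  intro t
  induction t with
  | zero => intro _; exact ⟨List.Pairwise.nil, fun u => by simp [stk]⟩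
  | succ t ih =>
    intro ht
    have hI := ih (by omega)
    have htn : t ≤ n := by omega
    have hne : ∀ u, u < t → 1 ≤ cr G s u → cr G s u ≤ n → hi H (cr G s u) = t →
        cr G s u = cr G s t := by
      intro u _ d2 d3 hh
      have := F.cr_hi d2 d3 (cr_mod hs u)
      rw [hh] at this
      exact this.symm
    cases h : stt n H G s t with
    | op =>
      obtain ⟨c1, c2, c3⟩ := F.stt_op htn h
      have c4 := F.lo_lt c1 c2
      simp only [stk, h]
      refine ⟨List.pairwise_cons.2 ⟨fun u hu => ((hI.2 u).1 hu).1, hI.1⟩, fun u => ?_⟩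
      rw [List.mem_cons, hI.2 u]
      constructor
      · rintro (rfl | ⟨d1, d2, d3, d4, d5⟩)
        · exact ⟨by omega, c1, c2, c3, by omega⟩
        · refine ⟨by omega, d2, d3, d4, ?_⟩
          by_contra hh
          have := hne u d1 d2 d3 (by omega)
          rw [this] at d4
          omega
      · rintro ⟨d1, d2, d3, d4, d5⟩
        by_cases hu : u = t
        · exact Or.inl hu
        · exact Or.inr ⟨by omega, d2, d3, d4, by omega⟩
    | cl =>
      obtain ⟨c1, c2, c3⟩ := F.stt_cl htn h
      have c4 := F.lo_lt c1 c2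
      have c5 := F.cr_lo c1 c2 (cr_mod hs t)
      have hl := F.inv_cl hs htn hI h
      simp only [stk, h]
      have hp := hI.1
      rw [hl] at hp
      refine ⟨(List.pairwise_cons.1 hp).2, fun u => ?_⟩
      have hm : u ∈ (stk (stt n H G s) t).tail ↔
          u ∈ stk (stt n H G s) t ∧ u ≠ lo H (cr G s t) := by
        constructor
        · intro hu
          exact ⟨List.mem_of_mem_tail hu, ne_of_lt ((List.pairwise_cons.1 hp).1 u hu)⟩
        · rintro ⟨h1, h2⟩
          rw [hl] at h1
          rcases List.mem_cons.1 h1 with h3 | h3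
          · exact absurd h3 h2
          · exact h3
      rw [hm, hI.2 u]
      constructor
      · rintro ⟨⟨d1, d2, d3, d4, d5⟩, d6⟩
        refine ⟨by omega, d2, d3, d4, ?_⟩
        by_contra hh
        have := hne u d1 d2 d3 (by omega)
        rw [this] at d4
        exact d6 d4
      · rintro ⟨d1, d2, d3, d4, d5⟩
        have hut : u ≠ t := by
          rintro rfl
          omega
        refine ⟨⟨by omega, d2, d3, d4, by omega⟩, fun hh => ?_⟩
        rw [hh, c5] at d5
        omega
    | fs =>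
      have c1 : cr G s t = 0 := by
        unfold stt at h; split_ifs at h; assumption
      simp only [stk, h]
      refine ⟨hI.1, fun u => ?_⟩
      rw [hI.2 u]
      constructor
      · rintro ⟨d1, d2, d3, d4, d5⟩
        refine ⟨by omega, d2, d3, d4, ?_⟩
        by_contra hh
        have := hne u d1 d2 d3 (by omega)
        omega
      · rintro ⟨d1, d2, d3, d4, d5⟩
        have hut : u ≠ t := by
          rintro rfl
          omega
        exact ⟨by omega, d2, d3, d4, by omega⟩
    | fe =>
      have c1 : cr G s t = n + 1 := by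
        unfold stt at h; split_ifs at h; assumption
      simp only [stk, h]
      refine ⟨hI.1, fun u => ?_⟩
      rw [hI.2 u]
      constructor
      · rintro ⟨d1, d2, d3, d4, d5⟩
        refine ⟨by omega, d2, d3, d4, ?_⟩
        by_contra hh
        have := hne u d1 d2 d3 (by omega)
        omega
      · rintro ⟨d1, d2, d3, d4, d5⟩
        have hut : u ≠ t := by
          rintro rfl
          omega
        exact ⟨by omega, d2, d3, d4, by omega⟩

lemma Fd.stk_cl (F : Fd n H G) {s t : ℕ} (hs : s < 2) (ht : t ≤ n)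
    (h : stt n H G s t = St.cl) :
    stk (stt n H G s) t = lo H (cr G s t) :: stk (stt n H G s) (t + 1) := by
  have := F.inv_cl hs ht (F.inv hs t (by omega)) h
  simp only [stk, h]
  exact this

lemma Fd.stk_end (F : Fd n H G) {s : ℕ} (hs : s < 2) : stk (stt n H G s) (n + 1) = [] := by
  rw [List.eq_nil_iff_forall_not_mem]
  intro u hu
  obtain ⟨_, _, d3, _, d5⟩ := ((F.inv hs (n + 1) le_rfl).2 u).1 hu
  have := F.hi_le d3
  omega

def Arc0 (H : ℕ → ℕ) (c d : ℕ) : Prop :=
  (H c < H (c - 1) ∧ H (d - 1) < H d ∧ c < d) ∨ (H d < H (d - 1) ∧ H (c - 1) < H c ∧ d < c)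

def letter (n : ℕ) (H G : ℕ → ℕ) (t : ℕ) : St × St := (stt n H G 0 t, stt n H G 1 t)

def cs (n : ℕ) (H G : ℕ → ℕ) (s t : ℕ) : List ℕ := (stk (stt n H G s) t).map (cr G s)

lemma Fd.cs_op {s t : ℕ} (h : stt n H G s t = St.op) :
    cs n H G s (t + 1) = cr G s t :: cs n H G s t := by
  simp [cs, stk, h]

lemma Fd.cs_cl (F : Fd n H G) {s t : ℕ} (hs : s < 2) (ht : t ≤ n) (h : stt n H G s t = St.cl) :
    cs n H G s t = cr G s t :: cs n H G s (t + 1) := by
  obtain ⟨c1, c2, _⟩ := F.stt_cl ht h
  simp only [cs]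
  rw [F.stk_cl hs ht h, List.map_cons, F.cr_lo c1 c2 (cr_mod hs t)]

lemma Fd.run (F : Fd n H G) : ∀ k t, t + k = n + 1 →
    Run (Arc0 H) (cs n H G 0 t) (cs n H G 1 t) ((List.range' t k).map (letter n H G)) := by
  intro k
  induction k with
  | zero => intro t _; exact Run.nil _ _
  | succ k ih =>
    intro t ht
    have htn : t ≤ n := by omega
    have hr := ih (t + 1) (by omega)
    have hG := (F.hG t htn).2
    have hcr : (cr G 0 t = G t ∧ cr G 1 t = G t + 1) ∨ (cr G 0 t = G t + 1 ∧ cr G 1 t = G t) := by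
      unfold cr; split_ifs <;> omega
    simp only [List.range'_succ, List.map_cons, letter]
    have hop : ∀ s, stt n H G s t = St.op → (cr G s t = G t → H (G t) < H (G t - 1)) ∧
        (cr G s t = G t + 1 → H (G t) < H (G t + 1)) := by
      intro s h
      obtain ⟨c1, c2, c3⟩ := F.stt_op htn h
      have c4 := F.lo_lt c1 c2
      constructor <;> intro e <;> rw [e] at c3 c4 <;> simp only [lo, hi, Nat.add_sub_cancel] at c3 c4 <;>
        omega
    have hcl : ∀ s, stt n H G s t = St.cl → (cr G s t = G t → H (G t - 1) < H (G t)) ∧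
        (cr G s t = G t + 1 → H (G t + 1) < H (G t)) := by
      intro s h
      obtain ⟨c1, c2, c3⟩ := F.stt_cl htn h
      have c4 := F.lo_lt c1 c2
      constructor <;> intro e <;> rw [e] at c3 c4 <;> simp only [lo, hi, Nat.add_sub_cancel] at c3 c4 <;>
        omega
    cases h0 : stt n H G 0 t with
    | fs => exact Run.fr _ _ (by simp) hr
    | fe => exact Run.fr _ _ (by simp) hr
    | op =>
      cases h1 : stt n H G 1 t with
      | fs => exact Run.fr _ _ (by simp) hr
      | fe => exact Run.fr _ _ (by simp) hr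
      | op =>
        rw [Fd.cs_op h0, Fd.cs_op h1] at hr
        refine Run.oo _ _ ?_ hr
        have a := hop 0 h0
        have b := hop 1 h1
        rcases hcr with ⟨e0, e1⟩ | ⟨e0, e1⟩ <;> rw [e0, e1] <;>
          simp only [Arc0, Nat.add_sub_cancel] <;> have := a.1 <;> have := a.2 <;>
          have := b.1 <;> have := b.2 <;> omega
      | cl =>
        rw [Fd.cs_op h0] at hr
        rw [F.cs_cl (by omega) htn h1]
        refine Run.oc _ _ ?_ hr
        have a := hop 0 h0
        have b := hcl 1 h1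
        intro x
        rcases hcr with ⟨e0, e1⟩ | ⟨e0, e1⟩ <;> rw [e0, e1] <;>
          simp only [Arc0, Nat.add_sub_cancel] <;> have := a.1 <;> have := a.2 <;>
          have := b.1 <;> have := b.2 <;> omega
    | cl =>
      cases h1 : stt n H G 1 t with
      | fs => exact Run.fr _ _ (by simp) hr
      | fe => exact Run.fr _ _ (by simp) hr
      | op =>
        rw [Fd.cs_op h1] at hr
        rw [F.cs_cl (by omega) htn h0]
        refine Run.co _ _ ?_ hr
        have a := hcl 0 h0
        have b := hop 1 h1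
        intro x
        rcases hcr with ⟨e0, e1⟩ | ⟨e0, e1⟩ <;> rw [e0, e1] <;>
          simp only [Arc0, Nat.add_sub_cancel] <;> have := a.1 <;> have := a.2 <;>
          have := b.1 <;> have := b.2 <;> omega
      | cl =>
        rw [F.cs_cl (by omega) htn h0, F.cs_cl (by omega) htn h1]
        have a := hcl 0 h0
        have b := hcl 1 h1
        refine Run.cc _ _ ?_ ?_ hr
        · rcases hcr with ⟨e0, e1⟩ | ⟨e0, e1⟩ <;> rw [e0, e1] <;>
            simp only [Arc0, Nat.add_sub_cancel] <;> have := a.1 <;> have := a.2 <;>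
            have := b.1 <;> have := b.2 <;> omega
        · intro x y
          rcases hcr with ⟨e0, e1⟩ | ⟨e0, e1⟩ <;> rw [e0, e1] <;>
            simp only [Arc0, Nat.add_sub_cancel] <;> have := a.1 <;> have := a.2 <;>
            have := b.1 <;> have := b.2 <;> omega

def word (n : ℕ) (H G : ℕ → ℕ) : List (St × St) := (List.range' 0 (n + 1)).map (letter n H G)

lemma Fd.real (F : Fd n H G) : Real' ⟨0, 0, 0, 0⟩ (word n H G) :=
  ⟨Arc0 H, _, _, fun a b h => by unfold Arc0 at h ⊢; tauto,
    sound_empty _ _, F.run (n + 1) 0 (by omega)⟩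

lemma word_length : (word n H G).length = n + 1 := by simp [word]

lemma Fd.word_inj (F : Fd n H G) {H' G' : ℕ → ℕ} (F' : Fd n H' G')
    (h : word n H G = word n H' G') : ∀ i, i ≤ n → H i = H' i := by
  have hl : ∀ t, t ≤ n → letter n H G t = letter n H' G' t := by
    intro t ht
    exact List.map_inj_left.1 h t (by simp; omega)
  have hst : ∀ s, s < 2 → ∀ t, t ≤ n → stt n H G s t = stt n H' G' s t := by
    intro s hs t ht
    have := hl t ht
    simp only [letter, Prod.mk.injEq] at this
    interval_cases s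
    · exact this.1
    · exact this.2
  have hstk : ∀ s, s < 2 → ∀ t, t ≤ n → stk (stt n H G s) t = stk (stt n H' G' s) t :=
    fun s hs t ht => stk_congr t (fun u hu => hst s hs u (by omega))
  have hlo : ∀ s, s < 2 → ∀ t, t ≤ n → stt n H G s t = St.cl →
      lo H (cr G s t) = lo H' (cr G' s t) := by
    intro s hs t ht hc
    have a := F.stk_cl hs ht hc
    have b := F'.stk_cl hs ht (hst s hs t ht ▸ hc)
    rw [hstk s hs t ht, b] at a
    exact (List.cons.inj a).1.symm
  intro i
  induction i with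
  | zero =>
    intro _
    have h0 := F.hH 0 (by omega)
    have h1 : stt n H G 0 (H 0) = St.fs := by simp [stt, cr, h0.2]
    rw [hst 0 (by omega) _ h0.1] at h1
    have h2 : cr G' 0 (H 0) = 0 := by
      unfold stt at h1; split_ifs at h1; assumption
    have h3 : G' (H 0) = 0 := by
      unfold cr at h2; split_ifs at h2 <;> omega
    have := (F'.hG _ h0.1).2
    rw [h3] at this
    exact this.symm
  | succ i ih =>
    intro hi1
    have e := ih (by omega)
    have hs : (i + 1) % 2 < 2 := by omega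
    have c1 := (F.cr_ends (c := i + 1) (by omega) hi1 rfl)
    have c2 := (F'.cr_ends (c := i + 1) (by omega) hi1 rfl)
    simp only [Nat.add_sub_cancel] at c1 c2
    have l1 := F.lo_lt (c := i + 1) (by omega) hi1
    have l2 := F'.lo_lt (c := i + 1) (by omega) hi1
    have t1 := (F.hH i (by omega)).1
    have t2 := (F.hH (i + 1) hi1).1
    by_cases hlt : H i < H (i + 1)
    · have s1 : stt n H G ((i + 1) % 2) (H (i + 1)) = St.cl := by
        unfold stt
        rw [c1.2, if_neg (by omega), if_neg (by omega), if_neg]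
        simp only [lo, Nat.add_sub_cancel]; omega
      have s2 := hlo _ hs _ t2 s1
      rw [hst _ hs _ t2] at s1
      obtain ⟨d1, d2, d3⟩ := F'.stt_cl t2 s1
      have s3 := F'.cr_lo d1 d2 (cr_mod hs _)
      rw [← s2, c1.2] at s3
      have s4 : lo H (i + 1) = H' i := by simp only [lo, Nat.add_sub_cancel]; omega
      rw [s4, c2.1] at s3
      rw [← s3] at d3
      simp only [hi, Nat.add_sub_cancel] at d3
      omega
    · have s1 : stt n H G ((i + 1) % 2) (H i) = St.cl := by
        unfold stt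
        rw [c1.1, if_neg (by omega), if_neg (by omega), if_neg]
        simp only [lo, hi, Nat.add_sub_cancel] at l1 ⊢; omega
      have s2 := hlo _ hs _ t1 s1
      rw [hst _ hs _ t1] at s1
      obtain ⟨d1, d2, d3⟩ := F'.stt_cl t1 s1
      rw [c1.1] at s2
      rw [e, c2.1] at s2 d3
      simp only [lo, hi, Nat.add_sub_cancel] at s2 d3 l1 l2
      omega

noncomputable def om (y η : ℝ) : St → ℝ
  | St.op => y
  | St.cl => y⁻¹
  | _ => η

lemma Fd.side_prod (F : Fd n H G) {s : ℕ} (hs : s < 2) (y η : ℝ) (hy : y ≠ 0) :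
    ∀ t, t ≤ n + 1 → ∏ u ∈ Finset.range t, om y η (stt n H G s u) =
      y ^ (stk (stt n H G s) t).length *
        ∏ u ∈ Finset.range t, (if cr G s u = 0 ∨ cr G s u = n + 1 then η else 1) := by
  intro t
  induction t with
  | zero => intro _; simp [stk]
  | succ t ih =>
    intro ht
    have htn : t ≤ n := by omega
    rw [Finset.prod_range_succ, Finset.prod_range_succ, ih (by omega)]
    cases h : stt n H G s t with
    | op =>
      obtain ⟨c1, c2, _⟩ := F.stt_op htn h
      rw [if_neg (by omega)]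
      simp only [stk, h, om, List.length_cons, pow_succ]
      ring
    | cl =>
      obtain ⟨c1, c2, _⟩ := F.stt_cl htn h
      rw [if_neg (by omega), F.stk_cl hs htn h]
      simp only [om, List.length_cons, pow_succ]
      field_simp
    | fs =>
      have c1 : cr G s t = 0 := by
        unfold stt at h; split_ifs at h; assumption
      rw [if_pos (Or.inl c1)]
      simp only [stk, h, om]
      ring
    | fe =>
      have c1 : cr G s t = n + 1 := by
        unfold stt at h; split_ifs at h; assumption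
      rw [if_pos (Or.inr c1)]
      simp only [stk, h, om]
      ring

lemma Fd.wt_word (F : Fd n H G) (y η : ℝ) (hy : y ≠ 0) : wt (om y η) (word n H G) = η * η := by
  have h1 : wt (om y η) (word n H G) =
      ∏ u ∈ Finset.range (n + 1), om y η (stt n H G 0 u) * om y η (stt n H G 1 u) := by
    simp only [wt, word, List.map_map, ← List.range_eq_range']
    rfl
  rw [h1, Finset.prod_mul_distrib, F.side_prod (by omega) y η hy _ le_rfl,
    F.side_prod (by omega) y η hy _ le_rfl, F.stk_end (by omega), F.stk_end (by omega)]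
  simp only [List.length_nil, pow_zero, one_mul]
  rw [← Finset.prod_mul_distrib]
  have h2 : ∀ u ∈ Finset.range (n + 1),
      (if cr G 0 u = 0 ∨ cr G 0 u = n + 1 then η else 1) *
        (if cr G 1 u = 0 ∨ cr G 1 u = n + 1 then η else 1) =
      (if u = H 0 then η else 1) * (if u = H n then η else 1) := by
    intro u hu
    have hu' : u ≤ n := by simpa [Nat.lt_succ_iff] using hu
    obtain ⟨g1, g2⟩ := F.hG u hu'
    have e0 : u = H 0 ↔ G u = 0 :=
      ⟨fun h => by rw [h]; exact (F.hH 0 (by omega)).2, fun h => by rw [← h]; exact g2.symm⟩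
    have e1 : u = H n ↔ G u = n :=
      ⟨fun h => by rw [h]; exact (F.hH n le_rfl).2, fun h => by rw [← h]; exact g2.symm⟩
    simp only [e0, e1, cr]
    split_ifs <;> first | omega | (simp; done) | (simp only [false_or] at *; omega)
  rw [Finset.prod_congr rfl h2, Finset.prod_mul_distrib, Finset.prod_ite_eq', Finset.prod_ite_eq',
    if_pos (by have := (F.hH 0 (by omega)).1; simp; omega),
    if_pos (by have := (F.hH n le_rfl).1; simp; omega)]

end Pool.Agent.Lib.MP_8a1ce7_co
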