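import Mathlib
import Pool.Agent.Lib.MP_8a1ce7_co.Fold

set_option autoImplicit false

namespace Pool.Agent.Lib.MP_8a1ce7_co

inductive Tr | leaf (n : ℕ) | node (l r : Tr)

noncomputable def getK (T : Tr) : ℕ → ℕ :=
  @Tr.rec (fun _ => ℕ → ℕ) (fun n _ => n)
    (fun _ _ l r i => @Nat.rec (fun _ => ℕ) (l (Nat.shiftRight i 1))
      (fun _ _ => r (Nat.shiftRight i 1)) (Nat.land i 1)) T

noncomputable def entK (T : Tr) (j : ℕ) : ℕ :=
  Nat.land (Nat.shiftRight (getK T (Nat.shiftRight j 6)) (Nat.mul 128 (Nat.land j 63)))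
    340282366920938463463374607431768211455

def eL (e : ℕ) : ℕ := Nat.land e 281474976710655
def eR (e : ℕ) : ℕ := Nat.land (Nat.shiftRight e 48) 281474976710655
def eV (e : ℕ) : ℕ := Nat.shiftRight e 96

noncomputable def eqnz (a b v : ℕ) : ℕ :=
  ite' (Nat.beq a 0) 18446744073709551616 (ite' (Nat.beq a b) v 18446744073709551616)

noncomputable def tv3 (l r ml mr e : ℕ) : ℕ :=
  eqnz (wkN 26 l (eL e) 1 ml) (wkN 26 r (eR e) 1 mr) (eV e)

noncomputable def tvK (T : Tr) (N l r ml mr c : ℕ) : ℕ :=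
  ite' (Nat.blt (Nat.shiftRight c 1) N)
    (@Nat.rec (fun _ => ℕ) (tv3 l r ml mr (entK T (Nat.shiftRight c 1)))
      (fun _ _ => tv3 r l mr ml (entK T (Nat.shiftRight c 1))) (Nat.land c 1))
    18446744073709551616

noncomputable def mvK (a : ℕ) : ℕ := br3 a 0 2 1

noncomputable def tvC (T : Tr) (N a b l r c : ℕ) : ℕ :=
  br3 a (br3 b (tvK T N l r 0 0 c) (tvK T N l r 2 0 c) (tvK T N l r 0 2 c))
    (br3 b (tvK T N l r 0 2 c) 0 (tvK T N l r 0 1 c))
    (br3 b (tvK T N l r 2 0 c) (tvK T N l r 1 0 c) (tvK T N l r 0 0 c))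

noncomputable def chk3 (T : Tr) (N A B C D l r v tg : ℕ) : Bool :=
  Nat.blt (Nat.add (Nat.add
    (Nat.mul A (tvK T N (Nat.add (Nat.mul 4 l) 1) (Nat.add (Nat.mul 4 r) 1) 0 0
      (Nat.land tg 1048575)))
    (Nat.mul B (Nat.add
      (tvK T N (Nat.shiftRight l 2) (Nat.add (Nat.mul 4 r) (mvK (Nat.land l 3))) 0 0
        (Nat.land (Nat.shiftRight tg 20) 1048575))
      (tvK T N (Nat.add (Nat.mul 4 l) (mvK (Nat.land r 3))) (Nat.shiftRight r 2) 0 0
        (Nat.land (Nat.shiftRight tg 40) 1048575)))))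
    (Nat.mul C (tvC T N (Nat.land l 3) (Nat.land r 3) (Nat.shiftRight l 2) (Nat.shiftRight r 2)
      (Nat.land (Nat.shiftRight tg 60) 1048575)))) (Nat.mul D v)

noncomputable def chkE (T : Tr) (N A B C D e tg : ℕ) : Bool :=
  chk3 T N A B C D (eL e) (eR e) (eV e) tg

noncomputable def rowK (T : Tr) (N A B C D i0 tgs : ℕ) (k : ℕ) : Bool :=
  @Nat.rec (fun _ => Bool) true (fun k ih => @Bool.rec (fun _ => Bool) false ih
    (@Bool.rec (fun _ => Bool) true (chkE T N A B C D (entK T (Nat.add i0 k))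
      (Nat.land (Nat.shiftRight tgs (Nat.mul 80 k)) 1208925819614629174706175))
      (Nat.blt (Nat.add i0 k) N))) k

noncomputable def allK (T TG : Tr) (N A B C D j0 : ℕ) (k : ℕ) : Bool :=
  @Nat.rec (fun _ => Bool) true (fun k ih => @Bool.rec (fun _ => Bool) false ih
    (rowK T N A B C D (Nat.mul 64 (Nat.add j0 k)) (getK TG (Nat.add j0 k)) 64)) k

lemma brec_true {x y : Bool} (h : @Bool.rec (fun _ => Bool) false x y = true) :
    x = true ∧ y = true := by
  cases y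
  · exact absurd h (by simp)
  · exact ⟨h, rfl⟩

lemma rowK_spec (T : Tr) (N A B C D i0 tgs : ℕ) : ∀ k, rowK T N A B C D i0 tgs k = true →
    ∀ u, i0 ≤ u → u < i0 + k → u < N → ∃ tg, chkE T N A B C D (entK T u) tg = true := by
  intro k
  induction k with
  | zero => intro _ u h1 h2; omega
  | succ k ih =>
    intro h u h1 h2 h3
    obtain ⟨a, b⟩ := brec_true (x := rowK T N A B C D i0 tgs k) h
    by_cases hu : u = i0 + k
    · subst hu
      have e : Nat.blt (Nat.add i0 k) N = true := Nat.blt_eq.mpr h3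
      rw [e] at b
      exact ⟨_, b⟩
    · exact ih a u h1 (by omega) h3

lemma allK_spec (T TG : Tr) (N A B C D j0 : ℕ) : ∀ k, allK T TG N A B C D j0 k = true →
    ∀ u, 64 * j0 ≤ u → u < 64 * (j0 + k) → u < N →
      ∃ tg, chkE T N A B C D (entK T u) tg = true := by
  intro k
  induction k with
  | zero => intro _ u h1 h2; omega
  | succ k ih =>
    intro h u h1 h2 h3
    obtain ⟨a, b⟩ := brec_true (x := allK T TG N A B C D j0 k) h
    by_cases hu : 64 * (j0 + k) ≤ u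
    · exact rowK_spec T N A B C D _ _ _ b u hu (by show u < 64 * (j0 + k) + 64; omega) h3
    · exact ih a u h1 (by omega) h3

lemma eV_lt (T : Tr) (j : ℕ) : eV (entK T j) < 4294967296 := by
  have h : entK T j ≤ 340282366920938463463374607431768211455 := Nat.and_le_right
  have e : eV (entK T j) = entK T j / 2 ^ 96 := Nat.shiftRight_eq_div_pow _ _
  rw [e]
  omega

lemma tv3_spec {ω : St → ℝ} {l r ml mr e m : ℕ} {ρ : ℝ}
    (ih : Bd ω ⟨eL e, eR e, 0, 0⟩ m (eV e * ρ)) (h : tv3 l r ml mr e ≠ 18446744073709551616) :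
    Bd ω ⟨l, r, ml, mr⟩ m (tv3 l r ml mr e * ρ) := by
  unfold tv3 eqnz at h ⊢
  rw [ite'_beq, ite'_beq] at h ⊢
  by_cases h1 : wkN 26 l (eL e) 1 ml = 0
  · rw [if_pos h1] at h; exact absurd rfl h
  · rw [if_neg h1] at h ⊢
    by_cases h2 : wkN 26 l (eL e) 1 ml = wkN 26 r (eR e) 1 mr
    · rw [if_pos h2]
      exact ih.weak ⟨h1, h2⟩
    · rw [if_neg h2] at h; exact absurd rfl h

lemma tvK_spec {ω : St → ℝ} {T : Tr} {N l r ml mr c m : ℕ} {ρ : ℝ}
    (ih : ∀ j, j < N → Bd ω ⟨eL (entK T j), eR (entK T j), 0, 0⟩ m (eV (entK T j) * ρ))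
    (h : tvK T N l r ml mr c ≠ 18446744073709551616) :
    Bd ω ⟨l, r, ml, mr⟩ m (tvK T N l r ml mr c * ρ) := by
  unfold tvK at h ⊢
  cases h1 : Nat.blt (Nat.shiftRight c 1) N
  · rw [h1] at h; exact absurd rfl h
  · rw [h1] at h
    have h2 := ih _ (Nat.blt_eq.mp h1)
    generalize entK T (Nat.shiftRight c 1) = e at h h2 ⊢
    generalize Nat.land c 1 = b at h ⊢
    cases b with
    | zero => exact tv3_spec h2 h
    | succ b => exact Bd.swap (tv3_spec (l := r) (r := l) (ml := mr) (mr := ml) h2 h)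

lemma mvK_eq (a : ℕ) : mvK a = mv a := by simp only [mvK, br3_eq, mv]

lemma tvC_spec {ω : St → ℝ} {T : Tr} {N a b l r c m : ℕ} {ρ : ℝ} {p : Pat}
    (ih : ∀ j, j < N → Bd ω ⟨eL (entK T j), eR (entK T j), 0, 0⟩ m (eV (entK T j) * ρ))
    (h : tvC T N a b l r c ≠ 18446744073709551616) (hp : stepC a b l r = some p) :
    Bd ω p m (tvC T N a b l r c * ρ) := by
  simp only [tvC, br3_eq, stepC] at h hp ⊢
  split_ifs at h hp ⊢ <;> first
    | (obtain rfl := Option.some.inj hp; exact tvK_spec ih h)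
    | exact absurd hp (by simp)

lemma sum_St (f : St → ℝ) : ∑ s, f s = f St.op + f St.cl + f St.fs + f St.fe := by
  have : (Finset.univ : Finset St) = {St.op, St.cl, St.fs, St.fe} := rfl
  rw [this]
  simp [add_assoc]

lemma chk3_spec {T : Tr} {N A B C D l r v tg : ℕ} (hv : v < 4294967296)
    (hA : D ≤ A * 4294967296) (hB : D ≤ B * 4294967296) (hC : D ≤ C * 4294967296)
    (h : chk3 T N A B C D l r v tg = true) : ∃ t1 t2 t3 t4 : ℕ,
      tvK T N (4 * l + 1) (4 * r + 1) 0 0 t1 ≠ 18446744073709551616 ∧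
      tvK T N (l / 4) (4 * r + mv (l % 4)) 0 0 t2 ≠ 18446744073709551616 ∧
      tvK T N (4 * l + mv (r % 4)) (r / 4) 0 0 t3 ≠ 18446744073709551616 ∧
      tvC T N (l % 4) (r % 4) (l / 4) (r / 4) t4 ≠ 18446744073709551616 ∧
      A * tvK T N (4 * l + 1) (4 * r + 1) 0 0 t1 +
        B * (tvK T N (l / 4) (4 * r + mv (l % 4)) 0 0 t2 +
          tvK T N (4 * l + mv (r % 4)) (r / 4) 0 0 t3) +
        C * tvC T N (l % 4) (r % 4) (l / 4) (r / 4) t4 < D * v := by
  unfold chk3 at h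
  rw [Nat.blt_eq] at h
  simp only [Nat.add_eq, Nat.mul_eq, land3, shr2, mvK_eq] at h
  have hD : D * v ≤ D * 4294967296 := Nat.mul_le_mul_left _ hv.le
  refine ⟨_, _, _, _, ?_, ?_, ?_, ?_, h⟩
  · intro e
    rw [e] at h
    omega
  · intro e
    rw [e, Nat.mul_add] at h
    omega
  · intro e
    rw [e, Nat.mul_add] at h
    omega
  · intro e
    rw [e] at h
    omega

theorem cert_bound (T : Tr) (N P Q Ln Ld : ℕ) (hN : 0 < N) (hP : 0 < P) (hPQ : P ≤ Q)
    (hQ : Q ≤ 2 * P) (hLd : 0 < Ld)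
    (h0 : eL (entK T 0) = 0) (h0' : eR (entK T 0) = 0)
    (hA : Ln * P ^ 2 * Q ^ 2 ≤ Ld * P ^ 4 * 4294967296)
    (hB : Ln * P ^ 2 * Q ^ 2 ≤ Ld * P ^ 2 * Q ^ 2 * 4294967296)
    (hC : Ln * P ^ 2 * Q ^ 2 ≤ Ld * Q ^ 4 * 4294967296)
    (hc : ∀ u, u < N → ∃ tg, chkE T N (Ld * P ^ 4) (Ld * P ^ 2 * Q ^ 2) (Ld * Q ^ 4)
      (Ln * P ^ 2 * Q ^ 2) (entK T u) tg = true) :
    ∃ η C : ℝ, 0 < η ∧ ∀ m, Bd (om ((P : ℝ) / Q) η) ⟨0, 0, 0, 0⟩ m (C * ((Ln : ℝ) / Ld) ^ m) := by
  have hP' : (0 : ℝ) < P := by exact_mod_cast hP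
  have hQ' : (0 : ℝ) < Q := by exact_mod_cast (lt_of_lt_of_le hP hPQ)
  have hLd' : (0 : ℝ) < Ld := by exact_mod_cast hLd
  have hPQ' : (P : ℝ) ≤ Q := by exact_mod_cast hPQ
  have hQP' : (Q : ℝ) ≤ 2 * P := by exact_mod_cast hQ
  set y : ℝ := (P : ℝ) / Q with hy
  set v0 : ℝ := ((eV (entK T 0) : ℕ) : ℝ) with hv0
  have hv0' : 0 ≤ v0 := Nat.cast_nonneg _
  set σ : ℝ := 1 / (Ld * P ^ 2 * Q ^ 2) with hσ
  have hσ0 : 0 < σ := by positivity
  set η : ℝ := min 1 (σ / (16 * (v0 + 1))) with hη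
  have hη0 : 0 < η := lt_min one_pos (by positivity)
  have hη1 : η ≤ 1 := min_le_left _ _
  have hη2 : 16 * η * v0 ≤ σ := by
    have h1 : η ≤ σ / (16 * (v0 + 1)) := min_le_right _ _
    rw [le_div_iff₀ (by positivity)] at h1
    nlinarith
  have hy0 : 0 < y := by positivity
  have hy1 : y ≤ 1 := (div_le_one hQ').2 hPQ'
  have hy2 : y⁻¹ ≤ 2 := by
    rw [hy, inv_div, div_le_iff₀ hP']; exact hQP'
  have hyi : 0 < y⁻¹ := inv_pos.2 hy0
  have hom : ∀ s, 0 ≤ om y η s := by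
    intro s; cases s <;> simp only [om] <;> positivity
  set lam : ℝ := (Ln : ℝ) / Ld with hlam
  have hlam0 : 0 ≤ lam := by positivity
  have key : ∀ a b c d v : ℕ, Ld * P ^ 4 * a + Ld * P ^ 2 * Q ^ 2 * (b + c) + Ld * Q ^ 4 * d <
      Ln * P ^ 2 * Q ^ 2 * v → y * y * a + b + c + y⁻¹ * y⁻¹ * d + σ ≤ lam * v ∧ 1 ≤ v := by
    intro a b c d v h
    constructor
    · have h5 : Ld * P ^ 4 * a + Ld * P ^ 2 * Q ^ 2 * (b + c) + Ld * Q ^ 4 * d + 1 ≤
          Ln * P ^ 2 * Q ^ 2 * v := h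
      have h6 : (Ld : ℝ) * P ^ 4 * a + Ld * P ^ 2 * Q ^ 2 * (b + c) + Ld * Q ^ 4 * d + 1 ≤
          Ln * P ^ 2 * Q ^ 2 * v := by exact_mod_cast h5
      have h7 := mul_le_mul_of_nonneg_left h6 hσ0.le
      refine le_trans (le_of_eq ?_) (h7.trans (le_of_eq ?_))
      · rw [hσ, hy]; field_simp; ring
      · rw [hσ, hlam]; field_simp
    · by_contra hh
      have : v = 0 := by omega
      rw [this] at h
      omega
  have main : ∀ m u, u < N → Bd (om y η) ⟨eL (entK T u), eR (entK T u), 0, 0⟩ m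
      (eV (entK T u) * lam ^ m) := by
    intro m
    induction m with
    | zero =>
      intro u hu
      obtain ⟨tg, h⟩ := hc u hu
      obtain ⟨t1, t2, t3, t4, -, -, -, -, h5⟩ := chk3_spec (eV_lt T u) hA hB hC h
      refine (bd_zero _).mono ?_
      simpa using (key _ _ _ _ _ h5).2
    | succ m ih =>
      intro u hu
      obtain ⟨tg, h⟩ := hc u hu
      obtain ⟨t1, t2, t3, t4, h1, h2, h3, h4, h5⟩ := chk3_spec (eV_lt T u) hA hB hC h
      have h6 := (key _ _ _ _ _ h5).1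
      have b1 := tvK_spec ih h1
      have b2 := tvK_spec ih h2
      have b3 := tvK_spec ih h3
      have b4 := fun p hp => tvC_spec (p := p) ih h4 hp
      generalize eL (entK T u) = l at *
      generalize eR (entK T u) = r at *
      generalize tvK T N (4 * l + 1) (4 * r + 1) 0 0 t1 = a at *
      generalize tvK T N (l / 4) (4 * r + mv (l % 4)) 0 0 t2 = b at *
      generalize tvK T N (4 * l + mv (r % 4)) (r / 4) 0 0 t3 = c at *
      generalize tvC T N (l % 4) (r % 4) (l / 4) (r / 4) t4 = d at *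
      have hr : 0 ≤ lam ^ m := pow_nonneg hlam0 m
      let x : St × St → ℝ := fun l => match l with
        | (St.op, St.op) => a * lam ^ m
        | (St.cl, St.op) => b * lam ^ m
        | (St.op, St.cl) => c * lam ^ m
        | (St.cl, St.cl) => d * lam ^ m
        | _ => v0 * lam ^ m
      have hE : Bd (om y η) ⟨0, 0, 0, 0⟩ m (v0 * lam ^ m) := by
        have := ih 0 hN
        rwa [h0, h0'] at this
      refine (Bd.succ hom x ?_ ?_).mono ?_
      · rintro ⟨s, t⟩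
        cases s <;> cases t <;> simp only [x] <;> positivity
      · rintro ⟨s, t⟩ p' hp
        cases s <;> cases t <;> simp only [step, Option.some.injEq] at hp <;> simp only [x]
        all_goals first
          | (subst hp; first | exact hE | exact b1 | exact b2 | exact b3)
          | exact b4 _ hp
      · rw [Fintype.sum_prod_type, sum_St]
        simp only [sum_St, x, om]
        have e1 : y * y⁻¹ = 1 := mul_inv_cancel₀ hy0.ne'
        have e2 : y⁻¹ * y = 1 := inv_mul_cancel₀ hy0.ne'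
        rw [e1, e2]
        have e3 : (4 * (η * y) + 4 * (η * y⁻¹) + 4 * (η * η)) * v0 ≤ σ := by
          refine le_trans ?_ hη2
          apply mul_le_mul_of_nonneg_right _ hv0'
          nlinarith
        have e4 := mul_le_mul_of_nonneg_right h6 hr
        have e5 := mul_le_mul_of_nonneg_right e3 hr
        rw [pow_succ]
        nlinarith
  refine ⟨η, v0, hη0, fun m => ?_⟩
  have := main m 0 hN
  rwa [h0, h0'] at this

end Pool.Agent.Lib.MP_8a1ce7_co
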