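import Pool.Agent.Lib.MP_8a1ce7_co.Pot

set_option autoImplicit false

namespace Pool.Agent.Lib.MP_8a1ce7_co.D

open Fo

/-- forests with gaps -/
inductive Pat
  | nil
  | gap (g : ℕ) (r : Pat)
  | cons (c r : Pat)

def inst (σ : ℕ → Fo) : Pat → Fo
  | .nil => .nil
  | .gap g r => app (σ g) (inst σ r)
  | .cons c r => .cons (inst σ c) (inst σ r)

def bnd (n : ℕ) : Pat → Prop
  | .nil => True
  | .gap g r => g < n ∧ bnd n r
  | .cons c r => bnd n c ∧ bnd n r

noncomputable def papp (x y : Pat) : Pat :=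
  @Pat.rec (fun _ => Pat) y (fun g _ ih => .gap g ih) (fun c _ _ ih => .cons c ih) x

lemma inst_papp (σ : ℕ → Fo) (x y : Pat) : inst σ (papp x y) = app (inst σ x) (inst σ y) := by
  induction x with
  | nil => rfl
  | gap g r ih => exact (congrArg (app (σ g)) ih).trans (app_assoc _ _ _).symm
  | cons c r _ ih => exact congrArg (Fo.cons (inst σ c)) ih

noncomputable def sb (g : ℕ) (f : Pat → Pat) (x : Pat) : Pat :=
  @Pat.rec (fun _ => Pat) .nil
    (fun g' _ ih => @Bool.rec (fun _ => Pat) (.gap g' ih) (f ih) (Nat.beq g' g))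
    (fun _ _ ic ih => .cons ic ih) x

lemma sb_spec {σ σ' : ℕ → Fo} {g n n' : ℕ} {f : Pat → Pat} (h1 : ∀ k, k < n → k ≠ g → σ' k = σ k)
    (h2 : ∀ r, inst σ' (f r) = app (σ g) (inst σ' r)) (hn : n ≤ n')
    (h3 : g < n → ∀ r, bnd n' r → bnd n' (f r)) {x : Pat} (hx : bnd n x) :
    inst σ' (sb g f x) = inst σ x ∧ bnd n' (sb g f x) := by
  induction x with
  | nil => exact ⟨rfl, trivial⟩
  | gap k r ih =>
    obtain ⟨i1, i2⟩ := ih hx.2
    have e : sb g f (.gap k r) =
      @Bool.rec (fun _ => Pat) (.gap k (sb g f r)) (f (sb g f r)) (Nat.beq k g) := rfl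
    rw [e]
    cases hb : Nat.beq k g
    · have : k ≠ g := Nat.ne_of_beq_eq_false hb
      exact ⟨by simp only [inst, i1, h1 k hx.1 this], hx.1.trans_le hn, i2⟩
    · have : k = g := Nat.eq_of_beq_eq_true hb
      subst this
      exact ⟨by simp only [inst, h2, i1], h3 hx.1 _ i2⟩
  | cons c r ic ih =>
    obtain ⟨i1, i2⟩ := ih hx.2
    obtain ⟨j1, j2⟩ := ic hx.1
    exact ⟨by change Fo.cons _ _ = Fo.cons _ _; rw [← i1, ← j1]; rfl, j2, i2⟩

noncomputable def force {β : Type} (x : Pat) : (Pat → β) → β :=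
  @Pat.rec (fun _ => (Pat → β) → β) (fun k => k .nil)
    (fun g _ ih k => ih fun r => k (.gap g r))
    (fun _ _ ic ih k => ic fun c => ih fun r => k (.cons c r)) x

lemma force_eq {β : Type} (x : Pat) (k : Pat → β) : force x k = k x := by
  induction x generalizing k with
  | nil => rfl
  | gap g r ih => exact ih _
  | cons c r ic ih => exact (ic _).trans (ih _)

noncomputable def frc {β : Type} (n : ℕ) (k : ℕ → β) : β :=
  @Nat.rec (fun _ => β) (k 0) (fun m _ => k (Nat.succ m)) n

lemma frc_eq {β : Type} (n : ℕ) (k : ℕ → β) : frc n k = k n := by cases n <;> rfl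

/-- refinement search driven by a code -/
noncomputable def go (lf : Pat → Pat → Pat → ℕ → Bool) (wd fuel : ℕ) :
    Pat → Pat → Pat → ℕ → ℕ → ℕ :=
  @Nat.rec (fun _ => Pat → Pat → Pat → ℕ → ℕ → ℕ) (fun _ _ _ _ _ => 0)
    (fun _ ih A M B c code => force A fun A => force M fun M => force B fun B =>
      @Nat.rec (fun _ => ℕ)
        (@Bool.rec (fun _ => ℕ) 0 (Nat.shiftRight code (Nat.succ wd))
          (lf A M B (Nat.mod (Nat.shiftRight code 1) (Nat.pow 2 wd))))
        (fun _ _ => frc (Nat.land (Nat.shiftRight code 2) 63) fun g => frc (Nat.succ c) fun c' =>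
          @Nat.rec (fun _ => ℕ) 0
            (fun r _ => @Nat.rec (fun _ => ℕ)
              (ih (sb g (fun x => .cons (.gap c .nil) (.gap g x)) A)
                (sb g (fun x => .cons (.gap c .nil) (.gap g x)) M)
                (sb g (fun x => .cons (.gap c .nil) (.gap g x)) B) c' (Nat.succ r))
              (fun _ _ => ih (sb g (fun x => .gap g (.cons (.gap c .nil) x)) A)
                (sb g (fun x => .gap g (.cons (.gap c .nil) x)) M)
                (sb g (fun x => .gap g (.cons (.gap c .nil) x)) B) c' (Nat.succ r))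
              (Nat.land code 2))
            (ih (sb g (fun x => x) A) (sb g (fun x => x) M) (sb g (fun x => x) B) c
              (Nat.shiftRight code 8)))
        (Nat.land code 1)) fuel

def Cov (Φ : Fo → Fo → Fo → Prop) (A M B : Pat) (c : ℕ) : Prop :=
  bnd c A → bnd c M → bnd c B → ∀ σ, Φ (inst σ A) (inst σ M) (inst σ B)

variable {Φ : Fo → Fo → Fo → Prop} {A M B : Pat} {c : ℕ}

lemma cov0 {g : ℕ} (h0 : Cov Φ (sb g (fun x => x) A) (sb g (fun x => x) M) (sb g (fun x => x) B) c)
    (hA : bnd c A) (hM : bnd c M) (hB : bnd c B) {σ : ℕ → Fo} (h : σ g = .nil) :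
    Φ (inst σ A) (inst σ M) (inst σ B) := by
  have k : ∀ x, bnd c x → inst σ (sb g (fun x => x) x) = inst σ x ∧ bnd c (sb g (fun x => x) x) :=
    fun x hx => sb_spec (fun _ _ _ => rfl) (fun r => by rw [h]; rfl) le_rfl (fun _ _ h => h) hx
  have := h0 (k A hA).2 (k M hM).2 (k B hB).2 σ
  rwa [(k A hA).1, (k M hM).1, (k B hB).1] at this

theorem splitL (g : ℕ)
    (h0 : Cov Φ (sb g (fun x => x) A) (sb g (fun x => x) M) (sb g (fun x => x) B) c)
    (h1 : Cov Φ (sb g (fun x => .cons (.gap c .nil) (.gap g x)) A)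
      (sb g (fun x => .cons (.gap c .nil) (.gap g x)) M)
      (sb g (fun x => .cons (.gap c .nil) (.gap g x)) B) (Nat.succ c)) : Cov Φ A M B c := by
  intro hA hM hB σ
  cases e : σ g with
  | nil => exact cov0 h0 hA hM hB e
  | cons a r =>
    let σ' : ℕ → Fo := fun k => if k = c then a else if k = g then r else σ k
    by_cases hg : g = c
    · have k : ∀ x, bnd c x → inst (fun k => if k = g then Fo.nil else σ k) x = inst σ x := by
        intro x hx
        induction x with
        | nil => rfl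
        | gap k r ih => simp only [inst, ih hx.2, if_neg (show k ≠ g from hg ▸ hx.1.ne)]
        | cons c r ic ih => simp only [inst, ih hx.2, ic hx.1]
      rw [← k A hA, ← k M hM, ← k B hB]
      exact cov0 h0 hA hM hB (by simp)
    have k := fun x (hx : bnd c x) => sb_spec (σ := σ) (σ' := σ') (g := g) (n' := Nat.succ c)
      (f := fun x => .cons (.gap c .nil) (.gap g x))
      (fun k h1 h2 => by simp only [σ', if_neg h1.ne, if_neg h2])
      (fun r => by simp [inst, σ', hg, e, app]) (Nat.le_succ c)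
      (fun h r hr => ⟨⟨Nat.lt_succ_self c, trivial⟩, h.trans (Nat.lt_succ_self c), hr⟩) hx
    have := h1 (k A hA).2 (k M hM).2 (k B hB).2 σ'
    rwa [(k A hA).1, (k M hM).1, (k B hB).1] at this

theorem splitR (g : ℕ)
    (h0 : Cov Φ (sb g (fun x => x) A) (sb g (fun x => x) M) (sb g (fun x => x) B) c)
    (h1 : Cov Φ (sb g (fun x => .gap g (.cons (.gap c .nil) x)) A)
      (sb g (fun x => .gap g (.cons (.gap c .nil) x)) M)
      (sb g (fun x => .gap g (.cons (.gap c .nil) x)) B) (Nat.succ c)) : Cov Φ A M B c := by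
  intro hA hM hB σ
  rcases snoc_cases (σ g) with e | ⟨r, a, e⟩
  · exact cov0 h0 hA hM hB e
  · let σ' : ℕ → Fo := fun k => if k = c then a else if k = g then r else σ k
    by_cases hg : g = c
    · have k : ∀ x, bnd c x → inst (fun k => if k = g then Fo.nil else σ k) x = inst σ x := by
        intro x hx
        induction x with
        | nil => rfl
        | gap k r ih => simp only [inst, ih hx.2, if_neg (show k ≠ g from hg ▸ hx.1.ne)]
        | cons c r ic ih => simp only [inst, ih hx.2, ic hx.1]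
      rw [← k A hA, ← k M hM, ← k B hB]
      exact cov0 h0 hA hM hB (by simp)
    have k := fun x (hx : bnd c x) => sb_spec (σ := σ) (σ' := σ') (g := g) (n' := Nat.succ c)
      (f := fun x => .gap g (.cons (.gap c .nil) x))
      (fun k h1 h2 => by simp only [σ', if_neg h1.ne, if_neg h2])
      (fun r => by simp [inst, σ', hg, e, app, app_assoc]) (Nat.le_succ c)
      (fun h r hr => ⟨h.trans (Nat.lt_succ_self c), ⟨Nat.lt_succ_self c, trivial⟩, hr⟩) hx
    have := h1 (k A hA).2 (k M hM).2 (k B hB).2 σ'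
    rwa [(k A hA).1, (k M hM).1, (k B hB).1] at this

theorem go_sound {lf : Pat → Pat → Pat → ℕ → Bool} {wd : ℕ}
    (hlf : ∀ A M B t, lf A M B t = true → ∀ σ, Φ (inst σ A) (inst σ M) (inst σ B)) (fuel : ℕ) :
    ∀ A M B c code, go lf wd fuel A M B c code ≠ 0 → Cov Φ A M B c := by
  induction fuel with
  | zero => exact fun _ _ _ _ _ h => absurd rfl h
  | succ fuel ih =>
    intro A M B c code h
    unfold go at h
    simp only [force_eq, frc_eq] at h
    change @Nat.rec (fun _ => ℕ) _ _ _ ≠ 0 at h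
    generalize Nat.land code 1 = b1 at h
    cases b1 with
    | zero =>
      generalize hb : lf A M B (Nat.mod (Nat.shiftRight code 1) (Nat.pow 2 wd)) = b at h
      cases b with
      | false => exact absurd rfl h
      | true => exact fun _ _ _ => hlf _ _ _ _ hb
    | succ b1 =>
      generalize Nat.land (Nat.shiftRight code 2) 63 = g at h
      have h0 := ih (sb g (fun x => x) A) (sb g (fun x => x) M) (sb g (fun x => x) B) c
        (Nat.shiftRight code 8)
      unfold go at h0
      simp only [force_eq, frc_eq] at h0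
      change @Nat.rec (fun _ => ℕ) _ _ _ ≠ 0 at h
      generalize hr : @Nat.rec (fun _ => Pat → Pat → Pat → ℕ → ℕ → ℕ) _ _ fuel
        (sb g (fun x => x) A) (sb g (fun x => x) M) (sb g (fun x => x) B) c
        (Nat.shiftRight code 8) = r at h h0
      cases r with
      | zero => exact absurd rfl h
      | succ r =>
        change @Nat.rec (fun _ => ℕ) _ _ _ ≠ 0 at h
        generalize Nat.land code 2 = b2 at h
        cases b2 with
        | zero =>
          refine splitL g (h0 (Nat.succ_ne_zero r)) (ih _ _ _ _ (Nat.succ r) ?_)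
          unfold go
          simp only [force_eq, frc_eq]
          exact h
        | succ b2 =>
          refine splitR g (h0 (Nat.succ_ne_zero r)) (ih _ _ _ _ (Nat.succ r) ?_)
          unfold go
          simp only [force_eq, frc_eq]
          exact h

/-- decision trees -/
inductive DT
  | lf (a : ℕ)
  | nl (h a : ℕ) (x y : DT)
  | nr (h a : ℕ) (x y : DT)

def val : DT → List Fo → ℕ
  | .lf a, _ => a
  | .nl h _ x y, l => match l.getD h .nil with
    | .nil => val x (l.eraseIdx h)
    | .cons c r => val y (c :: r :: l.eraseIdx h)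
  | .nr h _ x y, l => match l.getD h .nil with
    | .nil => val x (l.eraseIdx h)
    | .cons c r => val y (lst (.cons c r) :: ini (.cons c r) :: l.eraseIdx h)

noncomputable def nthK (l : List Pat) : ℕ → Pat :=
  @List.rec Pat (fun _ => ℕ → Pat) (fun _ => .nil)
    (fun x _ ih i => @Nat.rec (fun _ => Pat) x (fun j _ => ih j) i) l

noncomputable def eraK (l : List Pat) : ℕ → List Pat :=
  @List.rec Pat (fun _ => ℕ → List Pat) (fun _ => [])
    (fun x r ih i => @Nat.rec (fun _ => List Pat) r (fun j _ => x :: ih j) i) l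

lemma nthK_eq (σ : ℕ → Fo) (l : List Pat) (i : ℕ) :
    (l.map (inst σ)).getD i .nil = inst σ (nthK l i) := by
  induction l generalizing i with
  | nil => rfl
  | cons x l ih =>
    cases i with
    | zero => rfl
    | succ i => exact ih i

lemma eraK_eq (σ : ℕ → Fo) (l : List Pat) (i : ℕ) :
    (l.map (inst σ)).eraseIdx i = (eraK l i).map (inst σ) := by
  induction l generalizing i with
  | nil => rfl
  | cons x l ih =>
    cases i with
    | zero => rfl
    | succ i => exact congrArg (List.cons _) (ih i)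

noncomputable def rr (x : Pat) (kb : ℕ) : ℕ → (Pat → Pat → ℕ) → ℕ :=
  @Pat.rec (fun _ => ℕ → (Pat → Pat → ℕ) → ℕ) (fun k0 _ => k0)
    (fun g _ ih _ k1 => ih kb fun l i => k1 l (.gap g i))
    (fun c _ _ ih _ k1 => ih (k1 c .nil) fun l i => k1 l (.cons c i)) x

lemma rr_spec (σ : ℕ → Fo) {Ψ : ℕ → Prop} {kb : ℕ} (hb : Ψ kb) (x : Pat) {k0 : ℕ}
    {k1 : Pat → Pat → ℕ} (h0 : inst σ x = .nil → Ψ k0)
    (h1 : ∀ l i, inst σ x = app (inst σ i) (.cons (inst σ l) .nil) → Ψ (k1 l i)) :
    Ψ (rr x kb k0 k1) := by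
  induction x generalizing k0 k1 with
  | nil => exact h0 rfl
  | gap g r ih =>
    exact ih (fun _ => hb) fun l i e => h1 _ _ (by simp only [inst, e, app_assoc])
  | cons c r _ ih =>
    exact ih (fun e => h1 _ _ (by simp only [inst, e, app])) fun l i e =>
      h1 _ _ (by simp only [inst, e, app])

noncomputable def cls (T : DT) : List Pat → ℕ :=
  @DT.rec (fun _ => List Pat → ℕ) (fun a _ => a)
    (fun h a _ _ ix iy l => @Pat.rec (fun _ => ℕ) (ix (eraK l h)) (fun _ _ _ => a)
      (fun c r _ _ => iy (c :: r :: eraK l h)) (nthK l h))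
    (fun h a _ _ ix iy l => rr (nthK l h) a (ix (eraK l h)) fun c r => iy (c :: r :: eraK l h)) T

def f0 (a : ℕ) : ℕ := Nat.land a 16777215
def f1 (a : ℕ) : ℕ := Nat.land (Nat.shiftRight a 24) 16777215
def f2 (a : ℕ) : ℕ := Nat.land (Nat.shiftRight a 48) 16777215
def f3 (a : ℕ) : ℕ := Nat.shiftRight a 72

def dat : DT → ℕ
  | .lf a => a
  | .nl _ a _ _ => a
  | .nr _ a _ _ => a

def sub (a b : ℕ) : Bool :=
  Nat.ble (f0 a) (f0 b) && Nat.ble (f1 b) (f1 a) && Nat.ble (f2 a) (f2 b) && Nat.ble (f3 b) (f3 a)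

noncomputable def wf (T : DT) : Bool :=
  @DT.rec (fun _ => Bool) (fun a => Nat.ble (f0 a) (f1 a) && Nat.ble (f2 a) (f3 a))
    (fun _ a x y ix iy => sub a (dat x) && sub a (dat y) && ix && iy)
    (fun _ a x y ix iy => sub a (dat x) && sub a (dat y) && ix && iy) T

/-- the value `x` lies in the box `a` -/
def In (a x : ℕ) : Prop := (f0 a ≤ f0 x ∧ f0 x ≤ f1 a) ∧ f2 a ≤ f2 x ∧ f2 x ≤ f3 a

lemma In.mono {a b x : ℕ} (h : sub a b = true) (hx : In b x) : In a x := by
  simp only [sub, Bool.and_eq_true, Nat.ble_eq] at h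
  unfold In at *
  omega

lemma wf_nl {h a : ℕ} {x y : DT} (e : wf (.nl h a x y) = true) :
    sub a (dat x) = true ∧ sub a (dat y) = true ∧ wf x = true ∧ wf y = true := by
  have : (sub a (dat x) && sub a (dat y) && wf x && wf y) = true := e
  simpa only [Bool.and_eq_true, and_assoc] using this

lemma val_in {T : DT} (h : wf T = true) (l : List Fo) : In (dat T) (val T l) := by
  induction T generalizing l with
  | lf a =>
    have : (Nat.ble (f0 a) (f1 a) && Nat.ble (f2 a) (f3 a)) = true := h
    simp only [Bool.and_eq_true, Nat.ble_eq] at this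
    exact ⟨⟨le_rfl, this.1⟩, le_rfl, this.2⟩
  | nl i a x y ix iy =>
    obtain ⟨h1, h2, h3, h4⟩ := wf_nl h
    rw [val]
    split
    · exact (ix h3 _).mono h1
    · exact (iy h4 _).mono h2
  | nr i a x y ix iy =>
    obtain ⟨h1, h2, h3, h4⟩ := wf_nl (h := i) h
    rw [val]
    split
    · exact (ix h3 _).mono h1
    · exact (iy h4 _).mono h2

lemma cls_in (σ : ℕ → Fo) {T : DT} (h : wf T = true) (l : List Pat) :
    In (cls T l) (val T (l.map (inst σ))) := by
  induction T generalizing l with
  | lf a => exact val_in h _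
  | nl i a x y ix iy =>
    obtain ⟨_, _, h3, h4⟩ := wf_nl h
    have h5 := val_in h (l.map (inst σ))
    have e : cls (.nl i a x y) l = @Pat.rec (fun _ => ℕ) (cls x (eraK l i)) (fun _ _ _ => a)
      (fun c r _ _ => cls y (c :: r :: eraK l i)) (nthK l i) := rfl
    rw [e]
    cases hn : nthK l i with
    | gap g r => exact h5
    | nil => rw [val, nthK_eq, hn, eraK_eq]; exact ix h3 _
    | cons c r => rw [val, nthK_eq, hn, eraK_eq]; exact iy h4 (c :: r :: eraK l i)
  | nr i a x y ix iy =>
    obtain ⟨_, _, h3, h4⟩ := wf_nl (h := i) h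
    have h5 := val_in h (l.map (inst σ))
    refine rr_spec σ (Ψ := fun z => In z (val (.nr i a x y) (l.map (inst σ)))) h5 _
      (fun e => ?_) fun c r e => ?_
    · rw [val, nthK_eq, e, eraK_eq]; exact ix h3 _
    · rw [val, nthK_eq, eraK_eq]
      split
      · rename_i e'; exact absurd (e ▸ e') (app_cons_ne _ _ _)
      · rename_i c' r' e'
        rw [← e', e, lst_snoc, ini_snoc]
        exact iy h4 (c :: r :: eraK l i)

end Pool.Agent.Lib.MP_8a1ce7_co.D
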