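import Pool.Agent.Lib.MP_8a1ce7_co.Up

set_option autoImplicit false

namespace Pool.Agent.Lib.MP_8a1ce7_co.D

def IsF (n : ℕ) (h : Equiv.Perm (Fin (n + 1))) : Prop :=
  ∀ i j : Fin n, i ≠ j → i.val % 2 = j.val % 2 →
    ¬ ∃ a b c d : Fin (n + 1), a < c ∧ c < b ∧ b < d ∧
      ({a, b} : Set (Fin (n + 1))) = {h i.castSucc, h i.succ} ∧
      ({c, d} : Set (Fin (n + 1))) = {h j.castSucc, h j.succ}

noncomputable def FF (n : ℕ) : ℕ := Nat.card {h : Equiv.Perm (Fin (n + 1)) // IsF n h}

def ext (n : ℕ) (h : Equiv.Perm (Fin (n + 1))) (i : ℕ) : ℕ :=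
  if hi : i < n + 1 then (h ⟨i, hi⟩).val else 0

lemma ext_val {n : ℕ} (h : Equiv.Perm (Fin (n + 1))) (i : Fin (n + 1)) :
    ext n h i.val = (h i).val := by
  simp [ext, i.isLt]

lemma ext_inv {n : ℕ} (h : Equiv.Perm (Fin (n + 1))) : Inv n (ext n h) (ext n h.symm) := by
  constructor <;> intro i hi
  · have e := ext_val h ⟨i, by omega⟩
    simp only at e
    rw [e, ext_val]
    exact ⟨Nat.lt_succ_iff.1 (Fin.isLt _), by simp⟩
  · have e := ext_val h.symm ⟨i, by omega⟩
    simp only at e
    rw [e, ext_val]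
    exact ⟨Nat.lt_succ_iff.1 (Fin.isLt _), by simp⟩

lemma pair_min_max {n : ℕ} (x y : Fin (n + 1)) :
    ({min x y, max x y} : Set (Fin (n + 1))) = {x, y} := by
  rcases le_total x y with h | h
  · rw [min_eq_left h, max_eq_right h]
  · rw [min_eq_right h, max_eq_left h, Set.pair_comm]

lemma isF_iff {n : ℕ} (h : Equiv.Perm (Fin (n + 1))) : IsF n h ↔ CreaseNC n (ext n h) := by
  have I := ext_inv h
  have v : ∀ i : Fin n, ext n h i.val = (h i.castSucc).val ∧ ext n h (i.val + 1) = (h i.succ).val :=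
    fun i => ⟨ext_val h i.castSucc, ext_val h i.succ⟩
  constructor
  · intro hf k m hk hm hne hp
    have key : ∀ i j : Fin n, i ≠ j → i.val % 2 = j.val % 2 →
        ¬(min (ext n h i) (ext n h (i + 1)) < min (ext n h j) (ext n h (j + 1)) ∧
          min (ext n h j) (ext n h (j + 1)) < max (ext n h i) (ext n h (i + 1)) ∧
          max (ext n h i) (ext n h (i + 1)) < max (ext n h j) (ext n h (j + 1))) := by
      rintro i j hij hp ⟨h1, h2, h3⟩
      rw [(v i).1, (v i).2, (v j).1, (v j).2] at h1 h2 h3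
      refine hf i j hij hp ⟨min (h i.castSucc) (h i.succ), max (h i.castSucc) (h i.succ),
        min (h j.castSucc) (h j.succ), max (h j.castSucc) (h j.succ), ?_, ?_, ?_,
        pair_min_max _ _, pair_min_max _ _⟩
      · rw [Fin.lt_def, Fin.coe_min, Fin.coe_min]; exact h1
      · rw [Fin.lt_def, Fin.coe_min, Fin.coe_max]; exact h2
      · rw [Fin.lt_def, Fin.coe_max, Fin.coe_max]; exact h3
    have a1 := key ⟨k, hk⟩ ⟨m, hm⟩ (fun e => hne (congrArg Fin.val e)) hp
    have a2 := key ⟨m, hm⟩ ⟨k, hk⟩ (fun e => hne (congrArg Fin.val e).symm) hp.symm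
    have d1 : ext n h k ≠ ext n h m := fun e => hne (I.injH hk.le hm.le e)
    have d2 : ext n h (k + 1) ≠ ext n h m := fun e => by have := I.injH hk hm.le e; omega
    have d3 : ext n h k ≠ ext n h (m + 1) := fun e => by have := I.injH hk.le hm e; omega
    have d4 : ext n h (k + 1) ≠ ext n h (m + 1) := fun e => by have := I.injH hk hm e; omega
    simp only at a1 a2
    unfold NC
    omega
  · rintro hc i j hij hp ⟨a, b, c, d, h1, h2, h3, e1, e2⟩
    have := hc i j i.isLt j.isLt (fun e => hij (Fin.ext e)) hp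
    rw [(v i).1, (v i).2, (v j).1, (v j).2] at this
    unfold NC at this
    rw [Fin.lt_def] at h1 h2 h3
    rcases Set.pair_eq_pair_iff.1 e1 with ⟨rfl, rfl⟩ | ⟨rfl, rfl⟩ <;>
      rcases Set.pair_eq_pair_iff.1 e2 with ⟨rfl, rfl⟩ | ⟨rfl, rfl⟩ <;> omega

def permOf {n : ℕ} {H G : ℕ → ℕ} (I : Inv n H G) : Equiv.Perm (Fin (n + 1)) where
  toFun i := ⟨H i, Nat.lt_succ_of_le (I.hH i (Nat.le_of_lt_succ i.isLt)).1⟩
  invFun i := ⟨G i, Nat.lt_succ_of_le (I.hG i (Nat.le_of_lt_succ i.isLt)).1⟩
  left_inv i := Fin.ext (I.hH i (Nat.le_of_lt_succ i.isLt)).2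
  right_inv i := Fin.ext (I.hG i (Nat.le_of_lt_succ i.isLt)).2

open LF

def fin (j : ℕ) : Finset LF := ((St j).filter fun T => shape T = Fo.dot).toFinset

lemma card_fin (j : ℕ) : (fin j).card = Fo.p j .nil := by
  rw [fin, List.toFinset_card_of_nodup ((St_nodup j).filter _), ← Nat.add_zero j, ← sum_St]
  simp only [Nat.add_zero]
  induction St j with
  | nil => rfl
  | cons T l ih =>
    rw [List.filter_cons, List.map_cons, List.sum_cons, ← ih, Fo.p]
    by_cases h : shape T = Fo.dot <;> simp [h, add_comm]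

lemma FF_eq (n : ℕ) [DecidablePred (IsF n)] : FF n = (Finset.univ.filter (IsF n)).card := by
  rw [FF, Nat.card_eq_fintype_card, Fintype.card_subtype]

theorem p_le_FF (n : ℕ) : Fo.p n Fo.dot ≤ FF n := by
  classical
  have e : Fo.p n Fo.dot = Fo.p (n + 1) .nil := by simp [Fo.p, Fo.succs]
  rw [e, ← card_fin, FF_eq]
  refine Finset.card_le_card_of_surjOn
    (fun h => LF.cons ((List.range (n + 1)).map (ext n h.symm)) .nil .nil) fun T hT => ?_
  simp only [fin, List.coe_toFinset, List.mem_filter, decide_eq_true_eq, Set.mem_ofPred_eq] at hT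
  obtain ⟨L, rfl⟩ := shape_dot hT.2
  obtain ⟨hl, I, hc⟩ := fold_of_St hT.1
  refine ⟨permOf I, ?_, ?_⟩
  · simp only [Finset.coe_filter, Finset.mem_univ, true_and, Set.mem_ofPred_eq]
    rw [isF_iff]
    intro k m hk hm hne hp
    have v : ∀ i, i ≤ n → ext n (permOf I) i = L.idxOf i := fun i hi =>
      ext_val (permOf I) ⟨i, by omega⟩
    rw [v k hk.le, v m hm.le, v (k + 1) hk, v (m + 1) hm]
    exact hc k m hk hm hne hp
  · simp only [LF.cons.injEq, and_true]
    refine List.ext_getElem (by simp [hl]) fun i h1 h2 => ?_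
    have : ext n (permOf I).symm i = L.getD i 0 := ext_val (permOf I).symm ⟨i, by omega⟩
    rw [List.getElem_map, List.getElem_range, this, List.getD_eq_getElem _ _ h2]

theorem FF_le_p {n : ℕ} : FF (n + 1) ≤ (n + 2) * Fo.p n Fo.dot := by
  classical
  have e : Fo.p n Fo.dot = Fo.p (n + 1) .nil := by simp [Fo.p, Fo.succs]
  rw [e, ← card_fin, FF_eq]
  generalize hN : n + 1 = N
  have hN1 : 1 ≤ N := by omega
  rw [show n + 2 = N + 1 by omega]
  let G : Equiv.Perm (Fin (N + 1)) → ℕ → ℕ := fun h t =>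
    if t + ext N h N ≤ N then ext N h.symm (t + ext N h N) else
      ext N h.symm (t + ext N h N - (N + 1))
  let H : Equiv.Perm (Fin (N + 1)) → ℕ → ℕ := fun h k =>
    if ext N h N ≤ ext N h k then ext N h k - ext N h N else ext N h k + (N + 1) - ext N h N
  have I : ∀ h, Inv N (H h) (G h) := by
    intro h
    have I := ext_inv h
    have r := (I.hH N le_rfl).1
    constructor <;> intro i hi
    · have := I.hH i hi
      simp only [G, H]
      split_ifs with h1 h2 h2
      · exact ⟨by omega, by rw [Nat.sub_add_cancel h1, this.2]⟩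
      · omega
      · omega
      · refine ⟨by omega, ?_⟩
        rw [show ext N h i + (N + 1) - ext N h N + ext N h N - (N + 1) = ext N h i by omega, this.2]
    · simp only [G, H]
      by_cases h1 : i + ext N h N ≤ N
      · have := I.hG _ h1
        simp only [if_pos h1, this.2]
        exact ⟨this.1, by split_ifs <;> omega⟩
      · have := I.hG (i + ext N h N - (N + 1)) (by omega)
        simp only [if_neg h1, this.2]
        exact ⟨this.1, by split_ifs <;> omega⟩
  have G0 : ∀ h, G h 0 = N ∧ G h (N + 1) = N := by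
    intro h
    have r := (ext_inv h).hH N le_rfl
    simp only [G]
    rw [if_pos (by omega), if_neg (by omega), Nat.zero_add,
      show N + 1 + ext N h N - (N + 1) = ext N h N by omega]
    exact ⟨r.2, r.2⟩
  have e2 : (N + 1) * (fin N).card = (Finset.range (N + 1) ×ˢ fin N).card := by
    rw [Finset.card_product, Finset.card_range]
  rw [e2]
  refine Finset.card_le_card_of_injOn
    (fun h => (ext N h N, LF.cons ((List.range' 1 N).map (G h)) .nil .nil)) (fun h hh => ?_)
    fun h _ h' _ e => ?_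
  · simp only [Finset.coe_filter, Finset.mem_univ, true_and, Set.mem_ofPred_eq] at hh
    have J := ext_inv h
    have r := (J.hH N le_rfl).1
    simp only [Finset.coe_product, Set.mem_prod, Finset.coe_range, Set.mem_Iio, fin,
      List.coe_toFinset, List.mem_filter, decide_eq_true_eq, Set.mem_ofPred_eq]
    refine ⟨by omega, St_of_fold (I h) (G0 h).1 (G0 h).2 (fun k m hk hm hne hp => ?_) hN1, rfl⟩
    have := (isF_iff h).1 hh k m hk hm hne hp
    have d1 : ext N h k ≠ ext N h m := fun e => hne (J.injH hk.le hm.le e)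
    have d2 : ext N h (k + 1) ≠ ext N h m := fun e => by have := J.injH hk hm.le e; omega
    have d3 : ext N h k ≠ ext N h (m + 1) := fun e => by have := J.injH hk.le hm e; omega
    have d4 : ext N h (k + 1) ≠ ext N h (m + 1) := fun e => by have := J.injH hk hm e; omega
    have b1 := (J.hH k hk.le).1
    have b2 := (J.hH m hm.le).1
    have b3 := (J.hH (k + 1) hk).1
    have b4 := (J.hH (m + 1) hm).1
    unfold NC at this ⊢
    simp only [H]
    split_ifs <;> omega
  · simp only [Prod.mk.injEq, LF.cons.injEq, and_true] at e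
    have eG : ∀ t, t ≤ N → G h t = G h' t := by
      intro t ht
      rcases Nat.eq_zero_or_pos t with rfl | h0
      · rw [(G0 h).1, (G0 h').1]
      · exact List.map_inj_left.1 e.2 t (List.mem_range'_1.2 ⟨h0, by omega⟩)
    ext i
    have hi : i.val ≤ N := Nat.le_of_lt_succ i.isLt
    have a := (I h).hH i hi
    have b := ((I h').hG _ a.1).2
    rw [← eG _ a.1, a.2] at b
    have r1 := ((ext_inv h).hH i hi).1
    have r2 := ((ext_inv h').hH i hi).1
    have r3 := ((ext_inv h).hH N le_rfl).1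
    rw [← ext_val, ← ext_val]
    simp only [H, ← e.1] at b
    split_ifs at b <;> omega

end Pool.Agent.Lib.MP_8a1ce7_co.D
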