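import Mathlib

set_option autoImplicit false

namespace Pool.Agent.Lib.MP_8a1ce7_co.D

open Finset

/-- the chords `{a,b}` and `{c,d}` (four distinct points) do not cross -/
def NC {α : Type} [LT α] (a b c d : α) : Prop := (a < c ↔ b < c) ↔ (a < d ↔ b < d)

/-- position of the top face of segment `k` on the boundary of the strip -/
def tp (k : ℕ) : ℤ := if k % 2 = 0 then -(k : ℤ) - 1 else k
/-- position of the bottom face of segment `k` -/
def bt (k : ℕ) : ℤ := if k % 2 = 0 then k else -(k : ℤ) - 1

def ι (P : Prop) [Decidable P] : ZMod 2 := if P then 1 else 0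

lemma ι_iff {P Q R S : Prop} [Decidable P] [Decidable Q] [Decidable R] [Decidable S] :
    ι P + ι Q = ι R + ι S ↔ ((P ↔ Q) ↔ (R ↔ S)) := by
  unfold ι
  by_cases P <;> by_cases Q <;> by_cases R <;> by_cases S <;> simp [*] <;> decide

lemma ι3 {P Q R : Prop} [Decidable P] [Decidable Q] [Decidable R] :
    ι P + ι Q = ι R ↔ ((P ↔ Q) ↔ ¬R) := by
  unfold ι
  by_cases P <;> by_cases Q <;> by_cases R <;> simp [*]
  decide

lemma ι_false {P : Prop} [Decidable P] (h : ¬P) : ι P = 0 := if_neg h

lemma two (a : ZMod 2) : a + a = 0 := CharTwo.add_self_eq_zero a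

lemma tele (u : ℕ → ZMod 2) {a b : ℕ} (h : a ≤ b) :
    ∑ y ∈ Ico a b, (u y + u (y + 1)) = u a + u b := by
  induction b, h using Nat.le_induction with
  | base => simp [two]
  | succ b h ih =>
    rw [sum_Ico_succ_top h, ih]
    linear_combination two (u b)

structure Inv (n : ℕ) (H G : ℕ → ℕ) : Prop where
  hH : ∀ i, i ≤ n → H i ≤ n ∧ G (H i) = i
  hG : ∀ t, t ≤ n → G t ≤ n ∧ H (G t) = t

def CreaseNC (n : ℕ) (H : ℕ → ℕ) : Prop :=
  ∀ k m, k < n → m < n → k ≠ m → k % 2 = m % 2 → NC (H m) (H (m + 1)) (H k) (H (k + 1))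

variable {n : ℕ} {H G : ℕ → ℕ}

lemma Inv.injH (I : Inv n H G) {i j : ℕ} (hi : i ≤ n) (hj : j ≤ n) (h : H i = H j) : i = j := by
  rw [← (I.hH i hi).2, h, (I.hH j hj).2]

lemma Inv.injG (I : Inv n H G) {i j : ℕ} (hi : i ≤ n) (hj : j ≤ n) (h : G i = G j) : i = j := by
  rw [← (I.hG i hi).2, h, (I.hG j hj).2]

/-- non crossing adjacency arcs give non crossing creases -/
theorem creases_of_arcs (I : Inv n H G)
    (hA : ∀ y y', y < n → y' < n → y ≠ y' →
      NC (tp (G y')) (bt (G (y' + 1))) (tp (G y)) (bt (G (y + 1)))) : CreaseNC n H := by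
  intro k m hk hm hkm hp
  obtain ⟨lo, hi, hlh, hhi, hor⟩ : ∃ lo hi, lo ≤ hi ∧ hi ≤ n ∧
      ((lo = H m ∧ hi = H (m + 1)) ∨ (lo = H (m + 1) ∧ hi = H m)) := by
    have a := (I.hH m hm.le).1
    have b := (I.hH (m + 1) hm).1
    rcases le_total (H m) (H (m + 1)) with h | h
    · exact ⟨_, _, h, b, Or.inl ⟨rfl, rfl⟩⟩
    · exact ⟨_, _, h, a, Or.inr ⟨rfl, rfl⟩⟩
  have g1 := (I.hH m hm.le).2
  have g2 := (I.hH (m + 1) hm).2
  let W : ℤ → ZMod 2 := fun z => ∑ y ∈ Ico lo hi, (ι (tp (G y) < z) + ι (bt (G (y + 1)) < z))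
  have B1 : ∀ e : ℕ, W (-e) + W e = ι (e = m + 1) := by
    intro e
    have h1 : W (-e) + W e = ∑ y ∈ Ico lo hi, (ι (G y < e) + ι (G (y + 1) < e)) := by
      rw [← sum_add_distrib]
      refine sum_congr rfl fun y _ => ?_
      have a : ι (tp (G y) < -e) + ι (tp (G y) < e) = ι (G y < e) := by
        rw [ι3]; unfold tp; split_ifs <;> omega
      have b : ι (bt (G (y + 1)) < -e) + ι (bt (G (y + 1)) < e) = ι (G (y + 1) < e) := by
        rw [ι3]; unfold bt; split_ifs <;> omega
      linear_combination a + b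
    rw [h1, tele (fun y => ι (G y < e)) hlh, ι3]
    rcases hor with ⟨rfl, rfl⟩ | ⟨rfl, rfl⟩ <;> rw [g1, g2] <;> omega
  -- the corner on the side of the crease `m` next to a face
  let c : ℤ → ℤ := fun f => if f % 2 = (m + 1) % 2 then f else f + 1
  have B2 : ∀ y, y < n → W (c (tp (G y))) = W (c (bt (G (y + 1)))) := by
    intro y hy
    refine sum_congr rfl fun y' hy' => ?_
    have hy'n : y' < n := by have := (mem_Ico.1 hy').2; omega
    rw [ι_iff]
    by_cases e : y = y'
    · subst e
      simp only [c]; unfold tp bt; split_ifs <;> omega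
    · have h1 := hA y y' hy hy'n e
      have d1 : G y ≠ G y' := fun h => e (I.injG hy.le hy'n.le h)
      have d2 : G (y + 1) ≠ G (y' + 1) := fun h => e (by have := I.injG hy hy'n h; omega)
      have p1 : ∀ x, tp x % 2 = 1 := fun x => by unfold tp; split_ifs <;> omega
      have p2 : ∀ x, bt x % 2 = 0 := fun x => by unfold bt; split_ifs <;> omega
      have q1 : tp (G y) ≠ tp (G y') := by unfold tp; split_ifs <;> omega
      have q2 : bt (G (y + 1)) ≠ bt (G (y' + 1)) := by unfold bt; split_ifs <;> omega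
      have := p1 (G y); have := p1 (G y'); have := p2 (G (y + 1)); have := p2 (G (y' + 1))
      unfold NC at h1
      simp only [c]; split_ifs <;> omega
  have B3 : ∀ x, W (c (tp x)) + W (c (bt x)) = ι (x = m ∨ x = m + 1) := by
    intro x
    by_cases hx : x % 2 = (m + 1) % 2
    · have := B1 x
      have e : ι (x = m + 1) = ι (x = m ∨ x = m + 1) := by unfold ι; congr 1; apply propext; omega
      rw [← e, ← this]
      by_cases h2 : x % 2 = 0
      · have a : c (tp x) = -x := by simp only [c]; unfold tp; split_ifs <;> omega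
        have b : c (bt x) = x := by simp only [c]; unfold bt; split_ifs <;> omega
        rw [a, b]
      · have a : c (tp x) = x := by simp only [c]; unfold tp; split_ifs <;> omega
        have b : c (bt x) = -x := by simp only [c]; unfold bt; split_ifs <;> omega
        rw [a, b, add_comm]
    · have := B1 (x + 1)
      have e : ι (x + 1 = m + 1) = ι (x = m ∨ x = m + 1) := by
        unfold ι; congr 1; apply propext; omega
      rw [← e, ← this]
      by_cases h2 : x % 2 = 0
      · have a : c (tp x) = -((x + 1 : ℕ) : ℤ) := by simp only [c]; unfold tp; split_ifs <;> omega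
        have b : c (bt x) = ((x + 1 : ℕ) : ℤ) := by simp only [c]; unfold bt; split_ifs <;> omega
        rw [a, b]
      · have a : c (tp x) = ((x + 1 : ℕ) : ℤ) := by simp only [c]; unfold tp; split_ifs <;> omega
        have b : c (bt x) = -((x + 1 : ℕ) : ℤ) := by simp only [c]; unfold bt; split_ifs <;> omega
        rw [a, b, add_comm]
  have B4 : ∀ y, y ≤ n → W (c (bt (G y))) =
      W (c (bt (G 0))) + (ι (H m < y) + ι (H (m + 1) < y)) := by
    intro y
    induction y with
    | zero => intro _; rw [ι_false (Nat.not_lt_zero _), ι_false (Nat.not_lt_zero _)]; simp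
    | succ y ih =>
      intro hy
      have h1 := ih (by omega)
      have h2 := B2 y hy
      have h3 := B3 (G y)
      have h4 : (G y = m ∨ G y = m + 1) ↔ (y = H m ∨ y = H (m + 1)) := by
        have := (I.hG y (by omega)).2
        constructor
        · rintro (h | h) <;> rw [h] at this <;> omega
        · rintro (h | h) <;> rw [h]
          · exact Or.inl g1
          · exact Or.inr g2
      have hne : H m ≠ H (m + 1) := fun h => by have := I.injH hm.le hm h; omega
      have h5 : ι (G y = m ∨ G y = m + 1) + (ι (H m < y) + ι (H (m + 1) < y)) =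
          ι (H m < y + 1) + ι (H (m + 1) < y + 1) := by
        unfold ι; rw [if_congr h4 rfl rfl]
        split_ifs <;> first | decide | omega
      linear_combination -h2 + h3 + h5 + h1 - two (W (c (bt (G y)))) + two (ι (H m < y))
        + two (ι (H (m + 1) < y)) - two (ι (H m < y)) - two (ι (H (m + 1) < y))
        + two (W (c (bt (G 0)))) - two (W (c (bt (G 0))))
  have a1 := B4 (H k) (I.hH k hk.le).1
  have a2 := B4 (H (k + 1)) (I.hH (k + 1) hk).1
  rw [(I.hH k hk.le).2] at a1
  rw [(I.hH (k + 1) hk).2] at a2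
  have a3 := B1 (k + 1)
  rw [ι_false (by omega)] at a3
  have a4 : W (c (bt k)) = W (c (bt (k + 1))) := by
    by_cases h2 : k % 2 = 0
    · have a : c (bt k) = ((k + 1 : ℕ) : ℤ) := by simp only [c]; unfold bt; split_ifs <;> omega
      have b : c (bt (k + 1)) = -((k + 1 : ℕ) : ℤ) := by
        simp only [c]; unfold bt; split_ifs <;> omega
      rw [a, b]; linear_combination a3 - two (W (-((k + 1 : ℕ) : ℤ)))
    · have a : c (bt k) = -((k + 1 : ℕ) : ℤ) := by simp only [c]; unfold bt; split_ifs <;> omega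
      have b : c (bt (k + 1)) = ((k + 1 : ℕ) : ℤ) := by
        simp only [c]; unfold bt; split_ifs <;> omega
      rw [a, b]; linear_combination a3 - two (W ((k + 1 : ℕ) : ℤ))
  unfold NC
  rw [← ι_iff]
  linear_combination a2 - a1 + a4

def seg (p : ℤ) : ℕ := if 0 ≤ p then p.toNat else (-p - 1).toNat

lemma seg_tp (k : ℕ) : seg (tp k) = k := by unfold seg tp; split_ifs <;> omega
lemma seg_bt (k : ℕ) : seg (bt k) = k := by unfold seg bt; split_ifs <;> omega
lemma tp_odd (k : ℕ) : tp k % 2 = 1 := by unfold tp; split_ifs <;> omega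
lemma bt_even (k : ℕ) : bt k % 2 = 0 := by unfold bt; split_ifs <;> omega

/-- non crossing creases give non crossing adjacency arcs -/
theorem arcs_of_creases (I : Inv n H G) (hw : G (n + 1) = G 0) (hC : CreaseNC n H)
    {y y' : ℕ} (hy : y < n) (hy' : y' ≤ n) (hne : y ≠ y') :
    NC (tp (G y)) (bt (G (y + 1))) (tp (G y')) (bt (G (y' + 1))) := by
  have g1 := I.hG y hy.le
  have g2 := I.hG (y + 1) hy
  obtain ⟨i, j, hij, hj, hor⟩ : ∃ i j, i ≤ j ∧ j ≤ n ∧
      ((H i = y ∧ H j = y + 1) ∨ (H i = y + 1 ∧ H j = y)) := by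
    rcases le_total (G y) (G (y + 1)) with h | h
    · exact ⟨_, _, h, g2.1, Or.inl ⟨g1.2, g2.2⟩⟩
    · exact ⟨_, _, h, g1.1, Or.inr ⟨g2.2, g1.2⟩⟩
  let W : ℤ → ℕ → ZMod 2 := fun e t => ∑ k ∈ Ico i j,
    if ((k : ℤ) + 1) % 2 = e % 2 then ι (H k < t) + ι (H (k + 1) < t) else 0
  have A0 : ∀ e e' t, e % 2 = e' % 2 → W e t = W e' t := fun e e' t h => by simp only [W, h]
  have A1 : ∀ e t, W e t + W (e + 1) t = ι (t = y + 1) := by
    intro e t
    have h1 : W e t + W (e + 1) t = ∑ k ∈ Ico i j, (ι (H k < t) + ι (H (k + 1) < t)) := by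
      rw [← sum_add_distrib]
      refine sum_congr rfl fun k _ => ?_
      split_ifs <;> first | omega | simp
    rw [h1, tele (fun k => ι (H k < t)) hij, ι3]
    omega
  let τ : ℤ → ℕ := fun p => if p % 2 = 1 then H (seg p) + 1 else H (seg p)
  have key : ∀ (e : ℤ) (a : ℕ), a < n → ((a : ℤ) + 1) % 2 = e % 2 →
      W e (H a + 1) = W e (H (a + 1)) ∧ W e (H a) = W e (H (a + 1) + 1) := by
    intro e a ha he
    have d0 : H a ≠ H (a + 1) := fun h => by have := I.injH ha.le ha h; omega
    constructor <;> refine sum_congr rfl fun k hk => ?_ <;> split_ifs with h1 <;>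
      first | rfl | skip
    all_goals
      have hkn : k < n := by have := (mem_Ico.1 hk).2; omega
      rw [ι_iff]
      by_cases e1 : k = a
      · subst e1; omega
      · have h2 := hC a k ha hkn (Ne.symm e1) (by omega)
        have d1 : H k ≠ H a := fun h => e1 (I.injH hkn.le ha.le h)
        have d2 : H (k + 1) ≠ H a := fun h => by have := I.injH hkn ha.le h; omega
        have d3 : H k ≠ H (a + 1) := fun h => by have := I.injH hkn.le ha h; omega
        have d4 : H (k + 1) ≠ H (a + 1) := fun h => by have := I.injH hkn ha h; omega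
        unfold NC at h2
        omega
  have A2 : ∀ p : ℤ, -(n : ℤ) - 1 ≤ p → p < n → W (p + 1) (τ p) = W (p + 1) (τ (p + 1)) := by
    intro p h1 h2
    rcases lt_trichotomy p (-1) with h | h | h
    · obtain ⟨a, rfl⟩ : ∃ a : ℕ, p = -(a : ℤ) - 2 := ⟨(-p - 2).toNat, by omega⟩
      have s1 : seg (-(a : ℤ) - 2) = a + 1 := by unfold seg; split_ifs <;> omega
      have s2 : seg (-(a : ℤ) - 2 + 1) = a := by unfold seg; split_ifs <;> omega
      have := key (-(a : ℤ) - 2 + 1) a (by omega) (by omega)
      simp only [τ, s1, s2]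
      split_ifs <;> first | omega | exact this.1.symm | exact this.2.symm
    · subst h
      have s1 : seg (-1) = 0 := by decide
      have s2 : seg (-1 + 1) = 0 := by decide
      simp only [τ, s1, s2]
      rw [if_pos (by decide), if_neg (by decide)]
      refine sum_congr rfl fun k hk => ?_
      split_ifs with h3
      · have hkn : k < n := by have := (mem_Ico.1 hk).2; omega
        have d1 : H k ≠ H 0 := fun h => by have := I.injH hkn.le (Nat.zero_le _) h; omega
        have d2 : H (k + 1) ≠ H 0 := fun h => by have := I.injH hkn (Nat.zero_le _) h; omega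
        rw [ι_iff]; omega
      · rfl
    · obtain ⟨a, rfl⟩ : ∃ a : ℕ, p = a := ⟨p.toNat, by omega⟩
      have s1 : seg (a : ℤ) = a := by unfold seg; split_ifs <;> omega
      have s2 : seg ((a : ℤ) + 1) = a + 1 := by unfold seg; split_ifs <;> omega
      have := key ((a : ℤ) + 1) a (by omega) rfl
      simp only [τ, s1, s2]
      split_ifs <;> first | omega | exact this.1 | exact this.2
  have A3 : ∀ p : ℤ, -(n : ℤ) - 1 ≤ p → p ≤ n →
      (τ p = y + 1 ↔ (p = tp (G y) ∨ p = bt (G (y + 1)))) := by
    intro p h1 h2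
    have hs : seg p ≤ n := by unfold seg; split_ifs <;> omega
    have h3 := (I.hH _ hs).2
    constructor
    · intro h
      simp only [τ] at h
      split_ifs at h with h4
      · left
        rw [show H (seg p) = y by omega] at h3
        rw [h3]; unfold seg tp; split_ifs <;> omega
      · right
        rw [h] at h3
        rw [h3]; unfold seg bt; split_ifs <;> omega
    · rintro (h | h) <;> subst h <;> simp only [τ]
      · rw [if_pos (tp_odd _), seg_tp, g1.2]
      · rw [if_neg (by rw [bt_even]; decide), seg_bt, g2.2]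
  have A4 : ∀ p : ℤ, -(n : ℤ) - 1 ≤ p → p ≤ n → W p (τ p) =
      W (-(n : ℤ) - 1) (τ (-(n : ℤ) - 1)) + (ι (tp (G y) < p) + ι (bt (G (y + 1)) < p)) := by
    intro p hp
    induction p, hp using Int.leInduction with
    | base =>
      intro _
      rw [ι_false (P := tp _ < _) (by unfold tp; split_ifs <;> omega),
        ι_false (P := bt _ < _) (by unfold bt; split_ifs <;> omega)]
      simp
    | succ p hp ih =>
      intro h2
      have h3 := ih (by omega)
      have h4 := A2 p hp (by omega)
      have h5 := A1 p (τ p)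
      have h6 := A3 p hp (by omega)
      have p1 := tp_odd (G y)
      have p2 := bt_even (G (y + 1))
      have h7 : ι (τ p = y + 1) + (ι (tp (G y) < p) + ι (bt (G (y + 1)) < p)) =
          ι (tp (G y) < p + 1) + ι (bt (G (y + 1)) < p + 1) := by
        unfold ι; rw [if_congr h6 rfl rfl]
        split_ifs <;> first | decide | omega
      linear_combination -h4 + h5 + h7 + h3 - two (W p (τ p))
  have g3 := I.hG y' hy'
  have g4 : G (y' + 1) ≤ n := by
    rcases eq_or_lt_of_le hy' with h | h
    · rw [h, hw]; exact (I.hG 0 (Nat.zero_le _)).1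
    · exact (I.hG (y' + 1) h).1
  have a1 := A4 (tp (G y')) (by unfold tp; split_ifs <;> omega) (by unfold tp; split_ifs <;> omega)
  have a2 := A4 (bt (G (y' + 1))) (by unfold bt; split_ifs <;> omega)
    (by unfold bt; split_ifs <;> omega)
  have t1 : τ (tp (G y')) = y' + 1 := by
    simp only [τ]; rw [if_pos (tp_odd _), seg_tp, g3.2]
  have a3 : W (tp (G y')) (τ (tp (G y'))) = W (bt (G (y' + 1))) (τ (bt (G (y' + 1)))) := by
    rcases eq_or_lt_of_le hy' with h | h
    · have t2 : τ (bt (G (y' + 1))) = 0 := by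
        simp only [τ]
        rw [if_neg (by rw [bt_even]; decide), seg_bt, h, hw, (I.hG 0 (Nat.zero_le _)).2]
      rw [t1, t2]
      have z1 : ∀ e, W e 0 = 0 := fun e => sum_eq_zero fun k _ => by
        rw [ι_false (Nat.not_lt_zero _), ι_false (Nat.not_lt_zero _)]; simp
      have z2 : ∀ e, W e (y' + 1) = 0 := fun e => sum_eq_zero fun k hk => by
        have hkn : k < n := by have := (mem_Ico.1 hk).2; omega
        have b1 := (I.hH k hkn.le).1
        have b2 := (I.hH (k + 1) hkn).1
        unfold ι
        rw [if_pos (show H k < y' + 1 by omega), if_pos (show H (k + 1) < y' + 1 by omega), two]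
        simp
      rw [z1, z2]
    · have t2 : τ (bt (G (y' + 1))) = y' + 1 := by
        simp only [τ]
        rw [if_neg (by rw [bt_even]; decide), seg_bt, (I.hG (y' + 1) h).2]
      rw [t1, t2]
      have b1 := A1 (tp (G y')) (y' + 1)
      rw [ι_false (by omega), A0 (tp (G y') + 1) (bt (G (y' + 1))) _
        (by have := tp_odd (G y'); have := bt_even (G (y' + 1)); omega)] at b1
      linear_combination b1 - two (W (bt (G (y' + 1))) (y' + 1))
  unfold NC
  rw [← ι_iff]
  linear_combination a2 - a1 + a3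

end Pool.Agent.Lib.MP_8a1ce7_co.D
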