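import Pool.Agent.Lib.MP_8a1ce7_co.PrtHj0
import Pool.Agent.Lib.MP_8a1ce7_co.PrtHj1
import Pool.Agent.Lib.MP_8a1ce7_co.PrtHj2
import Pool.Agent.Lib.MP_8a1ce7_co.PrtHj3

set_option autoImplicit false
set_option maxRecDepth 100000

namespace Pool.Agent.Lib.MP_8a1ce7_co.D

theorem covHj1 : Cov (fun a _ _ => GoodU tRHj tPHj 1048576 ((35349 : ℕ) / (10000 : ℕ)) (.cons a .nil))
    g0 .nil .nil 1 :=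
  (splitL 0 (sHj1 cHj0)
  (splitR 0 (splitL 1 (sHj1 cHj1)
  (splitR 1 (sHj1 cHj2)
  (splitL 2 (sHj1 cHj3)
  (splitR 3 (sHj1 cHj4)
  (sHj1 cHj5)))))
  (splitL 1 (splitR 2 (sHj1 cHj6)
  (splitL 0 (sHj1 cHj7)
  (splitR 3 (sHj1 cHj8)
  (sHj1 cHj9))))
  (splitR 2 (splitL 3 (sHj1 cHj10)
  (splitR 0 (sHj1 cHj11)
  (sHj1 cHj12)))
  (splitL 3 (splitR 4 (sHj1 cHj13)
  (sHj1 cHj14))
  (splitR 4 (sHj1 cHj15)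
  (sHj1 cHj16)))))))

theorem covHj2 : Cov (fun a m b => GoodU tRHj tPHj 1048576 ((35349 : ℕ) / (10000 : ℕ))
    (.cons a (Fo.app m (.cons b .nil)))) g0 g1 g2 3 :=
  (splitL 0 (splitR 2 (splitL 1 (sHj2 cHj17)
  (splitR 1 (sHj2 cHj18)
  (splitL 3 (sHj2 cHj19)
  (sHj2 cHj20))))
  (splitL 1 (splitR 3 (sHj2 cHj21)
  (splitL 2 (sHj2 cHj22)
  (splitR 4 (sHj2 cHj23)
  (sHj2 cHj24))))
  (splitR 3 (splitL 4 (sHj2 cHj25)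
  (splitR 2 (sHj2 cHj26)
  (splitL 5 (sHj2 cHj27)
  (sHj2 cHj28))))
  (splitL 4 (splitR 5 (sHj2 cHj29)
  (splitL 1 (sHj2 cHj30)
  (sHj2 cHj31)))
  (splitR 5 (splitL 6 (sHj2 cHj32)
  (sHj2 cHj33))
  (splitL 6 (splitR 7 (sHj2 cHj34)
  (sHj2 cHj35))
  (splitL 2 (sHj2 cHj36)
  (sHj2 cHj37))))))))
  (splitR 2 (splitL 3 (splitR 1 (sHj2 cHj38)
  (splitL 0 (sHj2 cHj39)
  (splitR 4 (sHj2 cHj40)
  (splitL 5 (sHj2 cHj41)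
  (splitR 6 (sHj2 cHj42)
  (sHj2 cHj43))))))
  (splitR 1 (splitL 4 (sHj2 cHj44)
  (splitR 0 (sHj2 cHj45)
  (sHj2 cHj46)))
  (splitL 4 (splitR 5 (sHj2 cHj47)
  (splitL 3 (sHj2 cHj48)
  (splitR 6 (sHj2 cHj49)
  (sHj2 cHj50))))
  (splitR 5 (splitL 6 (sHj2 cHj51)
  (sHj2 cHj52))
  (splitL 6 (splitR 7 (sHj2 cHj53)
  (sHj2 cHj54))
  (splitR 7 (sHj2 cHj55)
  (sHj2 cHj56)))))))
  (splitL 3 (splitR 4 (splitL 0 (sHj2 cHj57)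
  (splitR 2 (sHj2 cHj58)
  (splitL 5 (sHj2 cHj59)
  (splitR 6 (sHj2 cHj60)
  (sHj2 cHj61)))))
  (splitL 0 (splitR 5 (sHj2 cHj62)
  (splitL 1 (sHj2 cHj63)
  (splitR 6 (sHj2 cHj64)
  (sHj2 cHj65))))
  (splitR 5 (splitL 6 (sHj2 cHj66)
  (splitR 4 (sHj2 cHj67)
  (splitL 2 (sHj2 cHj68)
  (sHj2 cHj69))))
  (splitL 6 (splitR 7 (sHj2 cHj70)
  (sHj2 cHj71))
  (splitL 2 (splitR 7 (sHj2 cHj72)
  (sHj2 cHj73))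
  (splitR 7 (sHj2 cHj74)
  (sHj2 cHj75)))))))
  (splitR 4 (splitL 5 (splitR 2 (sHj2 cHj76)
  (splitL 3 (sHj2 cHj77)
  (splitR 6 (sHj2 cHj78)
  (sHj2 cHj79))))
  (splitR 2 (splitL 6 (sHj2 cHj80)
  (sHj2 cHj81))
  (splitL 6 (splitR 7 (sHj2 cHj82)
  (sHj2 cHj83))
  (splitR 7 (sHj2 cHj84)
  (sHj2 cHj85)))))
  (splitL 5 (splitR 6 (splitL 3 (splitR 4 (sHj2 cHj86)
  (sHj2 cHj87))
  (splitR 4 (sHj2 cHj88)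
  (splitL 2 (sHj2 cHj89)
  (sHj2 cHj90))))
  (splitL 3 (splitR 7 (sHj2 cHj91)
  (sHj2 cHj92))
  (splitL 2 (splitR 7 (sHj2 cHj93)
  (sHj2 cHj94))
  (sHj2 cHj95))))
  (splitR 6 (splitL 7 (splitR 4 (sHj2 cHj96)
  (splitL 2 (sHj2 cHj97)
  (sHj2 cHj98)))
  (splitR 4 (sHj2 cHj99)
  (splitL 2 (sHj2 cHj100)
  (sHj2 cHj101))))
  (splitL 2 (splitL 7 (splitR 8 (sHj2 cHj102)
  (sHj2 cHj103))
  (splitR 8 (sHj2 cHj104)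
  (sHj2 cHj105)))
  (splitL 7 (sHj2 cHj106)
  (sHj2 cHj107)))))))))

end Pool.Agent.Lib.MP_8a1ce7_co.D
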