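import Pool.Agent.Lib.MP_8a1ce7_co.PrtLo0
import Pool.Agent.Lib.MP_8a1ce7_co.PrtLo1
import Pool.Agent.Lib.MP_8a1ce7_co.PrtLo2
import Pool.Agent.Lib.MP_8a1ce7_co.PrtLo3

set_option autoImplicit false
set_option maxRecDepth 100000

namespace Pool.Agent.Lib.MP_8a1ce7_co.D

theorem covLo1 : Cov (fun a _ _ => GoodL tRLo tPLo 1048576 ((34601 : ℕ) / (10000 : ℕ)) (.cons a .nil))
    g0 .nil .nil 1 :=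
  (splitL 0 (sLo1 cLo0)
  (splitR 0 (sLo1 cLo1)
  (splitL 1 (sLo1 cLo2)
  (sLo1 cLo3))))

theorem covLo2 : Cov (fun a m b => GoodL tRLo tPLo 1048576 ((34601 : ℕ) / (10000 : ℕ))
    (.cons a (Fo.app m (.cons b .nil)))) g0 g1 g2 3 :=
  (splitL 0 (splitR 2 (sLo2 cLo4)
  (splitL 1 (sLo2 cLo5)
  (splitR 3 (sLo2 cLo6)
  (splitL 1 (splitL 4 (sLo2 cLo7)
  (splitL 6 (sLo2 cLo8)
  (sLo2 cLo9)))
  (splitR 3 (sLo2 cLo10)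
  (splitL 4 (sLo2 cLo11)
  (sLo2 cLo12)))))))
  (splitR 2 (splitL 3 (splitR 1 (sLo2 cLo13)
  (splitR 4 (sLo2 cLo14)
  (sLo2 cLo15)))
  (splitR 1 (sLo2 cLo16)
  (splitR 5 (sLo2 cLo17)
  (splitR 6 (sLo2 cLo18)
  (splitL 1 (sLo2 cLo19)
  (sLo2 cLo20))))))
  (splitL 3 (splitR 4 (splitL 1 (sLo2 cLo21)
  (splitL 5 (splitL 0 (sLo2 cLo22)
  (sLo2 cLo23))
  (splitR 1 (sLo2 cLo24)
  (splitL 0 (sLo2 cLo25)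
  (splitR 2 (sLo2 cLo26)
  (splitL 2 (sLo2 cLo27)
  (sLo2 cLo28)))))))
  (splitL 1 (splitL 0 (sLo2 cLo29)
  (splitR 5 (sLo2 cLo30)
  (splitL 6 (sLo2 cLo31)
  (sLo2 cLo32))))
  (splitR 2 (splitL 6 (sLo2 cLo33)
  (sLo2 cLo34))
  (splitL 0 (sLo2 cLo35)
  (splitL 6 (splitR 5 (sLo2 cLo36)
  (splitL 2 (sLo2 cLo37)
  (sLo2 cLo38)))
  (splitL 1 (splitR 4 (sLo2 cLo39)
  (sLo2 cLo40))
  (splitR 5 (sLo2 cLo41)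
  (sLo2 cLo42))))))))
  (splitR 4 (splitR 2 (splitR 1 (sLo2 cLo43)
  (sLo2 cLo44))
  (splitR 1 (splitR 6 (sLo2 cLo45)
  (splitL 5 (sLo2 cLo46)
  (sLo2 cLo47)))
  (splitL 5 (splitL 1 (sLo2 cLo48)
  (sLo2 cLo49))
  (splitL 1 (splitL 0 (sLo2 cLo50)
  (splitL 2 (sLo2 cLo51)
  (splitR 6 (sLo2 cLo52)
  (sLo2 cLo53))))
  (sLo2 cLo54)))))
  (splitL 1 (splitR 2 (splitL 5 (sLo2 cLo55)
  (sLo2 cLo56))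
  (splitL 5 (splitR 6 (sLo2 cLo57)
  (sLo2 cLo58))
  (splitR 6 (sLo2 cLo59)
  (sLo2 cLo60))))
  (splitR 1 (splitL 0 (splitR 2 (splitR 4 (sLo2 cLo61)
  (sLo2 cLo62))
  (splitL 5 (sLo2 cLo63)
  (splitR 4 (sLo2 cLo64)
  (sLo2 cLo65))))
  (splitR 2 (sLo2 cLo66)
  (splitL 5 (sLo2 cLo67)
  (splitR 4 (sLo2 cLo68)
  (splitR 6 (sLo2 cLo69)
  (splitL 2 (sLo2 cLo70)
  (sLo2 cLo71)))))))
  (splitR 2 (splitR 4 (sLo2 cLo72)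
  (splitL 5 (sLo2 cLo73)
  (sLo2 cLo74)))
  (splitR 4 (splitL 5 (splitR 6 (sLo2 cLo75)
  (sLo2 cLo76))
  (splitR 6 (sLo2 cLo77)
  (splitL 0 (sLo2 cLo78)
  (sLo2 cLo79))))
  (splitL 5 (sLo2 cLo80)
  (splitR 6 (sLo2 cLo81)
  (splitL 0 (splitL 2 (sLo2 cLo82)
  (sLo2 cLo83))
  (splitL 2 (sLo2 cLo84)
  (sLo2 cLo85)))))))))))))

end Pool.Agent.Lib.MP_8a1ce7_co.D
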