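import Pool.Agent.Lib.MP_8a1ce7_co.Dual

set_option autoImplicit false

namespace Pool.Agent.Lib.MP_8a1ce7_co.D

/-- plane forests -/
inductive Fo
  | nil
  | cons (ch rest : Fo)
  deriving DecidableEq

namespace Fo

def app : Fo → Fo → Fo
  | nil, y => y
  | cons c r, y => cons c (app r y)

def size : Fo → ℕ
  | nil => 0
  | cons c r => size c + size r + 1

def ini : Fo → Fo
  | nil => nil
  | cons _ nil => nil
  | cons c (cons d r) => cons c (ini (cons d r))

def lst : Fo → Fo
  | nil => nil
  | cons c nil => c
  | cons _ (cons d r) => lst (cons d r)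

def dot : Fo := cons nil nil

@[simp] lemma app_nil (x : Fo) : app x nil = x := by
  induction x with
  | nil => rfl
  | cons c r _ ih => simp [app, ih]

lemma app_assoc (x y z : Fo) : app (app x y) z = app x (app y z) := by
  induction x with
  | nil => rfl
  | cons c r _ ih => simp [app, ih]

lemma size_app (x y : Fo) : size (app x y) = size x + size y := by
  induction x with
  | nil => simp [app, size]
  | cons c r _ ih => simp only [app, size, ih]; omega

lemma app_cons_ne (m b r : Fo) : app m (cons b r) ≠ nil := by cases m <;> simp [app]

lemma ini_snoc (m b : Fo) : ini (app m (cons b nil)) = m := by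
  induction m with
  | nil => rfl
  | cons c r _ ih =>
    cases r with
    | nil => rfl
    | cons d r => simp only [app, ini] at ih ⊢; rw [ih]

lemma lst_snoc (m b : Fo) : lst (app m (cons b nil)) = b := by
  induction m with
  | nil => rfl
  | cons c r _ ih =>
    cases r with
    | nil => rfl
    | cons d r => simp only [app, lst] at ih ⊢; rw [ih]

lemma snoc_cases (x : Fo) : x = nil ∨ ∃ m b, x = app m (cons b nil) := by
  induction x with
  | nil => exact Or.inl rfl
  | cons c r _ ih =>
    right
    rcases ih with rfl | ⟨m, b, rfl⟩
    · exact ⟨nil, c, rfl⟩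
    · exact ⟨cons c m, b, rfl⟩

/-- the states reachable in one move -/
def succs : Fo → List Fo
  | nil => [dot]
  | cons a r => if r = nil then [cons (cons a nil) nil, app a dot, cons nil a] else
      [cons (cons a r) nil, app a (cons r nil), cons (cons a (ini r)) (lst r),
        app a (cons (ini r) (lst r))]

lemma succs_one (a : Fo) : succs (cons a nil) = [cons (cons a nil) nil, app a dot, cons nil a] := by
  simp [succs]

lemma succs_two (a m b : Fo) : succs (cons a (app m (cons b nil))) =
    [cons (cons a (app m (cons b nil))) nil, app a (cons (app m (cons b nil)) nil),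
      cons (cons a m) b, app a (cons m b)] := by
  simp [succs, app_cons_ne, ini_snoc, lst_snoc]

lemma cases3 (S : Fo) : S = nil ∨ (∃ a, S = cons a nil) ∨ ∃ a m b, S = cons a (app m (cons b nil)) := by
  cases S with
  | nil => exact Or.inl rfl
  | cons a r =>
    rcases snoc_cases r with rfl | ⟨m, b, rfl⟩
    · exact Or.inr (Or.inl ⟨a, rfl⟩)
    · exact Or.inr (Or.inr ⟨a, m, b, rfl⟩)

/-- number of paths of given length to the one node forest -/
def p : ℕ → Fo → ℕ
  | 0, S => if S = dot then 1 else 0
  | m + 1, S => ((succs S).map (p m)).sum

lemma succs_ne {S S' : Fo} (h : S' ∈ succs S) : S' ≠ nil ∧ size S' ≤ size S + 1 := by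
  rcases cases3 S with rfl | ⟨a, rfl⟩ | ⟨a, m, b, rfl⟩
  · simp only [succs, List.mem_singleton] at h; subst h; simp [dot, size]
  · simp only [succs_one, List.mem_cons, List.not_mem_nil, or_false] at h
    rcases h with rfl | rfl | rfl <;> simp [dot, size, size_app, app_cons_ne]
  · simp only [succs_two, List.mem_cons, List.not_mem_nil, or_false] at h
    rcases h with rfl | rfl | rfl | rfl <;> simp [size, size_app, app_cons_ne] <;> omega

lemma p_mul (a b : ℕ) (S : Fo) : p a S * p b dot ≤ p (a + b) S := by
  induction a generalizing S with
  | zero => simp only [p, Nat.zero_add]; split_ifs with h <;> simp [h]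
  | succ a ih =>
    rw [Nat.add_right_comm, p, p, ← List.sum_map_mul_right]
    exact List.sum_le_sum fun x _ => ih x

lemma p_dot_pos (k : ℕ) : 1 ≤ p k dot := by
  induction k with
  | zero => simp [p]
  | succ k ih =>
    rw [p, dot, succs_one]
    simp only [List.map_cons, List.sum_cons, app]
    omega

lemma p_pos : ∀ (s : ℕ) (S : Fo), S ≠ nil → size S ≤ s + 1 → 1 ≤ p (2 * s) S := by
  intro s
  induction s with
  | zero =>
    intro S h1 h2
    have : S = dot := by
      cases S with
      | nil => exact absurd rfl h1
      | cons a r => cases a <;> cases r <;> simp [size, dot] at h2 ⊢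
    simp [p, this]
  | succ s ih =>
    have two : ∀ a m b, size (cons a (app m (cons b nil))) ≤ s + 2 →
        1 ≤ p (2 * s + 1) (cons a (app m (cons b nil))) := by
      intro a m b h
      have := ih (app a (cons m b)) (app_cons_ne _ _ _)
        (by simp only [size, size_app] at h ⊢; omega)
      rw [p, succs_two]
      simp only [List.map_cons, List.sum_cons]
      omega
    intro S h1 h2
    rcases cases3 S with rfl | ⟨a, rfl⟩ | ⟨a, m, b, rfl⟩
    · exact absurd rfl h1
    · cases a with
      | nil => exact p_dot_pos _
      | cons c r =>
        have := two c r nil (by simp only [size, size_app] at h2 ⊢; omega)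
        rw [show 2 * (s + 1) = 2 * s + 1 + 1 by ring, p, succs_one]
        simp only [List.map_cons, List.sum_cons, app, dot]
        omega
    · have h3 := two a m b h2
      have h4 := p_mul (2 * s + 1) 1 (cons a (app m (cons b nil)))
      have h5 := p_dot_pos 1
      rw [show 2 * (s + 1) = 2 * s + 1 + 1 by ring]
      nlinarith

end Fo

end Pool.Agent.Lib.MP_8a1ce7_co.D
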