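import Pool.Agent.Lib.MP_8a1ce7_co.Chk

set_option autoImplicit false

namespace Pool.Agent.Lib.MP_8a1ce7_co.D

open Fo

/-! ### the potentials -/

noncomputable def Pr (P : DT) (Q : ℕ) : Fo → ℝ
  | .nil => 1
  | .cons c r => (f0 (val P [c]) : ℝ) / Q * Pr P Q c * Pr P Q r

noncomputable def dd (R P : DT) (Q : ℕ) (S : Fo) : ℝ := f0 (val R [S]) * Pr P Q S

def Sg (P : DT) : Fo → ℕ
  | .nil => 0
  | .cons c r => f2 (val P [c]) + Sg P c + Sg P r

def VV (R P : DT) (S : Fo) : ℝ := (f2 (val R [S]) + Sg P S : ℕ)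

lemma Pr_app (P : DT) (Q : ℕ) (x y : Fo) : Pr P Q (app x y) = Pr P Q x * Pr P Q y := by
  induction x with
  | nil => simp [app, Pr]
  | cons c r _ ih => simp only [app, Pr, ih]; ring

lemma Sg_app (P : DT) (x y : Fo) : Sg P (app x y) = Sg P x + Sg P y := by
  induction x with
  | nil => simp [app, Sg]
  | cons c r _ ih => simp only [app, Sg, ih]; ring

structure OK (R P : DT) (Q : ℕ) : Prop where
  wR : wf R = true
  wP : wf P = true
  pR : 1 ≤ f0 (dat R)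
  pP : 1 ≤ f0 (dat P)
  pQ : 1 ≤ Q

variable {R P : DT} {Q : ℕ}

lemma OK.rho (h : OK R P Q) (S : Fo) : (0 : ℝ) < f0 (val R [S]) := by
  exact_mod_cast h.pR.trans (val_in h.wR _).1.1

lemma OK.phi (h : OK R P Q) (S : Fo) : (0 : ℝ) < f0 (val P [S]) := by
  exact_mod_cast h.pP.trans (val_in h.wP _).1.1

lemma OK.q (h : OK R P Q) : (0 : ℝ) < Q := by exact_mod_cast h.pQ

lemma OK.pr (h : OK R P Q) (S : Fo) : 0 < Pr P Q S := by
  induction S with
  | nil => simp [Pr]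
  | cons c r ic ih => exact mul_pos (mul_pos (div_pos (h.phi c) h.q) ic) ih

lemma OK.dd (h : OK R P Q) (S : Fo) : 0 < dd R P Q S := mul_pos (h.rho S) (h.pr S)

/-! ### upper bound -/

noncomputable def coreU (Q ln ld h0 h1 h2 h3 lr la lb : ℕ) : Bool :=
  frc la fun la => frc lb fun lb =>
  Nat.blt (Nat.mul ld (Nat.add (Nat.mul (Nat.add (Nat.mul h0 la) (Nat.mul h1 Q)) lb)
    (Nat.mul (Nat.add (Nat.mul h2 la) (Nat.mul h3 Q)) Q)))
    (Nat.mul ln (Nat.mul (Nat.mul lr Q) (Nat.mul la lb)))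

lemma coreU_spec {Q ln ld h0 h1 h2 h3 lr la lb : ℕ} (h : coreU Q ln ld h0 h1 h2 h3 lr la lb = true)
    (hd : 0 < ld) (hQ : 0 < Q) {x0 x1 x2 x3 r a b : ℕ} (e0 : x0 ≤ h0) (e1 : x1 ≤ h1) (e2 : x2 ≤ h2)
    (e3 : x3 ≤ h3) (er : lr ≤ r) (ea : la ≤ a) (eb : lb ≤ b) :
    (x0 : ℝ) / Q * (a / Q) * (b / Q) + x1 / Q * (b / Q) + x2 / Q * (a / Q) + x3 / Q ≤
      ln / ld * (r * (a / Q) * (b / Q)) := by
  simp only [coreU, frc_eq, Nat.blt_eq, Nat.mul_eq, Nat.add_eq] at h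
  have la0 : 0 < la := Nat.pos_of_ne_zero fun e => by simp [e] at h
  have lb0 : 0 < lb := Nat.pos_of_ne_zero fun e => by simp [e] at h
  have h' : (ld : ℝ) * ((h0 * la + h1 * Q) * lb + (h2 * la + h3 * Q) * Q) ≤
      ln * (lr * Q * (la * lb)) := by exact_mod_cast h.le
  have a0 : (0 : ℝ) < a := by exact_mod_cast la0.trans_le ea
  have b0 : (0 : ℝ) < b := by exact_mod_cast lb0.trans_le eb
  have k1 : (h0 : ℝ) + h1 * Q / la + h2 * Q / lb + h3 * Q * Q / (la * lb) ≤ ln / ld * (lr * Q) := by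
    rw [div_mul_eq_mul_div, le_div_iff₀ (by positivity)]
    refine le_of_mul_le_mul_right (le_of_eq_of_le ?_ (h'.trans_eq ?_))
      (show (0 : ℝ) < la * lb by positivity)
    · field_simp; ring
    · ring
  have k2 : (x0 : ℝ) + x1 * Q / a + x2 * Q / b + x3 * Q * Q / (a * b) ≤ ln / ld * (r * Q) := by
    refine le_trans ?_ (k1.trans ?_) <;> gcongr
  have k3 := mul_le_mul_of_nonneg_right k2 (show (0 : ℝ) ≤ a * b / Q ^ 3 by positivity)
  refine le_of_eq_of_le ?_ (k3.trans_eq ?_) <;> field_simp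

noncomputable def hiU (R P : DT) (x y : Pat) : ℕ := Nat.mul (f1 (cls R [x])) (f1 (cls P [y]))

noncomputable def lfU2 (R P : DT) (Q ln ld : ℕ) (A M B : Pat) (_ : ℕ) : Bool :=
  force (papp M (.cons B .nil)) fun N =>
    coreU Q ln ld (hiU R P (.cons (.cons A N) .nil) (.cons A N)) (hiU R P (papp A (.cons N .nil)) N)
      (hiU R P (.cons (.cons A M) B) (.cons A M)) (hiU R P (papp A (.cons M B)) M)
      (f0 (cls R [.cons A N])) (f0 (cls P [A])) (f0 (cls P [B]))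

noncomputable def lfU1 (R P : DT) (Q ln ld : ℕ) (A _M _B : Pat) (_ : ℕ) : Bool :=
  coreU Q ln ld (hiU R P (.cons (.cons A .nil) .nil) (.cons A .nil))
    (hiU R P (papp A (.cons .nil .nil)) .nil) 0 (hiU R P (.cons .nil A) .nil)
    (f0 (cls R [.cons A .nil])) (f0 (cls P [A])) Q

def GoodU (R P : DT) (Q : ℕ) (l : ℝ) (S : Fo) : Prop :=
  ((succs S).map (dd R P Q)).sum ≤ l * dd R P Q S

lemma c1 (σ : ℕ → Fo) {T : DT} (h : wf T = true) (x : Pat) : In (cls T [x]) (val T [inst σ x]) :=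
  cls_in σ h [x]

lemma hiU_spec (h : OK R P Q) (σ : ℕ → Fo) (x y : Pat) :
    f0 (val R [inst σ x]) * f0 (val P [inst σ y]) ≤ hiU R P x y :=
  Nat.mul_le_mul (c1 σ h.wR x).1.2 (c1 σ h.wP y).1.2

lemma lfU2_spec (h : OK R P Q) {ln ld : ℕ} (hd : 0 < ld) (A M B : Pat) (t : ℕ)
    (e : lfU2 R P Q ln ld A M B t = true) (σ : ℕ → Fo) :
    GoodU R P Q (ln / ld) (.cons (inst σ A) (app (inst σ M) (.cons (inst σ B) .nil))) := by
  rw [lfU2, force_eq] at e
  have k := coreU_spec e hd h.pQ (hiU_spec h σ _ _) (hiU_spec h σ _ _) (hiU_spec h σ _ _)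
    (hiU_spec h σ _ _) (c1 σ h.wR _).1.1 (c1 σ h.wP _).1.1 (c1 σ h.wP _).1.1
  simp only [inst, inst_papp, Nat.cast_mul] at k
  have k2 := mul_le_mul_of_nonneg_right k
    (mul_pos (mul_pos (h.pr (inst σ A)) (h.pr (inst σ M))) (h.pr (inst σ B))).le
  simp only [GoodU, succs_two, List.map_cons, List.map_nil, List.sum_cons, List.sum_nil, dd, Pr,
    Pr_app]
  refine le_of_eq_of_le ?_ (k2.trans_eq ?_) <;> ring

lemma lfU1_spec (h : OK R P Q) {ln ld : ℕ} (hd : 0 < ld) (A M B : Pat) (t : ℕ)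
    (e : lfU1 R P Q ln ld A M B t = true) (σ : ℕ → Fo) :
    GoodU R P Q (ln / ld) (.cons (inst σ A) .nil) := by
  have k := coreU_spec e hd h.pQ (hiU_spec h σ _ _) (hiU_spec h σ _ _) le_rfl
    (hiU_spec h σ _ _) (c1 σ h.wR _).1.1 (c1 σ h.wP _).1.1 le_rfl
  simp only [inst, inst_papp, Nat.cast_mul, div_self h.q.ne'] at k
  have k2 := mul_le_mul_of_nonneg_right k (h.pr (inst σ A)).le
  simp only [GoodU, succs_one, List.map_cons, List.map_nil, List.sum_cons, List.sum_nil, dd, Pr,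
    Pr_app, dot]
  refine le_of_eq_of_le ?_ (k2.trans_eq ?_) <;> push_cast <;> ring

def g0 : Pat := .gap 0 .nil
def g1 : Pat := .gap 1 .nil
def g2 : Pat := .gap 2 .nil

lemma of_cov {G : Fo → Prop} (h1 : Cov (fun a _ _ => G (.cons a .nil)) g0 .nil .nil 1)
    (h2 : Cov (fun a m b => G (.cons a (app m (.cons b .nil)))) g0 g1 g2 3) (S : Fo)
    (hS : S ≠ .nil) : G S := by
  rcases cases3 S with rfl | ⟨a, rfl⟩ | ⟨a, m, b, rfl⟩
  · exact absurd rfl hS
  · simpa [g0, inst] using h1 (by simp [g0, bnd]) trivial trivial fun _ => a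
  · simpa [g0, g1, g2, inst] using h2 (by simp [g0, bnd]) (by simp [g1, bnd]) (by simp [g2, bnd])
      fun k => if k = 0 then a else if k = 1 then m else b

theorem upper_main (h : OK R P Q) {l μ : ℝ} (hl : 0 < l) (hμ : l < μ)
    (h1 : Cov (fun a _ _ => GoodU R P Q l (.cons a .nil)) g0 .nil .nil 1)
    (h2 : Cov (fun a m b => GoodU R P Q l (.cons a (app m (.cons b .nil)))) g0 g1 g2 3) :
    ∃ C : ℝ, ∀ n : ℕ, (FF n : ℝ) ≤ C * μ ^ n :=
  upper_FF hl hμ (upper_pot h.dd hl.le (of_cov h1 h2))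

/-! ### lower bound -/

def sq (y : ℕ) : ℕ := Nat.shiftRight (Nat.mul y y) 40

noncomputable def sqs (k : ℕ) : ℕ → ℕ :=
  @Nat.rec (fun _ => ℕ → ℕ) (fun y => y) (fun _ ih y => frc (sq y) ih) k

lemma sqs_le (k : ℕ) {y : ℕ} {x : ℝ} (h : (y : ℝ) ≤ 2 ^ 40 * Real.exp x) :
    (sqs k y : ℝ) ≤ 2 ^ 40 * Real.exp (2 ^ k * x) := by
  induction k generalizing y x with
  | zero => simpa [sqs] using h
  | succ k ih =>
    have e : sqs (k + 1) y = sqs k (sq y) := frc_eq _ _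
    rw [e, pow_succ 2 k, mul_assoc]
    refine ih ?_
    have h1 : (sq y : ℝ) ≤ (y * y : ℕ) / (2 ^ 40 : ℕ) := by
      rw [sq, Nat.shiftRight_eq, Nat.shiftRight_eq_div_pow]; exact Nat.cast_div_le
    refine h1.trans ?_
    push_cast
    rw [div_le_iff₀ (by positivity), two_mul, Real.exp_add]
    nlinarith [mul_self_le_mul_self (Nat.cast_nonneg y) h]

noncomputable def ex (t N E : ℕ) : ℕ :=
  sqs 14 (Nat.sub (Nat.add 1099511627776 (Nat.mul t N)) (Nat.mul t E))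

lemma ex_le (t N E : ℕ) : (ex t N E : ℝ) ≤ 2 ^ 40 * Real.exp (-(t / 2 ^ 26 * (E - N))) := by
  have := sqs_le 14 (y := Nat.sub (Nat.add 1099511627776 (Nat.mul t N)) (Nat.mul t E))
    (x := -(t / 2 ^ 40 * (E - N))) (by
      simp only [Nat.sub_eq, Nat.add_eq, Nat.mul_eq]
      rcases le_total (t * E) (1099511627776 + t * N) with h | h
      · have := Real.add_one_le_exp (-(t / 2 ^ 40 * ((E : ℝ) - N)))
        rw [Nat.cast_sub h]; push_cast
        linarith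
      · rw [Nat.sub_eq_zero_of_le h, Nat.cast_zero]; positivity)
  refine this.trans_eq ?_
  congr 2
  ring

lemma tangent {W E N t : ℕ} (s : ℝ) :
    (W * ex t N E : ℕ) * (1 - (s - t / 2 ^ 26) * (E - N)) ≤
      2 ^ 40 * (W * Real.exp (-(s * (E - N)))) := by
  have h1 := ex_le t N E
  have h2 := Real.add_one_le_exp (-((s - t / 2 ^ 26) * ((E : ℝ) - N)))
  have h3 : Real.exp (-(s * ((E : ℝ) - N))) = Real.exp (-(t / 2 ^ 26 * (E - N))) *
      Real.exp (-((s - t / 2 ^ 26) * ((E : ℝ) - N))) := by rw [← Real.exp_add]; ring_nf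
  rw [h3]
  push_cast
  calc (W : ℝ) * ex t N E * (1 - (s - t / 2 ^ 26) * (E - N))
      ≤ W * ex t N E * Real.exp (-((s - t / 2 ^ 26) * ((E : ℝ) - N))) := by
        gcongr; linarith
    _ ≤ W * (2 ^ 40 * Real.exp (-(t / 2 ^ 26 * (E - N)))) *
        Real.exp (-((s - t / 2 ^ 26) * ((E : ℝ) - N))) := by gcongr
    _ = _ := by ring

noncomputable def drift (ln ld t Z N W0 W1 W2 W3 E0 E1 E2 E3 : ℕ) : Bool :=
  frc (Nat.mul W0 (ex t N E0)) fun u0 => frc (Nat.mul W1 (ex t N E1)) fun u1 =>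
  frc (Nat.mul W2 (ex t N E2)) fun u2 => frc (Nat.mul W3 (ex t N E3)) fun u3 =>
  frc (Nat.add (Nat.add u0 u1) (Nat.add u2 u3)) fun Su =>
  frc (Nat.add (Nat.add (Nat.mul u0 E0) (Nat.mul u1 E1)) (Nat.add (Nat.mul u2 E2) (Nat.mul u3 E3)))
    fun SE => Nat.ble SE (Nat.mul N Su) &&
      Nat.ble (Nat.add (Nat.mul (Nat.mul ln Z) 73786976294838206464)
        (Nat.mul ld (Nat.mul t (Nat.mul N Su))))
        (Nat.mul ld (Nat.add (Nat.mul 67108864 Su) (Nat.mul t SE)))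

lemma drift_spec {ln ld t Z N W0 W1 W2 W3 E0 E1 E2 E3 : ℕ}
    (h : drift ln ld t Z N W0 W1 W2 W3 E0 E1 E2 E3 = true) (hd : 0 < ld) {s : ℝ} (hs : 0 ≤ s) :
    (ln : ℝ) / ld * Z ≤ W0 * Real.exp (-(s * (E0 - N))) + W1 * Real.exp (-(s * (E1 - N))) +
      W2 * Real.exp (-(s * (E2 - N))) + W3 * Real.exp (-(s * (E3 - N))) := by
  simp only [drift, frc_eq, Bool.and_eq_true, Nat.ble_eq, Nat.mul_eq, Nat.add_eq] at h
  have a0 := tangent (W := W0) (E := E0) (N := N) (t := t) s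
  have a1 := tangent (W := W1) (E := E1) (N := N) (t := t) s
  have a2 := tangent (W := W2) (E := E2) (N := N) (t := t) s
  have a3 := tangent (W := W3) (E := E3) (N := N) (t := t) s
  generalize W0 * ex t N E0 = u0 at *
  generalize W1 * ex t N E1 = u1 at *
  generalize W2 * ex t N E2 = u2 at *
  generalize W3 * ex t N E3 = u3 at *
  have h1 : (u0 : ℝ) * E0 + u1 * E1 + (u2 * E2 + u3 * E3) ≤ N * (u0 + u1 + (u2 + u3)) := by
    exact_mod_cast h.1
  have h2 : (ln : ℝ) * Z * 73786976294838206464 + ld * (t * (N * (u0 + u1 + (u2 + u3)))) ≤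
      ld * (67108864 * (u0 + u1 + (u2 + u3)) + t * (u0 * E0 + u1 * E1 + (u2 * E2 + u3 * E3))) := by
    exact_mod_cast h.2
  have h3 := mul_le_mul_of_nonneg_left h1 hs
  have d0 : (0 : ℝ) < ld := by exact_mod_cast hd
  have h4 : (ln : ℝ) / ld * Z * 73786976294838206464 + t * (N * (u0 + u1 + (u2 + u3))) ≤
      67108864 * (u0 + u1 + (u2 + u3)) + t * (u0 * E0 + u1 * E1 + (u2 * E2 + u3 * E3)) := by
    refine le_of_mul_le_mul_left (le_of_eq_of_le ?_ h2) d0
    field_simp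
  linarith

noncomputable def psize (x : Pat) : ℕ :=
  @Pat.rec (fun _ => ℕ) 0 (fun _ _ _ => 1000) (fun _ _ ic ih => Nat.succ (Nat.add ic ih)) x

lemma psize_spec (σ : ℕ → Fo) (x : Pat) (h : psize x < 1000) : size (inst σ x) ≤ psize x := by
  induction x with
  | nil => exact le_rfl
  | gap g r _ => exact absurd h (lt_irrefl _)
  | cons c r ic ih =>
    have e : psize (.cons c r) = psize c + psize r + 1 := rfl
    rw [e] at h ⊢
    have := ic (by omega)
    have := ih (by omega)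
    simp only [inst, size]
    omega

noncomputable def coreL (Q ln ld t sz w0 w1 w2 w3 p0 p1 p2 p3 hr ha hb vr va vb : ℕ) : Bool :=
  frc (Nat.mul w0 (Nat.mul ha hb)) fun W0 => frc (Nat.mul w1 (Nat.mul hb Q)) fun W1 =>
  frc (Nat.mul w2 (Nat.mul ha Q)) fun W2 => frc (Nat.mul w3 (Nat.mul Q Q)) fun W3 =>
  frc (Nat.mul (Nat.mul hr Q) (Nat.mul ha hb)) fun Z => frc t fun t =>
  @Bool.rec (fun _ => Bool)
    (frc (Nat.add vr (Nat.add va vb)) fun N => frc (Nat.add p0 (Nat.add va vb)) fun E0 =>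
      frc (Nat.add p1 vb) fun E1 => frc (Nat.add p2 va) fun E2 => frc p3 fun E3 =>
      drift ln ld t Z N W0 W1 W2 W3 E0 E1 E2 E3)
    (Nat.blt sz 1000 && Nat.ble (Nat.mul ln Z) (Nat.mul ld (Nat.add (Nat.add W0 W1) (Nat.add W2 W3))))
    (Nat.beq t 65535)

lemma lo_alg {l Q y0 y1 y2 y3 z0 z1 z2 z3 r hr a ha b hb : ℝ} (hQ : 0 < Q) (hl : 0 ≤ l)
    (h : l * (hr * Q * (ha * hb)) ≤ y0 * (ha * hb) + y1 * (hb * Q) + y2 * (ha * Q) + y3 * (Q * Q))
    (e0 : y0 ≤ z0) (e1 : y1 ≤ z1) (e2 : y2 ≤ z2) (e3 : y3 ≤ z3) (p1 : 0 ≤ z1) (p2 : 0 ≤ z2)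
    (p3 : 0 ≤ z3) (er : r ≤ hr) (ea : a ≤ ha) (eb : b ≤ hb) (a0 : 0 < a) (b0 : 0 < b) :
    l * (r * (a / Q) * (b / Q)) ≤
      z0 / Q * (a / Q) * (b / Q) + z1 / Q * (b / Q) + z2 / Q * (a / Q) + z3 / Q := by
  have ha0 := a0.trans_le ea
  have hb0 := b0.trans_le eb
  have k1 : l * (hr * Q) ≤ y0 + y1 * Q / ha + y2 * Q / hb + y3 * Q * Q / (ha * hb) := by
    refine le_of_mul_le_mul_right (le_of_eq_of_le ?_ (h.trans_eq ?_))
      (show (0 : ℝ) < ha * hb by positivity)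
    · ring
    · field_simp
  have k2 : l * (r * Q) ≤ z0 + z1 * Q / a + z2 * Q / b + z3 * Q * Q / (a * b) := by
    refine le_trans ?_ (k1.trans (le_trans (b := z0 + z1 * Q / ha + z2 * Q / hb +
      z3 * Q * Q / (ha * hb)) ?_ ?_)) <;> gcongr
  have k3 := mul_le_mul_of_nonneg_right k2 (show (0 : ℝ) ≤ a * b / Q ^ 3 by positivity)
  refine le_of_eq_of_le ?_ (k3.trans_eq ?_) <;> field_simp

lemma coreL_spec {Q ln ld t sz w0 w1 w2 w3 p0 p1 p2 p3 hr ha hb vr va vb : ℕ}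
    (h : coreL Q ln ld t sz w0 w1 w2 w3 p0 p1 p2 p3 hr ha hb vr va vb = true) (hd : 0 < ld)
    (hQ : 0 < Q) {x0 x1 x2 x3 r a b : ℕ} (e0 : w0 ≤ x0) (e1 : w1 ≤ x1) (e2 : w2 ≤ x2) (e3 : w3 ≤ x3)
    (er : r ≤ hr) (ea : a ≤ ha) (eb : b ≤ hb) (a0 : (0 : ℝ) < a) (b0 : (0 : ℝ) < b)
    {d0 d1 d2 d3 : ℝ} (f0 : d0 ≤ p0 - vr) (f1 : d1 ≤ p1 - vr - va) (f2 : d2 ≤ p2 - vr - vb)
    (f3 : d3 ≤ p3 - vr - va - vb) :
    (sz < 1000 ∧ (ln : ℝ) / ld * (r * (a / Q) * (b / Q)) ≤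
      x0 / Q * (a / Q) * (b / Q) + x1 / Q * (b / Q) + x2 / Q * (a / Q) + x3 / Q) ∨
    ∀ s : ℝ, 0 ≤ s → (ln : ℝ) / ld * (r * (a / Q) * (b / Q)) ≤
      x0 * Real.exp (-(s * d0)) / Q * (a / Q) * (b / Q) + x1 * Real.exp (-(s * d1)) / Q * (b / Q) +
        x2 * Real.exp (-(s * d2)) / Q * (a / Q) + x3 * Real.exp (-(s * d3)) / Q := by
  simp only [coreL, frc_eq] at h
  have Q0 : (0 : ℝ) < Q := by exact_mod_cast hQ
  have d0' : (0 : ℝ) < ld := by exact_mod_cast hd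
  cases hb' : Nat.beq t 65535 <;> rw [hb'] at h
  · refine Or.inr fun s hs => ?_
    have k := drift_spec h hd hs
    simp only [Nat.mul_eq, Nat.add_eq] at k
    push_cast at k
    refine lo_alg Q0 (by positivity) (k.trans_eq ?_)
      (y0 := w0 * Real.exp (-(s * (p0 + (va + vb) - (vr + (va + vb))))))
      (y1 := w1 * Real.exp (-(s * (p1 + vb - (vr + (va + vb))))))
      (y2 := w2 * Real.exp (-(s * (p2 + va - (vr + (va + vb))))))
      (y3 := w3 * Real.exp (-(s * (p3 - (vr + (va + vb)))))) ?_ ?_ ?_ ?_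
      (by positivity) (by positivity) (by positivity) (by exact_mod_cast er)
      (by exact_mod_cast ea) (by exact_mod_cast eb) a0 b0
    · ring
    all_goals gcongr; linarith
  · simp only [Bool.and_eq_true, Nat.blt_eq, Nat.ble_eq, Nat.mul_eq, Nat.add_eq] at h
    refine Or.inl ⟨h.1, lo_alg (y0 := w0) (y1 := w1) (y2 := w2) (y3 := w3) (hr := hr) (ha := ha)
      (hb := hb) Q0 (by positivity) ?_
      (by exact_mod_cast e0) (by exact_mod_cast e1) (by exact_mod_cast e2) (by exact_mod_cast e3)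
      (by positivity) (by positivity) (by positivity) (by exact_mod_cast er)
      (by exact_mod_cast ea) (by exact_mod_cast eb) a0 b0⟩
    have k : (ln : ℝ) * (hr * Q * (ha * hb)) ≤
        ld * (w0 * (ha * hb) + w1 * (hb * Q) + (w2 * (ha * Q) + w3 * (Q * Q))) := by
      exact_mod_cast h.2
    rw [div_mul_eq_mul_div, div_le_iff₀ d0']
    linarith

noncomputable def lfL2 (R P : DT) (Q ln ld : ℕ) (A M B : Pat) (t : ℕ) : Bool :=
  force (papp M (.cons B .nil)) fun N =>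
    frc (cls R [.cons (.cons A N) .nil]) fun r0 => frc (cls P [.cons A N]) fun q0 =>
    frc (cls R [papp A (.cons N .nil)]) fun r1 => frc (cls P [N]) fun q1 =>
    frc (cls R [.cons (.cons A M) B]) fun r2 => frc (cls P [.cons A M]) fun q2 =>
    frc (cls R [papp A (.cons M B)]) fun r3 => frc (cls P [M]) fun q3 =>
    frc (cls R [.cons A N]) fun r => frc (cls P [A]) fun a => frc (cls P [B]) fun b =>
    coreL Q ln ld t (psize (.cons A N)) (Nat.mul (f0 r0) (f0 q0)) (Nat.mul (f0 r1) (f0 q1))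
      (Nat.mul (f0 r2) (f0 q2)) (Nat.mul (f0 r3) (f0 q3)) (Nat.add (f3 r0) (f3 q0))
      (Nat.add (f3 r1) (f3 q1)) (Nat.add (f3 r2) (f3 q2)) (Nat.add (f3 r3) (f3 q3))
      (f1 r) (f1 a) (f1 b) (f2 r) (f2 a) (f2 b)

noncomputable def lfL1 (R P : DT) (Q ln ld : ℕ) (A _M _B : Pat) (t : ℕ) : Bool :=
  frc (cls R [.cons (.cons A .nil) .nil]) fun r0 => frc (cls P [.cons A .nil]) fun q0 =>
  frc (cls R [papp A (.cons .nil .nil)]) fun r1 => frc (cls P [.nil]) fun q1 =>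
  frc (cls R [.cons .nil A]) fun r3 =>
  frc (cls R [.cons A .nil]) fun r => frc (cls P [A]) fun a =>
  coreL Q ln ld t (psize (.cons A .nil)) (Nat.mul (f0 r0) (f0 q0)) (Nat.mul (f0 r1) (f0 q1))
    0 (Nat.mul (f0 r3) (f0 q1)) (Nat.add (f3 r0) (f3 q0)) (Nat.add (f3 r1) (f3 q1)) (f2 r)
    (Nat.add (f3 r3) (f3 q1)) (f1 r) (f1 a) Q (f2 r) (f2 a) 0

def GoodL (R P : DT) (Q : ℕ) (l : ℝ) (S : Fo) : Prop :=
  (size S < 1000 ∧ l * dd R P Q S ≤ ((succs S).map (dd R P Q)).sum) ∨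
    ∀ t : ℝ, 0 ≤ t → l * dd R P Q S ≤
      ((succs S).map fun S' => dd R P Q S' * Real.exp (-(t * (VV R P S' - VV R P S)))).sum

lemma cv (σ : ℕ → Fo) {T : DT} (h : wf T = true) (x : Pat) :
    (f2 (cls T [x]) : ℝ) ≤ f2 (val T [inst σ x]) ∧ (f2 (val T [inst σ x]) : ℝ) ≤ f3 (cls T [x]) := by
  exact_mod_cast (c1 σ h x).2

lemma lfL2_spec (h : OK R P Q) {ln ld : ℕ} (hd : 0 < ld) (A M B : Pat) (t : ℕ)
    (e : lfL2 R P Q ln ld A M B t = true) (σ : ℕ → Fo) :
    GoodL R P Q (ln / ld) (.cons (inst σ A) (app (inst σ M) (.cons (inst σ B) .nil))) := by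
  simp only [lfL2, force_eq, frc_eq] at e
  generalize hN : papp M (.cons B .nil) = N at e
  have eN : inst σ N = app (inst σ M) (.cons (inst σ B) .nil) := by rw [← hN, inst_papp]; rfl
  have r0 := cv σ h.wR (.cons (.cons A N) .nil)
  have r1 := cv σ h.wR (papp A (.cons N .nil))
  have r2 := cv σ h.wR (.cons (.cons A M) B)
  have r3 := cv σ h.wR (papp A (.cons M B))
  have r4 := cv σ h.wR (.cons A N)
  have q0 := cv σ h.wP (.cons A N)
  have q1 := cv σ h.wP N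
  have q2 := cv σ h.wP (.cons A M)
  have q3 := cv σ h.wP M
  have q4 := cv σ h.wP A
  have q5 := cv σ h.wP B
  have k := coreL_spec e hd h.pQ
    (Nat.mul_le_mul (c1 σ h.wR _).1.1 (c1 σ h.wP _).1.1)
    (Nat.mul_le_mul (c1 σ h.wR _).1.1 (c1 σ h.wP _).1.1)
    (Nat.mul_le_mul (c1 σ h.wR _).1.1 (c1 σ h.wP _).1.1)
    (Nat.mul_le_mul (c1 σ h.wR _).1.1 (c1 σ h.wP _).1.1)
    (c1 σ h.wR _).1.2 (c1 σ h.wP _).1.2 (c1 σ h.wP _).1.2 (h.phi _) (h.phi _)
    (d0 := VV R P (inst σ (.cons (.cons A N) .nil)) - VV R P (inst σ (.cons A N)))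
    (d1 := VV R P (inst σ (papp A (.cons N .nil))) - VV R P (inst σ (.cons A N)))
    (d2 := VV R P (inst σ (.cons (.cons A M) B)) - VV R P (inst σ (.cons A N)))
    (d3 := VV R P (inst σ (papp A (.cons M B))) - VV R P (inst σ (.cons A N)))
    (by simp only [VV, inst, inst_papp, Sg, Nat.add_eq] at *; push_cast; linarith)
    (by simp only [VV, inst, inst_papp, Sg, Sg_app, Nat.add_eq] at *; push_cast; linarith)
    (by simp only [VV, inst, inst_papp, Sg, Sg_app, Nat.add_eq, eN] at *; push_cast; linarith)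
    (by simp only [VV, inst, inst_papp, Sg, Sg_app, Nat.add_eq, eN] at *; push_cast; linarith)
  have pp := (mul_pos (mul_pos (h.pr (inst σ A)) (h.pr (inst σ M))) (h.pr (inst σ B))).le
  have ps := psize_spec σ (.cons A N)
  simp only [inst, inst_papp, Nat.cast_mul, eN] at k ps
  simp only [GoodL, succs_two, List.map_cons, List.map_nil, List.sum_cons, List.sum_nil, dd, Pr,
    Pr_app]
  rcases k with ⟨k1, k⟩ | k
  · refine Or.inl ⟨(ps k1).trans_lt k1, ?_⟩
    refine le_of_eq_of_le ?_ ((mul_le_mul_of_nonneg_right k pp).trans_eq ?_) <;> ring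
  · refine Or.inr fun s hs => ?_
    refine le_of_eq_of_le ?_ ((mul_le_mul_of_nonneg_right (k s hs) pp).trans_eq ?_) <;> ring

lemma lfL1_spec (h : OK R P Q) {ln ld : ℕ} (hd : 0 < ld) (A M B : Pat) (t : ℕ)
    (e : lfL1 R P Q ln ld A M B t = true) (σ : ℕ → Fo) :
    GoodL R P Q (ln / ld) (.cons (inst σ A) .nil) := by
  simp only [lfL1, frc_eq] at e
  have r0 := cv σ h.wR (.cons (.cons A .nil) .nil)
  have r1 := cv σ h.wR (papp A (.cons .nil .nil))
  have r3 := cv σ h.wR (.cons .nil A)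
  have r4 := cv σ h.wR (.cons A .nil)
  have q0 := cv σ h.wP (.cons A .nil)
  have q1 := cv σ h.wP .nil
  have q4 := cv σ h.wP A
  have k := coreL_spec e hd h.pQ
    (Nat.mul_le_mul (c1 σ h.wR _).1.1 (c1 σ h.wP _).1.1)
    (Nat.mul_le_mul (c1 σ h.wR _).1.1 (c1 σ h.wP _).1.1) le_rfl
    (Nat.mul_le_mul (c1 σ h.wR _).1.1 (c1 σ h.wP _).1.1)
    (c1 σ h.wR _).1.2 (c1 σ h.wP _).1.2 le_rfl (h.phi _) h.q
    (d0 := VV R P (inst σ (.cons (.cons A .nil) .nil)) - VV R P (inst σ (.cons A .nil)))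
    (d1 := VV R P (inst σ (papp A (.cons .nil .nil))) - VV R P (inst σ (.cons A .nil)))
    (d2 := 0)
    (d3 := VV R P (inst σ (.cons .nil A)) - VV R P (inst σ (.cons A .nil)))
    (by simp only [VV, inst, inst_papp, Sg, Nat.add_eq] at *; push_cast; linarith)
    (by simp only [VV, inst, inst_papp, Sg, Sg_app, Nat.add_eq] at *; push_cast; linarith)
    (by simp)
    (by simp only [VV, inst, inst_papp, Sg, Nat.add_eq] at *; push_cast; linarith)
  have pp := (h.pr (inst σ A)).le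
  have ps := psize_spec σ (.cons A .nil)
  simp only [inst, inst_papp, Nat.cast_mul, div_self h.q.ne'] at k ps
  simp only [GoodL, succs_one, List.map_cons, List.map_nil, List.sum_cons, List.sum_nil, dd, Pr,
    Pr_app, dot]
  rcases k with ⟨k1, k⟩ | k
  · refine Or.inl ⟨(ps k1).trans_lt k1, ?_⟩
    refine le_of_eq_of_le ?_ ((mul_le_mul_of_nonneg_right k pp).trans_eq ?_) <;> push_cast <;> ring
  · refine Or.inr fun s hs => ?_
    refine le_of_eq_of_le ?_ ((mul_le_mul_of_nonneg_right (k s hs) pp).trans_eq ?_) <;>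
      push_cast <;> ring

theorem lower_main (h : OK R P Q) (hv : 1 ≤ f2 (dat P)) {l μ : ℝ} (hμ : 1 ≤ μ) (hl : μ < l)
    (h1 : Cov (fun a _ _ => GoodL R P Q l (.cons a .nil)) g0 .nil .nil 1)
    (h2 : Cov (fun a m b => GoodL R P Q l (.cons a (app m (.cons b .nil)))) g0 g1 g2 3) :
    ∃ c : ℝ, 0 < c ∧ ∀ n : ℕ, c * μ ^ n ≤ FF n := by
  have vR := fun S : Fo => val_in h.wR [S]
  have vP := fun S : Fo => val_in h.wP [S]
  have s1 : ∀ S, size S ≤ Sg P S ∧ Sg P S ≤ size S * f3 (dat P) := by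
    intro S
    induction S with
    | nil => simp [size, Sg]
    | cons c r ic ih =>
      have := (vP c).2
      simp only [size, Sg, add_mul]
      omega
  have s2 : ∀ S, Pr P Q S ≤ ((f1 (dat R) + f1 (dat P) + 1 : ℕ) : ℝ) ^ size S := by
    intro S
    induction S with
    | nil => simp [size, Pr]
    | cons c r ic ih =>
      have e : (f0 (val P [c]) : ℝ) / Q ≤ (f1 (dat R) + f1 (dat P) + 1 : ℕ) :=
        (div_le_self (Nat.cast_nonneg _) (by exact_mod_cast h.pQ)).trans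
          (by have := (vP c).1.2; exact_mod_cast (by omega))
      have := h.pr c
      have := h.pr r
      rw [size, Pr, pow_succ', pow_add, ← mul_assoc]
      gcongr
  refine lower_pot (d := dd R P Q) (V := VV R P) (A := (f1 (dat R) + f1 (dat P) + 1 : ℕ))
    (D := (f3 (dat R) + 2 * f3 (dat P) : ℕ)) (K := (f3 (dat R) + 1000 * f3 (dat P) : ℕ)) hμ hl
    (by positivity) h.dd (fun S => ?_) (fun S => ?_) (fun S S' hS' => ?_) (by positivity)
    fun S hS => ?_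
  · have e : (f0 (val R [S]) : ℝ) ≤ (f1 (dat R) + f1 (dat P) + 1 : ℕ) := by
      have := (vR S).1.2; exact_mod_cast (by omega)
    have := h.pr S
    have := s2 S
    rw [dd, pow_succ']
    gcongr
  · have := (s1 S).1
    unfold VV
    exact_mod_cast (by omega)
  · have key : ∀ x y k : ℕ, x ≤ y + k → y ≤ x + k → |(x : ℝ) - y| ≤ k := fun x y k a b => by
      have a' : (x : ℝ) ≤ y + k := by exact_mod_cast a
      have b' : (y : ℝ) ≤ x + k := by exact_mod_cast b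
      rw [abs_le]; constructor <;> linarith
    have a1 := (vR S).2.2
    have a2 := (vR S').2.2
    unfold VV
    rcases cases3 S with rfl | ⟨a, rfl⟩ | ⟨a, m, b, rfl⟩
    · simp only [succs, List.mem_singleton] at hS'
      subst hS'
      have := (vP .nil).2.2
      apply key <;> simp only [Sg, dot] at * <;> omega
    · simp only [succs_one, List.mem_cons, List.not_mem_nil, or_false] at hS'
      have := (vP .nil).2.2
      have := (vP a).2.2
      have := (vP (.cons a .nil)).2.2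
      rcases hS' with rfl | rfl | rfl <;> apply key <;> simp only [Sg, Sg_app, dot] at * <;> omega
    · simp only [succs_two, List.mem_cons, List.not_mem_nil, or_false] at hS'
      have := (vP a).2.2
      have := (vP m).2.2
      have := (vP b).2.2
      have := (vP (.cons a m)).2.2
      have := (vP (app m (.cons b .nil))).2.2
      have := (vP (.cons a (app m (.cons b .nil)))).2.2
      rcases hS' with rfl | rfl | rfl | rfl <;> apply key <;> simp only [Sg, Sg_app] at * <;> omega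
  · rcases of_cov (G := GoodL R P Q l) h1 h2 S hS with ⟨k1, k2⟩ | k
    · refine Or.inl ⟨?_, k2⟩
      have a1 := (vR S).2.2
      have a2 := (s1 S).2.trans (Nat.mul_le_mul_right _ k1.le)
      unfold VV
      exact_mod_cast (by omega)
    · exact Or.inr k

end Pool.Agent.Lib.MP_8a1ce7_co.D
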