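import Pool.Agent.Lib.MP_8a1ce7_co.Pot

set_option autoImplicit false

namespace Pool.Agent.Lib.MP_8a1ce7_co.D

open Fo Filter Topology

lemma lim_div (c : ℝ) : Tendsto (fun n : ℕ => c / (n : ℝ)) atTop (𝓝 0) :=
  tendsto_const_div_atTop_nhds_zero_nat c

/-- existence of the growth rate, and its position between two exponential bounds -/
theorem rate_between {a b c C : ℝ} (ha : 0 < a) (hb : 0 < b) (hc : 0 < c)
    (hl : ∀ n : ℕ, c * a ^ n ≤ (FF n : ℝ)) (hu : ∀ n : ℕ, (FF n : ℝ) ≤ C * b ^ n) :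
    ∃ R : ℝ, a ≤ R ∧ R ≤ b ∧
      Tendsto (fun n : ℕ => (FF n : ℝ) ^ (1 / (n : ℝ))) atTop (𝓝 R) := by
  have p1 : ∀ n, (1 : ℝ) ≤ p n dot := fun n => by exact_mod_cast p_dot_pos n
  have pF : ∀ n, (p n dot : ℝ) ≤ FF n := fun n => by exact_mod_cast p_le_FF n
  have F0 : ∀ n, (0 : ℝ) < FF n := fun n => lt_of_lt_of_le one_pos ((p1 n).trans (pF n))
  have C0 : 0 < C := by simpa using (F0 0).trans_le (hu 0)
  have lu : ∀ n : ℕ, Real.log (FF n) ≤ Real.log C + n * Real.log b := fun n => by
    have := Real.log_le_log (F0 n) (hu n)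
    rwa [Real.log_mul C0.ne' (by positivity), Real.log_pow] at this
  have ll : ∀ n : ℕ, Real.log c + n * Real.log a ≤ Real.log (FF n) := fun n => by
    have := Real.log_le_log (by positivity) (hl n)
    rwa [Real.log_mul hc.ne' (by positivity), Real.log_pow] at this
  have lp : ∀ n, Real.log (p n dot) ≤ Real.log (FF n) := fun n =>
    Real.log_le_log (lt_of_lt_of_le one_pos (p1 n)) (pF n)
  have sub : Subadditive fun n => -Real.log (p n dot) := by
    intro m n
    have h : (p m dot : ℝ) * p n dot ≤ p (m + n) dot := by exact_mod_cast p_mul m n dot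
    have h1 := p1 m
    have h2 := p1 n
    have := Real.log_le_log (by positivity) h
    rw [Real.log_mul (by positivity) (by positivity)] at this
    simp only
    linarith
  have bdd : BddBelow (Set.range fun n : ℕ => -Real.log (p n dot) / n) := by
    refine ⟨-(|Real.log C| + |Real.log b|), ?_⟩
    rintro _ ⟨n, rfl⟩
    rcases Nat.eq_zero_or_pos n with rfl | hn
    · simp only [Nat.cast_zero, div_zero, Left.neg_nonpos_iff]; positivity
    · have n1 : (1 : ℝ) ≤ n := by exact_mod_cast hn
      simp only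
      rw [le_div_iff₀ (by linarith)]
      have h1 := (lp n).trans (lu n)
      have h2 := le_abs_self (Real.log C)
      have h3 := le_abs_self (Real.log b)
      have h4 := abs_nonneg (Real.log C)
      nlinarith
  have t0 := (sub.tendsto_lim bdd).neg
  set L := -sub.lim with hL
  have t1 : Tendsto (fun n : ℕ => Real.log (p n dot) / n) atTop (𝓝 L) :=
    t0.congr fun n => by simp only [neg_div, neg_neg]
  have t2 : Tendsto (fun n : ℕ => Real.log (FF n) / n) atTop (𝓝 L) := by
    have a1 : Tendsto (fun n : ℕ => Real.log ((n : ℝ) + 2) / ((n : ℝ) + 2)) atTop (𝓝 0) :=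
      Real.isLittleO_log_id_atTop.tendsto_div_nhds_zero.comp
        (tendsto_atTop_add_const_right _ 2 tendsto_natCast_atTop_atTop)
    have a2 : Tendsto (fun n : ℕ => 1 + 2 / (n : ℝ)) atTop (𝓝 (1 + 0)) :=
      (lim_div 2).const_add 1
    have a3 := (a1.mul a2).add t1
    rw [zero_mul, zero_add] at a3
    refine tendsto_of_tendsto_of_tendsto_of_le_of_le' t1 a3
      (Eventually.of_forall fun n => div_le_div_of_nonneg_right (lp n) (Nat.cast_nonneg n)) ?_
    filter_upwards [eventually_gt_atTop 0] with n hn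
    obtain ⟨m, rfl⟩ : ∃ m, n = m + 1 := ⟨n - 1, by omega⟩
    have h1 : (FF (m + 1) : ℝ) ≤ (m + 2) * p m dot := by exact_mod_cast FF_le_p
    have h2 : (p m dot : ℝ) * p 1 dot ≤ p (m + 1) dot := by exact_mod_cast p_mul m 1 dot
    have h3 := p1 m
    have h4 := p1 1
    have h5 : (FF (m + 1) : ℝ) ≤ (((m + 1 : ℕ) : ℝ) + 2) * p (m + 1) dot := by
      push_cast
      have : (p m dot : ℝ) ≤ p (m + 1) dot := by nlinarith
      have m0 : (0 : ℝ) ≤ m := Nat.cast_nonneg m
      nlinarith
    have h6 := Real.log_le_log (F0 _) h5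
    have h7 := p1 (m + 1)
    rw [Real.log_mul (by positivity) (by positivity)] at h6
    have n0 : (0 : ℝ) < ((m + 1 : ℕ) : ℝ) := by positivity
    have e : Real.log (((m + 1 : ℕ) : ℝ) + 2) / (((m + 1 : ℕ) : ℝ) + 2) * (1 + 2 / ((m + 1 : ℕ) : ℝ)) =
        Real.log (((m + 1 : ℕ) : ℝ) + 2) / ((m + 1 : ℕ) : ℝ) := by
      field_simp
    rw [e, ← add_div]
    gcongr
  refine ⟨Real.exp L, ?_, ?_, ?_⟩
  · rw [← Real.log_le_iff_le_exp ha]
    have a1 := (lim_div (Real.log c)).add_const (Real.log a)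
    rw [zero_add] at a1
    refine le_of_tendsto_of_tendsto a1 t2 ?_
    filter_upwards [eventually_gt_atTop 0] with n hn
    have n0 : (0 : ℝ) < n := by exact_mod_cast hn
    rw [le_div_iff₀ n0, add_mul, div_mul_cancel₀ _ n0.ne']
    linarith [ll n]
  · rw [← Real.le_log_iff_exp_le hb]
    have a1 := (lim_div (Real.log C)).add_const (Real.log b)
    rw [zero_add] at a1
    refine le_of_tendsto_of_tendsto t2 a1 ?_
    filter_upwards [eventually_gt_atTop 0] with n hn
    have n0 : (0 : ℝ) < n := by exact_mod_cast hn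
    rw [div_le_iff₀ n0, add_mul, div_mul_cancel₀ _ n0.ne']
    linarith [lu n]
  · refine ((Real.continuous_exp.tendsto L).comp t2).congr fun n => ?_
    simp only [Function.comp]
    rw [Real.rpow_def_of_pos (F0 n), mul_one_div]

end Pool.Agent.Lib.MP_8a1ce7_co.D
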