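import Pool.Agent.Lib.MP_8a1ce7_co.DataT
import Pool.Agent.Lib.MP_8a1ce7_co.DataG

set_option autoImplicit false
set_option maxRecDepth 100000

namespace Pool.Agent.Lib.MP_8a1ce7_co

theorem part0 : allK tabT tabG 24155 98805389208100 99400900000000 100000000000000 354861213000000 0 24 = true := by
  decide +kernel

theorem part24 : allK tabT tabG 24155 98805389208100 99400900000000 100000000000000 354861213000000 24 24 = true := by
  decide +kernel

theorem part48 : allK tabT tabG 24155 98805389208100 99400900000000 100000000000000 354861213000000 48 24 = true := by
  decide +kernel

theorem part72 : allK tabT tabG 24155 98805389208100 99400900000000 100000000000000 354861213000000 72 24 = true := by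
  decide +kernel

theorem part96 : allK tabT tabG 24155 98805389208100 99400900000000 100000000000000 354861213000000 96 24 = true := by
  decide +kernel

theorem part120 : allK tabT tabG 24155 98805389208100 99400900000000 100000000000000 354861213000000 120 24 = true := by
  decide +kernel

theorem part144 : allK tabT tabG 24155 98805389208100 99400900000000 100000000000000 354861213000000 144 24 = true := by
  decide +kernel

theorem part168 : allK tabT tabG 24155 98805389208100 99400900000000 100000000000000 354861213000000 168 24 = true := by
  decide +kernel

end Pool.Agent.Lib.MP_8a1ce7_co
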