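import Pool.Agent.Lib.MP_8a1ce7_co.DataT
import Pool.Agent.Lib.MP_8a1ce7_co.DataG

set_option autoImplicit false
set_option maxRecDepth 100000

namespace Pool.Agent.Lib.MP_8a1ce7_co

theorem part192 : allK tabT tabG 24155 98805389208100 99400900000000 100000000000000 354861213000000 192 24 = true := by
  decide +kernel

theorem part216 : allK tabT tabG 24155 98805389208100 99400900000000 100000000000000 354861213000000 216 24 = true := by
  decide +kernel

theorem part240 : allK tabT tabG 24155 98805389208100 99400900000000 100000000000000 354861213000000 240 24 = true := by
  decide +kernel

theorem part264 : allK tabT tabG 24155 98805389208100 99400900000000 100000000000000 354861213000000 264 24 = true := by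
  decide +kernel

theorem part288 : allK tabT tabG 24155 98805389208100 99400900000000 100000000000000 354861213000000 288 24 = true := by
  decide +kernel

theorem part312 : allK tabT tabG 24155 98805389208100 99400900000000 100000000000000 354861213000000 312 24 = true := by
  decide +kernel

theorem part336 : allK tabT tabG 24155 98805389208100 99400900000000 100000000000000 354861213000000 336 24 = true := by
  decide +kernel

theorem part360 : allK tabT tabG 24155 98805389208100 99400900000000 100000000000000 354861213000000 360 18 = true := by
  decide +kernel

end Pool.Agent.Lib.MP_8a1ce7_co
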