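import Pool.Agent.Lib.MP_8a1ce7_co.Count

set_option autoImplicit false

namespace Pool.Agent.Lib.MP_8a1ce7_co.D

open Fo Filter Topology

lemma dot_ne : dot ≠ nil := by simp [dot]

lemma p_succ (m : ℕ) (S : Fo) : (p (m + 1) S : ℝ) = ((succs S).map fun S' => (p m S' : ℝ)).sum := by
  rw [p, Nat.cast_list_sum, List.map_map]; rfl

theorem upper_pot {d : Fo → ℝ} {l : ℝ} (hd : ∀ S, 0 < d S) (hl : 0 ≤ l)
    (h : ∀ S, S ≠ nil → ((succs S).map d).sum ≤ l * d S) (m : ℕ) : (p m dot : ℝ) ≤ l ^ m := by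
  have key : ∀ m S, S ≠ nil → (p m S : ℝ) * d dot ≤ l ^ m * d S := by
    intro m
    induction m with
    | zero =>
      intro S _
      simp only [p, pow_zero, one_mul]
      split_ifs with e
      · simp [e]
      · simpa using (hd S).le
    | succ m ih =>
      intro S hS
      rw [p_succ, ← List.sum_map_mul_right, pow_succ, mul_assoc]
      refine (List.sum_le_sum fun x hx => ih x (succs_ne hx).1).trans ?_
      rw [List.sum_map_mul_left]
      exact mul_le_mul_of_nonneg_left (h S hS) (pow_nonneg hl _)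
  exact le_of_mul_le_mul_right (key m dot dot_ne) (hd dot)

theorem upper_FF {l μ : ℝ} (hl : 0 < l) (hμ : l < μ) (h : ∀ m, (p m dot : ℝ) ≤ l ^ m) :
    ∃ C : ℝ, ∀ n : ℕ, (FF n : ℝ) ≤ C * μ ^ n := by
  have h0 : 0 < μ := hl.trans hμ
  have hr : |l / μ| < 1 := by rw [abs_of_pos (by positivity), div_lt_one h0]; exact hμ
  have t1 := tendsto_self_mul_const_pow_of_abs_lt_one hr
  have t2 := (tendsto_pow_atTop_nhds_zero_of_abs_lt_one hr).const_mul 2
  obtain ⟨B, hB⟩ := (t1.add t2).bddAbove_range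
  refine ⟨max (FF 0) (B / μ), fun n => ?_⟩
  cases n with
  | zero => simp
  | succ n =>
    have h1 : (FF (n + 1) : ℝ) ≤ (n + 2) * p n dot := by exact_mod_cast FF_le_p
    have h2 : (n : ℝ) * (l / μ) ^ n + 2 * (l / μ) ^ n ≤ B := hB ⟨n, rfl⟩
    have h3 : ((n : ℝ) + 2) * l ^ n ≤ B / μ * μ ^ (n + 1) := by
      rw [pow_succ', ← mul_assoc, div_mul_cancel₀ _ h0.ne', ← div_le_iff₀ (by positivity),
        mul_div_assoc, ← div_pow]
      linarith
    calc (FF (n + 1) : ℝ) ≤ (n + 2) * l ^ n := h1.trans (by gcongr; exact h n)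
      _ ≤ _ := h3.trans (by gcongr; exact le_max_right _ _)

lemma sum_comm' (M : ℕ) (L : List Fo) (g : ℕ → Fo → ℝ) :
    (L.map fun x => ∑ s ∈ Finset.range M, g s x).sum =
      ∑ s ∈ Finset.range M, (L.map (g s)).sum := by
  induction L with
  | nil => simp
  | cons x L ih => simp [ih, Finset.sum_add_distrib]

theorem lower_core {f : Fo → ℝ} {l μ C : ℝ} (hμ : 0 < μ) (hl : μ < l) (h0 : 0 < f dot)
    (hL : ∀ S, S ≠ nil → l * f S ≤ ((succs S).map f).sum)
    (hC : ∀ S, S ≠ nil → f S * μ ^ (2 * size S) ≤ C) : ∃ k, 1 ≤ k ∧ μ ^ k ≤ p k dot := by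
  by_contra hcon
  push Not at hcon
  have hp : ∀ k, (p k dot : ℝ) ≤ μ ^ k := by
    intro k
    rcases Nat.eq_zero_or_pos k with rfl | hk
    · simp [p]
    · exact (hcon k hk).le
  have C0 : 0 ≤ C := le_trans (by positivity) (hC dot dot_ne)
  have key : ∀ M m S, S ≠ nil → size S + m ≤ M →
      l ^ m * f S ≤ ∑ s ∈ Finset.range M, C / μ ^ (2 * (s + 1)) * p (2 * s + m) S := by
    intro M m
    induction m with
    | zero =>
      intro S hS hM
      obtain ⟨s, hs⟩ : ∃ s, size S = s + 1 := by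
        cases S with
        | nil => exact absurd rfl hS
        | cons a r => exact ⟨_, rfl⟩
      have h1 : (1 : ℝ) ≤ p (2 * s + 0) S := by exact_mod_cast p_pos s S hS hs.le
      refine le_trans ?_ (Finset.single_le_sum
        (f := fun s => C / μ ^ (2 * (s + 1)) * (p (2 * s + 0) S : ℝ))
        (fun i _ => by positivity) (Finset.mem_range.2 (show s < M by omega)))
      have h2 : f S ≤ C / μ ^ (2 * (s + 1)) := by
        rw [le_div_iff₀ (by positivity), ← hs]; exact hC S hS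
      rw [pow_zero, one_mul]
      exact h2.trans (le_mul_of_one_le_right (by positivity) h1)
    | succ m ih =>
      intro S hS hM
      rw [pow_succ, mul_assoc]
      refine (mul_le_mul_of_nonneg_left (hL S hS) (pow_nonneg (hμ.trans hl).le _)).trans ?_
      rw [← List.sum_map_mul_left]
      refine (List.sum_le_sum fun x hx =>
        ih x (succs_ne hx).1 (by have := (succs_ne hx).2; omega)).trans ?_
      rw [sum_comm']
      refine Finset.sum_le_sum fun s _ => le_of_eq ?_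
      rw [← Nat.add_assoc, p_succ, List.sum_map_mul_left]
  have hl0 := hμ.trans hl
  have hr : |μ / l| < 1 := by rw [abs_of_pos (by positivity), div_lt_one hl0]; exact hl
  have t1 := ((tendsto_self_mul_const_pow_of_abs_lt_one hr).add
    (tendsto_pow_atTop_nhds_zero_of_abs_lt_one hr)).const_mul (C / μ ^ 2)
  rw [add_zero, mul_zero] at t1
  obtain ⟨m, hm⟩ := (t1.eventually (gt_mem_nhds h0)).exists
  have h1 := key (m + 1) m dot dot_ne (by simp [dot, size]; omega)
  have h2 : ∑ s ∈ Finset.range (m + 1), C / μ ^ (2 * (s + 1)) * (p (2 * s + m) dot : ℝ) ≤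
      ∑ _s ∈ Finset.range (m + 1), C / μ ^ 2 * μ ^ m := by
    refine Finset.sum_le_sum fun s _ => ?_
    refine (mul_le_mul_of_nonneg_left (hp _) (by positivity)).trans (le_of_eq ?_)
    field_simp
    ring
  rw [Finset.sum_const, Finset.card_range, nsmul_eq_mul] at h2
  have h3 : C / μ ^ 2 * (m * (μ / l) ^ m + (μ / l) ^ m) =
      ((m + 1 : ℕ) * (C / μ ^ 2 * μ ^ m)) / l ^ m := by
    rw [div_pow]; push_cast; field_simp
  rw [h3, div_lt_iff₀ (by positivity)] at hm
  linarith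

theorem lower_FF {μ : ℝ} (hμ : 1 ≤ μ) {k : ℕ} (hk : 1 ≤ k) (h : μ ^ k ≤ p k dot) :
    ∃ c : ℝ, 0 < c ∧ ∀ n : ℕ, c * μ ^ n ≤ FF n := by
  have h1 : ∀ q, μ ^ (k * q) ≤ p (k * q) dot := by
    intro q
    induction q with
    | zero => simp [p]
    | succ q ih =>
      have : (p (k * q) dot : ℝ) * p k dot ≤ p (k * q + k) dot := by exact_mod_cast p_mul _ _ _
      rw [Nat.mul_succ, pow_add]
      exact le_trans (by gcongr) this
  refine ⟨(μ ^ k)⁻¹, by positivity, fun n => ?_⟩
  have h2 : (p (k * (n / k)) dot : ℝ) * p (n % k) dot ≤ p n dot := by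
    have := p_mul (k * (n / k)) (n % k) dot
    rw [Nat.div_add_mod] at this
    exact_mod_cast this
  have h3 : (1 : ℝ) ≤ p (n % k) dot := by exact_mod_cast p_dot_pos _
  have h4 : (p n dot : ℝ) ≤ FF n := by exact_mod_cast p_le_FF n
  have h5 : μ ^ n ≤ μ ^ k * μ ^ (k * (n / k)) := by
    rw [← pow_add]
    refine pow_le_pow_right₀ hμ ?_
    have := Nat.div_add_mod n k
    have := Nat.mod_lt n hk
    omega
  have h6 := h1 (n / k)
  rw [inv_mul_le_iff₀ (by positivity)]
  refine h5.trans (mul_le_mul_of_nonneg_left ?_ (by positivity))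
  nlinarith [Nat.cast_nonneg (α := ℝ) (p (k * (n / k)) dot)]

theorem lower_pot {d V : Fo → ℝ} {l μ A D K : ℝ} (hμ : 1 ≤ μ) (hl : μ < l) (hA : 0 < A)
    (hd : ∀ S, 0 < d S) (hdA : ∀ S, d S ≤ A ^ (size S + 1)) (hV : ∀ S, (size S : ℝ) ≤ V S)
    (hD : ∀ S, ∀ S' ∈ succs S, |V S' - V S| ≤ D) (hK : 0 ≤ K)
    (h : ∀ S, S ≠ nil → (V S ≤ K ∧ l * d S ≤ ((succs S).map d).sum) ∨
      ∀ t : ℝ, 0 ≤ t → l * d S ≤ ((succs S).map fun S' => d S' * Real.exp (-(t * (V S' - V S)))).sum) :
    ∃ c : ℝ, 0 < c ∧ ∀ n : ℕ, c * μ ^ n ≤ FF n := by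
  have μ0 : 0 < μ := by linarith
  have l0 : 0 < l := by linarith
  have D0 : 0 ≤ D := (abs_nonneg _).trans (hD nil dot (by simp [succs]))
  obtain ⟨ε, ε0, hε⟩ : ∃ ε : ℝ, 0 < ε ∧ μ < l * Real.exp (-(ε * (D ^ 2 / 2 + K * D))) := by
    have c : ContinuousAt (fun ε : ℝ => l * Real.exp (-(ε * (D ^ 2 / 2 + K * D)))) 0 := by fun_prop
    have e := c.eventually (lt_mem_nhds (show μ < _ by simpa using hl))
    exact ((e.filter_mono nhdsWithin_le_nhds).and (self_mem_nhdsWithin (s := Set.Ioi 0))).exists.imp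
      fun ε h => ⟨h.2, h.1⟩
  have V0 : ∀ S, 0 ≤ V S := fun S => (Nat.cast_nonneg _).trans (hV S)
  suffices hh : ∃ k, 1 ≤ k ∧ μ ^ k ≤ p k dot from hh.elim fun k h => lower_FF hμ h.1 h.2
  refine lower_core (f := fun S => d S * Real.exp (-(ε * V S ^ 2 / 2)))
    (C := A * Real.exp (Real.log (A * μ ^ 2) ^ 2 / (2 * ε))) μ0 hε
    (mul_pos (hd _) (Real.exp_pos _)) (fun S hS => ?_) fun S _ => ?_
  · have e1 : l * Real.exp (-(ε * (D ^ 2 / 2 + K * D))) * (d S * Real.exp (-(ε * V S ^ 2 / 2))) =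
        l * d S * Real.exp (-(ε * (D ^ 2 / 2 + K * D)) - ε * V S ^ 2 / 2) := by
      rw [sub_eq_add_neg, Real.exp_add]; ring
    rw [e1]
    have sq : ∀ x ∈ succs S, (V x - V S) ^ 2 ≤ D ^ 2 := fun x hx => by
      rw [← sq_abs]; exact pow_le_pow_left₀ (abs_nonneg _) (hD S x hx) 2
    rcases h S hS with ⟨h1, h2⟩ | h1
    · refine (mul_le_mul_of_nonneg_right h2 (Real.exp_pos _).le).trans ?_
      rw [← List.sum_map_mul_right]
      refine List.sum_le_sum fun x hx => mul_le_mul_of_nonneg_left (Real.exp_le_exp.2 ?_) (hd x).le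
      have a1 := sq x hx
      have a2 : V S * (V x - V S) ≤ K * D :=
        (mul_le_mul_of_nonneg_left ((le_abs_self _).trans (hD S x hx)) (V0 S)).trans
          (mul_le_mul_of_nonneg_right h1 D0)
      nlinarith
    · refine (mul_le_mul_of_nonneg_right (h1 (ε * V S) (mul_nonneg ε0.le (V0 S)))
        (Real.exp_pos _).le).trans ?_
      rw [← List.sum_map_mul_right]
      refine List.sum_le_sum fun x hx => ?_
      rw [mul_assoc, ← Real.exp_add]
      refine mul_le_mul_of_nonneg_left (Real.exp_le_exp.2 ?_) (hd x).le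
      have a1 := sq x hx
      have a2 := mul_nonneg hK D0
      nlinarith
  · have e1 : A ^ (size S + 1) * μ ^ (2 * size S) =
        A * Real.exp (size S * Real.log (A * μ ^ 2)) := by
      rw [Real.exp_nat_mul, Real.exp_log (by positivity), mul_pow, pow_mul]; ring
    calc d S * Real.exp (-(ε * V S ^ 2 / 2)) * μ ^ (2 * size S)
        ≤ A ^ (size S + 1) * Real.exp (-(ε * (size S : ℝ) ^ 2 / 2)) * μ ^ (2 * size S) := by
          have := hV S
          have := hdA S
          gcongr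
      _ = A * Real.exp (size S * Real.log (A * μ ^ 2) - ε * (size S : ℝ) ^ 2 / 2) := by
          rw [mul_right_comm, e1, sub_eq_add_neg, Real.exp_add]; ring
      _ ≤ _ := by
          refine mul_le_mul_of_nonneg_left (Real.exp_le_exp.2 ?_) hA.le
          rw [le_div_iff₀ (by positivity)]
          nlinarith [sq_nonneg (ε * size S - Real.log (A * μ ^ 2))]

end Pool.Agent.Lib.MP_8a1ce7_co.D
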