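import Pool.Agent.Lib.MP_8a1ce7_co.Fo

set_option autoImplicit false

namespace Pool.Agent.Lib.MP_8a1ce7_co.D

/-- forests whose nodes carry a block of segments -/
inductive LF
  | nil
  | cons (B : List ℕ) (ch rest : LF)
  deriving DecidableEq

namespace LF

def app : LF → LF → LF
  | nil, y => y
  | cons B c r, y => cons B c (app r y)

def shape : LF → Fo
  | nil => .nil
  | cons _ c r => .cons (shape c) (shape r)

def ini : LF → LF
  | nil => nil
  | cons _ _ nil => nil
  | cons B c (cons B' d r) => cons B c (ini (cons B' d r))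

def lst : LF → LF
  | nil => nil
  | cons _ c nil => c
  | cons _ _ (cons B' d r) => lst (cons B' d r)

def llab : LF → List ℕ
  | nil => []
  | cons B _ nil => B
  | cons _ _ (cons B' d r) => llab (cons B' d r)

def lab : LF → List (List ℕ)
  | nil => []
  | cons B c r => B :: (lab c ++ lab r)

def mrg (j : ℕ) (B1 B2 : List ℕ) : List ℕ := if j % 2 = 0 then B2 ++ j :: B1 else B1 ++ j :: B2

@[simp] lemma app_nil (x : LF) : app x nil = x := by
  induction x with
  | nil => rfl
  | cons B c r _ ih => simp [app, ih]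

lemma app_cons_ne (m : LF) (B : List ℕ) (b r : LF) : app m (cons B b r) ≠ nil := by
  cases m <;> simp [app]

lemma shape_app (x y : LF) : shape (app x y) = Fo.app (shape x) (shape y) := by
  induction x with
  | nil => rfl
  | cons B c r _ ih => simp [app, shape, Fo.app, ih]

lemma lab_app (x y : LF) : lab (app x y) = lab x ++ lab y := by
  induction x with
  | nil => rfl
  | cons B c r _ ih => simp [app, lab, ih]

lemma snoc_eq (m : LF) (B : List ℕ) (b : LF) : ini (app m (cons B b nil)) = m ∧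
    lst (app m (cons B b nil)) = b ∧ llab (app m (cons B b nil)) = B := by
  induction m with
  | nil => exact ⟨rfl, rfl, rfl⟩
  | cons B' c r _ ih =>
    cases r with
    | nil => exact ⟨rfl, rfl, rfl⟩
    | cons B'' d r =>
      simp only [app, ini, lst, llab] at ih ⊢
      exact ⟨by rw [ih.1], ih.2⟩

lemma snoc_cases (x : LF) : x = nil ∨ ∃ m B b, x = app m (cons B b nil) := by
  induction x with
  | nil => exact Or.inl rfl
  | cons B c r _ ih =>
    right
    rcases ih with rfl | ⟨m, B', b, rfl⟩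
    · exact ⟨nil, B, c, rfl⟩
    · exact ⟨cons B c m, B', b, rfl⟩

lemma cases3 (T : LF) : T = nil ∨ (∃ B a, T = cons B a nil) ∨
    ∃ B1 a m B2 b, T = cons B1 a (app m (cons B2 b nil)) := by
  cases T with
  | nil => exact Or.inl rfl
  | cons B a r =>
    rcases snoc_cases r with rfl | ⟨m, B', b, rfl⟩
    · exact Or.inr (Or.inl ⟨B, a, rfl⟩)
    · exact Or.inr (Or.inr ⟨B, a, m, B', b, rfl⟩)

def nxt (j : ℕ) (B1 : List ℕ) (a m : LF) (B2 : List ℕ) (b : LF) : LF :=
  app a (cons (mrg j B1 B2) m b)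

def succs (j : ℕ) : LF → List LF
  | nil => [nxt j [] nil nil [] nil]
  | cons B a r => if r = nil then
      [nxt j [] nil (cons B a nil) [] nil, nxt j B a nil [] nil, nxt j [] nil nil B a] else
      [nxt j [] nil (cons B a r) [] nil, nxt j B a r [] nil,
        nxt j [] nil (cons B a (ini r)) (llab r) (lst r), nxt j B a (ini r) (llab r) (lst r)]

lemma succs_one (j : ℕ) (B : List ℕ) (a : LF) : succs j (cons B a nil) =
    [nxt j [] nil (cons B a nil) [] nil, nxt j B a nil [] nil, nxt j [] nil nil B a] := by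
  simp [succs]

lemma succs_two (j : ℕ) (B1 : List ℕ) (a m : LF) (B2 : List ℕ) (b : LF) :
    succs j (cons B1 a (app m (cons B2 b nil))) =
    [nxt j [] nil (cons B1 a (app m (cons B2 b nil))) [] nil,
      nxt j B1 a (app m (cons B2 b nil)) [] nil,
      nxt j [] nil (cons B1 a m) B2 b, nxt j B1 a m B2 b] := by
  simp [succs, app_cons_ne, snoc_eq]

lemma shape_succs (j : ℕ) (T : LF) : (succs j T).map shape = Fo.succs (shape T) := by
  rcases cases3 T with rfl | ⟨B, a, rfl⟩ | ⟨B1, a, m, B2, b, rfl⟩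
  · rfl
  · simp [succs_one, shape, Fo.succs_one, nxt, shape_app, Fo.app, Fo.dot]
  · simp [succs_two, shape, Fo.succs_two, nxt, shape_app, Fo.app]

def opt (B : List ℕ) (a x : LF) : LF := if B = [] then x else cons B a x

/-- the state before a move -/
def pre (B1 : List ℕ) (a m : LF) (B2 : List ℕ) (b : LF) : LF := opt B1 a (app m (opt B2 b nil))

def Step (j : ℕ) (T T' : LF) : Prop := ∃ B1 a m B2 b, (B1 = [] → a = nil) ∧ (B2 = [] → b = nil) ∧
  T = pre B1 a m B2 b ∧ T' = nxt j B1 a m B2 b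

lemma step_of_mem {j : ℕ} {T T' : LF} (hne : ∀ B ∈ lab T, B ≠ []) (h : T' ∈ succs j T) :
    Step j T T' := by
  rcases cases3 T with rfl | ⟨B, a, rfl⟩ | ⟨B1, a, m, B2, b, rfl⟩
  · simp only [succs, List.mem_singleton] at h
    exact ⟨[], nil, nil, [], nil, by simp, by simp, rfl, h⟩
  · have h1 : B ≠ [] := hne B (by simp [lab])
    simp only [succs_one, List.mem_cons, List.not_mem_nil, or_false] at h
    rcases h with h | h | h <;> exact ⟨_, _, _, _, _, by simp [h1], by simp [h1],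
      by simp [pre, opt, h1, app], h⟩
  · have h1 : B1 ≠ [] := hne B1 (by simp [lab])
    have h2 : B2 ≠ [] := hne B2 (by simp [lab, lab_app])
    simp only [succs_two, List.mem_cons, List.not_mem_nil, or_false] at h
    rcases h with h | h | h | h <;> exact ⟨_, _, _, _, _, by simp [h1], by simp [h2],
      by simp [pre, opt, h1, h2, app], h⟩

lemma mem_of_pre (j : ℕ) {B1 : List ℕ} {a : LF} (m : LF) {B2 : List ℕ} {b : LF}
    (h1 : B1 = [] → a = nil) (h2 : B2 = [] → b = nil) :
    nxt j B1 a m B2 b ∈ succs j (pre B1 a m B2 b) := by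
  by_cases e1 : B1 = [] <;> by_cases e2 : B2 = []
  · rw [h1 e1, h2 e2, e1, e2]
    simp only [pre, opt, if_true, app_nil]
    rcases cases3 m with rfl | ⟨B, a, rfl⟩ | ⟨B1, a, m, B2, b, rfl⟩
    · simp [succs]
    · simp [succs_one]
    · simp [succs_two]
  · rw [h1 e1, e1]
    simp only [pre, opt, if_true, if_neg e2]
    cases m with
    | nil => simp [app, succs_one]
    | cons B c r => simp [app, succs_two]
  · rw [h2 e2, e2]
    simp only [pre, opt, if_true, if_neg e1, app_nil]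
    rcases snoc_cases m with rfl | ⟨m, B', b, rfl⟩
    · simp [succs_one]
    · simp [succs_two]
  · simp [pre, opt, e1, e2, succs_two]

lemma mem_lab_pre {B1 : List ℕ} {a m : LF} {B2 : List ℕ} {b : LF}
    (h1 : B1 = [] → a = nil) (h2 : B2 = [] → b = nil) (B : List ℕ) :
    B ∈ lab (pre B1 a m B2 b) ↔ (B1 ≠ [] ∧ B = B1) ∨ (B2 ≠ [] ∧ B = B2) ∨
      B ∈ lab a ∨ B ∈ lab m ∨ B ∈ lab b := by
  by_cases e1 : B1 = [] <;> by_cases e2 : B2 = []
  · simp [pre, opt, e1, e2, h1 e1, h2 e2, lab]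
  · simp [pre, opt, e1, e2, h1 e1, lab, lab_app]; tauto
  · simp [pre, opt, e1, e2, h2 e2, lab]
  · simp [pre, opt, e1, e2, lab, lab_app]; tauto

lemma mem_lab_nxt (j : ℕ) (B1 : List ℕ) (a m : LF) (B2 : List ℕ) (b : LF) (B : List ℕ) :
    B ∈ lab (nxt j B1 a m B2 b) ↔ B = mrg j B1 B2 ∨ B ∈ lab a ∨ B ∈ lab m ∨ B ∈ lab b := by
  simp [nxt, lab, lab_app]; tauto

lemma perm_nxt (j : ℕ) {B1 : List ℕ} {a : LF} (m : LF) {B2 : List ℕ} {b : LF}
    (h1 : B1 = [] → a = nil) (h2 : B2 = [] → b = nil) :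
    (lab (nxt j B1 a m B2 b)).flatten.Perm (j :: (lab (pre B1 a m B2 b)).flatten) := by
  rw [List.perm_iff_count]
  intro x
  by_cases e1 : B1 = [] <;> by_cases e2 : B2 = [] <;> by_cases e3 : j % 2 = 0 <;>
    simp [nxt, pre, opt, mrg, lab, lab_app, List.count_cons, *] <;> omega

lemma app_inj {j : ℕ} {a a' m m' b b' : LF} {M M' : List ℕ} (ha : ∀ B ∈ lab a, j ∉ B)
    (ha' : ∀ B ∈ lab a', j ∉ B) (hM : j ∈ M) (hM' : j ∈ M')
    (h : app a (cons M m b) = app a' (cons M' m' b')) : a = a' ∧ M = M' ∧ m = m' ∧ b = b' := by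
  induction a generalizing a' with
  | nil =>
    cases a' with
    | nil => simpa [app] using h
    | cons B c r =>
      simp only [app, cons.injEq] at h
      exact absurd (h.1 ▸ hM) (ha' B (by simp [lab]))
  | cons B c r _ ih =>
    cases a' with
    | nil =>
      simp only [app, cons.injEq] at h
      exact absurd (h.1 ▸ hM') (ha B (by simp [lab]))
    | cons B' c' r' =>
      simp only [app, cons.injEq] at h
      obtain ⟨h1, h2⟩ := ih (fun X hX => ha X (by simp [lab, hX]))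
        (fun X hX => ha' X (by simp [lab, hX])) h.2.2
      exact ⟨by rw [h.1, h.2.1, h1], h2⟩

lemma split_inj {j : ℕ} {x y x' y' : List ℕ} (hx : j ∉ x) (hx' : j ∉ x')
    (h : x ++ j :: y = x' ++ j :: y') : x = x' ∧ y = y' := by
  induction x generalizing x' with
  | nil =>
    cases x' with
    | nil => simpa using h
    | cons u x' => simp only [List.nil_append, List.cons_append, List.cons.injEq] at h; simp [h.1] at hx'
  | cons u x ih =>
    cases x' with
    | nil => simp only [List.nil_append, List.cons_append, List.cons.injEq] at h; simp [h.1] at hx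
    | cons u' x' =>
      simp only [List.cons_append, List.cons.injEq] at h
      obtain ⟨h1, h2⟩ := ih (fun h => hx (by simp [h])) (fun h => hx' (by simp [h])) h.2
      exact ⟨by rw [h.1, h1], h2⟩

lemma mem_mrg (j : ℕ) (B1 B2 : List ℕ) (x : ℕ) : x ∈ mrg j B1 B2 ↔ x = j ∨ x ∈ B1 ∨ x ∈ B2 := by
  unfold mrg; split_ifs <;> simp <;> tauto

lemma nxt_inj {j : ℕ} {B1 B2 B1' B2' : List ℕ} {a a' m m' b b' : LF} (ha : ∀ B ∈ lab a, j ∉ B)
    (ha' : ∀ B ∈ lab a', j ∉ B) (h1 : j ∉ B1) (h2 : j ∉ B2) (h1' : j ∉ B1') (h2' : j ∉ B2')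
    (h : nxt j B1 a m B2 b = nxt j B1' a' m' B2' b') :
    B1 = B1' ∧ B2 = B2' ∧ a = a' ∧ m = m' ∧ b = b' := by
  obtain ⟨e1, e2, e3, e4⟩ := app_inj ha ha' (by simp [mem_mrg]) (by simp [mem_mrg]) h
  unfold mrg at e2
  split_ifs at e2
  · obtain ⟨a, b⟩ := split_inj h2 h2' e2
    exact ⟨b, a, e1, e3, e4⟩
  · obtain ⟨a, b⟩ := split_inj h1 h1' e2
    exact ⟨a, b, e1, e3, e4⟩

/-- all labelled states at time `j` -/
def St : ℕ → List LF
  | 0 => [nil]
  | j + 1 => (St j).flatMap (succs j)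

lemma sum_St (j m : ℕ) : ((St j).map fun T => Fo.p m (shape T)).sum = Fo.p (j + m) .nil := by
  induction j generalizing m with
  | zero => simp [St, shape]
  | succ j ih =>
    rw [Nat.add_right_comm, Nat.add_assoc, ← ih, St, List.map_flatMap, List.flatMap_def,
      List.sum_flatten, List.map_map]
    congr 1
    refine List.map_congr_left fun T _ => ?_
    rw [Fo.p, ← shape_succs j, List.map_map]
    rfl

structure Base (j : ℕ) (T : LF) : Prop where
  ne : ∀ B ∈ lab T, B ≠ []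
  perm : (lab T).flatten.Perm (List.range j)

lemma Base.lt {j : ℕ} {T : LF} (h : Base j T) {B : List ℕ} (hB : B ∈ lab T) {x : ℕ} (hx : x ∈ B) :
    x < j := List.mem_range.1 (h.perm.subset (List.mem_flatten.2 ⟨B, hB, hx⟩))

lemma Base.step {j : ℕ} {T T' : LF} (h : Base j T) (s : Step j T T') : Base (j + 1) T' := by
  obtain ⟨B1, a, m, B2, b, h1, h2, rfl, rfl⟩ := s
  constructor
  · intro B hB
    rcases (mem_lab_nxt ..).1 hB with rfl | hB
    · exact List.ne_nil_of_mem ((mem_mrg j B1 B2 j).2 (Or.inl rfl))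
    · exact h.ne B ((mem_lab_pre h1 h2 B).2 (Or.inr (Or.inr hB)))
  · refine (perm_nxt j m h1 h2).trans ?_
    rw [List.range_succ]
    exact (h.perm.cons j).trans (List.perm_append_singleton _ _).symm

lemma St_ind {P : ℕ → LF → Prop} (h0 : P 0 nil)
    (hs : ∀ j T T', Base j T → P j T → Step j T T' → P (j + 1) T') :
    ∀ j, ∀ T ∈ St j, Base j T ∧ P j T := by
  intro j
  induction j with
  | zero =>
    intro T hT
    simp only [St, List.mem_singleton] at hT
    subst hT
    exact ⟨⟨by simp [lab], by simp [lab]⟩, h0⟩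
  | succ j ih =>
    intro T' hT'
    obtain ⟨T, hT, h⟩ := List.mem_flatMap.1 hT'
    obtain ⟨b, p⟩ := ih T hT
    have s := step_of_mem b.ne h
    exact ⟨b.step s, hs j T T' b p s⟩

lemma St_base {j : ℕ} {T : LF} (h : T ∈ St j) : Base j T :=
  (St_ind (P := fun _ _ => True) trivial (fun _ _ _ _ _ _ => trivial) j T h).1

lemma Base.notMem {j : ℕ} {B1 B2 : List ℕ} {a m b : LF} (h : Base j (pre B1 a m B2 b))
    (h1 : B1 = [] → a = nil) (h2 : B2 = [] → b = nil) :
    (∀ B ∈ lab a, j ∉ B) ∧ j ∉ B1 ∧ j ∉ B2 := by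
  refine ⟨fun B hB hj => ?_, fun hj => ?_, fun hj => ?_⟩
  · exact lt_irrefl _ (h.lt ((mem_lab_pre h1 h2 B).2 (by simp [hB])) hj)
  · exact lt_irrefl _ (h.lt ((mem_lab_pre h1 h2 B1).2 (by simp [List.ne_nil_of_mem hj])) hj)
  · exact lt_irrefl _ (h.lt ((mem_lab_pre h1 h2 B2).2 (by simp [List.ne_nil_of_mem hj])) hj)

lemma Step.back {j : ℕ} {T1 T2 T' : LF} (b1 : Base j T1) (b2 : Base j T2) (s1 : Step j T1 T')
    (s2 : Step j T2 T') : T1 = T2 := by
  obtain ⟨B1, a, m, B2, b, h1, h2, rfl, rfl⟩ := s1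
  obtain ⟨B1', a', m', B2', b', h1', h2', rfl, e⟩ := s2
  obtain ⟨n1, n2, n3⟩ := b1.notMem h1 h2
  obtain ⟨n1', n2', n3'⟩ := b2.notMem h1' h2'
  obtain ⟨rfl, rfl, rfl, rfl, rfl⟩ := nxt_inj n1 n1' n2 n3 n2' n3' e
  rfl

lemma succs_nodup {j : ℕ} {T : LF} (h : Base j T) : (succs j T).Nodup := by
  have z : ∀ B ∈ lab nil, j ∉ B := by simp [lab]
  have z' : j ∉ ([] : List ℕ) := by simp
  rcases cases3 T with rfl | ⟨B, a, rfl⟩ | ⟨B1, a, m, B2, b, rfl⟩
  · simp [succs]
  · have h1 : B ≠ [] := h.ne B (by simp [lab])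
    have n1 : ∀ X ∈ lab a, j ∉ X := fun X hX hj => lt_irrefl _ (h.lt (by simp [lab, hX]) hj)
    have n2 : j ∉ B := fun hj => lt_irrefl _ (h.lt (by simp [lab]) hj)
    simp only [succs_one, List.nodup_cons, List.mem_cons, List.not_mem_nil, or_false, not_or,
      not_false_eq_true, List.nodup_nil, and_true]
    refine ⟨⟨fun e => ?_, fun e => ?_⟩, fun e => ?_⟩
    · exact h1 (nxt_inj z n1 z' z' n2 z' e).1.symm
    · exact h1 (nxt_inj z z z' z' z' n2 e).2.1.symm
    · exact h1 (nxt_inj n1 z n2 z' z' n2 e).1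
  · have h1 : B1 ≠ [] := h.ne B1 (by simp [lab])
    have h2 : B2 ≠ [] := h.ne B2 (by simp [lab, lab_app])
    have n1 : ∀ X ∈ lab a, j ∉ X := fun X hX hj => lt_irrefl _ (h.lt (by simp [lab, hX]) hj)
    have n2 : j ∉ B1 := fun hj => lt_irrefl _ (h.lt (by simp [lab]) hj)
    have n3 : j ∉ B2 := fun hj => lt_irrefl _ (h.lt (by simp [lab, lab_app]) hj)
    simp only [succs_two, List.nodup_cons, List.mem_cons, List.not_mem_nil, or_false, not_or,
      not_false_eq_true, List.nodup_nil, and_true]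
    refine ⟨⟨fun e => ?_, fun e => ?_, fun e => ?_⟩, ⟨fun e => ?_, fun e => ?_⟩, fun e => ?_⟩
    · exact h1 (nxt_inj z n1 z' z' n2 z' e).1.symm
    · exact h2 (nxt_inj z z z' z' z' n3 e).2.1.symm
    · exact h1 (nxt_inj z n1 z' z' n2 n3 e).1.symm
    · exact h1 (nxt_inj n1 z n2 z' z' n3 e).1
    · exact h2 (nxt_inj n1 n1 n2 z' n2 n3 e).2.1.symm
    · exact h1 (nxt_inj z n1 z' n3 n2 n3 e).1.symm

lemma St_nodup (j : ℕ) : (St j).Nodup := by
  induction j with
  | zero => simp [St]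
  | succ j ih =>
    rw [St, List.nodup_flatMap]
    refine ⟨fun T hT => succs_nodup (St_base hT), ?_⟩
    refine ih.pairwise_of_forall_ne fun T1 h1 T2 h2 hne => ?_
    intro T' s1 s2
    exact hne (Step.back (St_base h1) (St_base h2) (step_of_mem (St_base h1).ne s1)
      (step_of_mem (St_base h2).ne s2))

end LF

end Pool.Agent.Lib.MP_8a1ce7_co.D
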