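import Pool.Agent.Lib.MP_8a1ce7_co.Word

set_option autoImplicit false

namespace Pool.Agent.Lib.MP_8a1ce7_co.D

namespace LF

lemma find_left {e : Bool} {T : LF} {x : ℤ} (hs : (word e T).Pairwise (· < ·)) (hx : x ∈ word e T)
    (hm : ∀ z ∈ word e T, x ≤ z) : ∃ B a r, T = cons B a r ∧ fl e B = x := by
  cases T with
  | nil => simp [word] at hx
  | cons B a r =>
    refine ⟨B, a, r, rfl, le_antisymm ?_ (hm _ (by simp [word]))⟩
    rw [word] at hs hx
    rcases List.mem_cons.1 hx with h | h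
    · exact h.ge
    · exact ((List.pairwise_cons.1 hs).1 x h).le

lemma find_right {e : Bool} {T : LF} {x : ℤ} (hs : (word e T).Pairwise (· < ·)) (hx : x ∈ word e T)
    (hm : ∀ z ∈ word e T, z ≤ x) : ∃ m B b, T = app m (cons B b nil) ∧ fl (!e) B = x := by
  rcases snoc_cases T with rfl | ⟨m, B, b, rfl⟩
  · simp [word] at hx
  · refine ⟨m, B, b, rfl, le_antisymm (hm _ (by simp [word, word_app])) ?_⟩
    have e1 : word e (app m (cons B b nil)) =
        (word e m ++ fl e B :: word (!e) b) ++ [fl (!e) B] := by simp [word, word_app]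
    rw [e1] at hs hx
    rcases List.mem_append.1 hx with h | h
    · exact ((List.pairwise_append.1 hs).2.2 x h _ (by simp)).le
    · exact (List.mem_singleton.1 h).le

lemma decomp {e : Bool} {T : LF} {x1 x2 : ℤ} (PL PR : Prop) (hne : ∀ B ∈ lab T, B ≠ [])
    (hs : (word e T).Pairwise (· < ·)) (hL : PL → x1 ∈ word e T ∧ ∀ z ∈ word e T, x1 ≤ z)
    (hR : PR → x2 ∈ word e T ∧ ∀ z ∈ word e T, z ≤ x2)
    (hB : PL → PR → ∀ B ∈ lab T, fl e B = x1 → fl (!e) B = x2 → False) :
    ∃ B1 a m B2 b, (B1 = [] → a = nil) ∧ (B2 = [] → b = nil) ∧ T = pre B1 a m B2 b ∧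
      ((PL ∧ B1 ≠ [] ∧ fl e B1 = x1) ∨ (¬PL ∧ B1 = [])) ∧
      ((PR ∧ B2 ≠ [] ∧ fl (!e) B2 = x2) ∨ (¬PR ∧ B2 = [])) := by
  by_cases pl : PL <;> by_cases pr : PR
  · obtain ⟨B1, a, r, rfl, f1⟩ := find_left hs (hL pl).1 (hL pl).2
    obtain ⟨m, B2, b, e2, f2⟩ := find_right hs (hR pr).1 (hR pr).2
    have n1 : B1 ≠ [] := hne _ (by simp [lab])
    have n2 : B2 ≠ [] := hne _ (by rw [e2]; simp [lab, lab_app])
    cases m with
    | nil =>
      simp only [app, cons.injEq] at e2
      exact (hB pl pr B1 (by simp [lab]) f1 (e2.1 ▸ f2)).elim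
    | cons B c m =>
      simp only [app, cons.injEq] at e2
      exact ⟨B1, a, m, B2, b, by simp [n1], by simp [n2], by simp [pre, opt, n1, n2, e2.2.2],
        Or.inl ⟨pl, n1, f1⟩, Or.inl ⟨pr, n2, f2⟩⟩
  · obtain ⟨B1, a, r, rfl, f1⟩ := find_left hs (hL pl).1 (hL pl).2
    have n1 : B1 ≠ [] := hne _ (by simp [lab])
    exact ⟨B1, a, r, [], nil, by simp [n1], by simp, by simp [pre, opt, n1],
      Or.inl ⟨pl, n1, f1⟩, Or.inr ⟨pr, rfl⟩⟩
  · obtain ⟨m, B2, b, rfl, f2⟩ := find_right hs (hR pr).1 (hR pr).2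
    have n2 : B2 ≠ [] := hne _ (by simp [lab, lab_app])
    exact ⟨[], nil, m, B2, b, by simp, by simp [n2], by simp [pre, opt, n2],
      Or.inr ⟨pl, rfl⟩, Or.inl ⟨pr, n2, f2⟩⟩
  · exact ⟨[], nil, T, [], nil, by simp, by simp, by simp [pre, opt], Or.inr ⟨pl, rfl⟩,
      Or.inr ⟨pr, rfl⟩⟩

def Mx (n : ℕ) (G : ℕ → ℕ) (j : ℕ) (B : List ℕ) : Prop := ∃ a l, B = (List.range' a (l + 1)).map G ∧
  1 ≤ a ∧ a + l ≤ n ∧ j ≤ G (a - 1) ∧ j ≤ G (a + l + 1)

lemma fl_blk (G : ℕ → ℕ) (a l : ℕ) : fl true ((List.range' a (l + 1)).map G) = tp (G (a + l)) ∧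
    fl false ((List.range' a (l + 1)).map G) = bt (G a) := by
  constructor
  · rw [List.range'_concat, List.map_append, List.map_singleton]
    simp only [fl, if_true, List.getLastD_concat, one_mul]
  · simp [fl, List.range'_succ]

lemma tp_inj {a b : ℕ} (h : tp a = tp b) : a = b := by rw [← seg_tp a, h, seg_tp]
lemma bt_inj {a b : ℕ} (h : bt a = bt b) : a = b := by rw [← seg_bt a, h, seg_bt]
lemma tp_out {k j : ℕ} (h : j ≤ k) : tp k ≤ -(j : ℤ) - 1 ∨ (j : ℤ) ≤ tp k := by
  unfold tp; split_ifs <;> omega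
lemma bt_out {k j : ℕ} (h : j ≤ k) : bt k ≤ -(j : ℤ) - 1 ∨ (j : ℤ) ≤ bt k := by
  unfold bt; split_ifs <;> omega

variable {n : ℕ} {H G : ℕ → ℕ}

theorem up_step (I : Inv n H G) (h0 : G 0 = n) (hw : G (n + 1) = n) (hC : CreaseNC n H) {j : ℕ}
    (hj : j < n) {T : LF} (hT : T ∈ St j) (hM : ∀ B ∈ lab T, Mx n G j B) :
    ∃ T' ∈ St (j + 1), ∀ B ∈ lab T', Mx n G (j + 1) B := by
  have hb := St_base hT
  have hs := (St_pl hT).srt
  obtain ⟨y, hyn, hy⟩ : ∃ y, y ≤ n ∧ G y = j := ⟨H j, I.hH j hj.le⟩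
  have y1 : 1 ≤ y := by
    rcases Nat.eq_zero_or_pos y with h | h
    · rw [h, h0] at hy; omega
    · exact h
  have inj : ∀ a b, a ≤ n + 1 → b ≤ n + 1 → G a = G b → G a < n → a = b := by
    intro a b ha hb' h hlt
    have a1 : a ≠ n + 1 := fun e => by rw [e, hw] at hlt; omega
    have b1 : b ≠ n + 1 := fun e => by rw [h, e, hw] at hlt; omega
    exact I.injG (by omega) (by omega) h
  have blt : ∀ B ∈ lab T, ∀ a l, B = (List.range' a (l + 1)).map G → ∀ t, a ≤ t → t ≤ a + l →
      G t < j := fun B hB a l e t h1 h2 =>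
    hb.lt hB (e ▸ List.mem_map_of_mem (List.mem_range'_1.2 ⟨h1, by omega⟩))
  have cov : ∀ t, t ≤ n → G t < j → ∃ B ∈ lab T, ∃ a l, B = (List.range' a (l + 1)).map G ∧
      a ≤ t ∧ t ≤ a + l := by
    intro t ht hlt
    obtain ⟨B, hB, hx⟩ := List.mem_flatten.1 (hb.perm.symm.subset (List.mem_range.2 hlt))
    obtain ⟨a, l, e, _, h2, _⟩ := hM B hB
    rw [e] at hx
    obtain ⟨t', h3, h4⟩ := List.mem_map.1 hx
    have h5 := List.mem_range'_1.1 h3
    have : t' = t := I.injG (by omega) ht h4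
    exact ⟨B, hB, a, l, e, by omega, by omega⟩
  have let' : ∀ z ∈ word (par j) T, ∃ t ≤ n, (z = tp (G t) ∧ G t < j ∧ j ≤ G (t + 1)) ∨
      (z = bt (G (t + 1)) ∧ G (t + 1) < j ∧ j ≤ G t) := by
    intro z hz
    obtain ⟨B, hB, e', rfl⟩ := mem_word hz
    obtain ⟨a, l, e, h1, h2, h3, h4⟩ := hM B hB
    cases e'
    · refine ⟨a - 1, by omega, Or.inr ?_⟩
      rw [show a - 1 + 1 = a by omega, e, (fl_blk G a l).2]
      exact ⟨rfl, blt B hB a l e a le_rfl (by omega), h3⟩
    · refine ⟨a + l, h2, Or.inl ?_⟩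
      rw [e, (fl_blk G a l).1]
      exact ⟨rfl, blt B hB a l e _ (by omega) le_rfl, h4⟩
  have up : G (y + 1) < j → bt (G (y + 1)) ∈ word (par j) T ∧ ∀ z ∈ word (par j) T,
      (j % 2 = 0 → bt (G (y + 1)) ≤ z) ∧ (j % 2 = 1 → z ≤ bt (G (y + 1))) := by
    intro hu
    have hyl : y < n := by
      rcases eq_or_lt_of_le hyn with h | h
      · rw [h, hw] at hu; omega
      · exact h
    constructor
    · obtain ⟨B, hB, a, l, e, h1, h2⟩ := cov (y + 1) hyl hu
      have : a = y + 1 := by
        by_contra hne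
        have := blt B hB a l e y (by omega) (by omega)
        omega
      rw [← this, ← (fl_blk G a l).2, ← e]
      exact fl_mem hB _ _
    · intro z hz
      have b0 := bt_bd hu
      have b1 := hs.2 z hz
      obtain ⟨t, ht, ⟨rfl, h1, h2⟩ | ⟨rfl, h1, h2⟩⟩ := let' z hz
      · have hne : y ≠ t := fun e => by rw [← e, hy] at h1; omega
        have nc := arcs_of_creases I (hw.trans h0.symm) hC hyl ht hne
        have := bt_out h2
        have := bt_even (G (t + 1))
        have := bt_even (G (y + 1))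
        have := tp_odd (G t)
        rw [hy] at nc
        unfold NC at nc
        have e : tp j = if j % 2 = 0 then -(j : ℤ) - 1 else j := rfl
        split_ifs at e <;> omega
      · by_cases hne : y = t
        · rw [hne]; simp
        have nc := arcs_of_creases I (hw.trans h0.symm) hC hyl ht hne
        have := tp_out h2
        have : tp (G t) ≠ tp j := fun e => hne (I.injG hyn ht (hy.trans (tp_inj e).symm))
        have : bt (G (t + 1)) ≠ bt (G (y + 1)) := fun e => hne (by
          have := inj _ _ (by omega) (by omega) (bt_inj e) (by omega); omega)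
        rw [hy] at nc
        unfold NC at nc
        have e : tp j = if j % 2 = 0 then -(j : ℤ) - 1 else j := rfl
        split_ifs at e <;> omega
  have dn : G (y - 1) < j → tp (G (y - 1)) ∈ word (par j) T ∧ ∀ z ∈ word (par j) T,
      (j % 2 = 1 → tp (G (y - 1)) ≤ z) ∧ (j % 2 = 0 → z ≤ tp (G (y - 1))) := by
    intro hu
    have ey : y - 1 + 1 = y := by omega
    constructor
    · obtain ⟨B, hB, a, l, e, h1, h2⟩ := cov (y - 1) (by omega) hu
      have : a + l = y - 1 := by
        by_contra hne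
        have := blt B hB a l e y (by omega) (by omega)
        omega
      rw [← this, ← (fl_blk G a l).1, ← e]
      exact fl_mem hB _ _
    · intro z hz
      have b0 := tp_bd hu
      have b1 := hs.2 z hz
      obtain ⟨t, ht, ⟨rfl, h1, h2⟩ | ⟨rfl, h1, h2⟩⟩ := let' z hz
      · by_cases hne : y - 1 = t
        · rw [hne]; simp
        have nc := arcs_of_creases I (hw.trans h0.symm) hC (show y - 1 < n by omega) ht hne
        have := bt_out h2
        have : bt (G (t + 1)) ≠ bt j := fun e => hne (by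
          have := inj y (t + 1) (by omega) (by omega) (hy.trans (bt_inj e).symm) (by omega); omega)
        have : tp (G t) ≠ tp (G (y - 1)) := fun e => hne (I.injG (by omega) ht (tp_inj e).symm)
        rw [ey, hy] at nc
        unfold NC at nc
        have e : bt j = if j % 2 = 0 then (j : ℤ) else -(j : ℤ) - 1 := rfl
        split_ifs at e <;> omega
      · have hne : y - 1 ≠ t := fun e => by rw [← e, ey, hy] at h1; omega
        have nc := arcs_of_creases I (hw.trans h0.symm) hC (show y - 1 < n by omega) ht hne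
        have := tp_out h2
        have := bt_even (G (t + 1))
        have := bt_even j
        have := tp_odd (G (y - 1))
        have := tp_odd (G t)
        rw [ey, hy] at nc
        unfold NC at nc
        have e : bt j = if j % 2 = 0 then (j : ℤ) else -(j : ℤ) - 1 := rfl
        split_ifs at e <;> omega
  have both : G (y + 1) < j → G (y - 1) < j → ∀ B ∈ lab T, fl false B = bt (G (y + 1)) →
      fl true B = tp (G (y - 1)) → False := by
    intro u1 u2 B hB f1 f2
    obtain ⟨a, l, e, h1, h2, _⟩ := hM B hB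
    rw [e, (fl_blk G a l).2] at f1
    rw [e, (fl_blk G a l).1] at f2
    have := inj _ _ (by omega) (by omega) (bt_inj f1).symm (by omega)
    have := inj _ _ (by omega) (by omega) (tp_inj f2).symm (by omega)
    omega
  have fin : ∀ Bu Bd : List ℕ, (Bu ≠ [] → Bu ∈ lab T) → (Bd ≠ [] → Bd ∈ lab T) →
      ((G (y + 1) < j ∧ Bu ≠ [] ∧ fl false Bu = bt (G (y + 1))) ∨ (¬G (y + 1) < j ∧ Bu = [])) →
      ((G (y - 1) < j ∧ Bd ≠ [] ∧ fl true Bd = tp (G (y - 1))) ∨ (¬G (y - 1) < j ∧ Bd = [])) →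
      Mx n G (j + 1) (Bd ++ j :: Bu) := by
    intro Bu Bd m1 m2 u d
    obtain ⟨lu, e1, u1, u2⟩ : ∃ lu, Bu = (List.range' (y + 1) lu).map G ∧ y + lu ≤ n ∧
        j ≤ G (y + lu + 1) := by
      rcases u with ⟨u1, u2, u3⟩ | ⟨u1, rfl⟩
      · obtain ⟨a, l, e, h1, h2, h3, h4⟩ := hM Bu (m1 u2)
        rw [e, (fl_blk G a l).2] at u3
        have := inj _ _ (by omega) (by omega) (bt_inj u3).symm (by omega)
        subst this
        exact ⟨l + 1, e, by omega, by rw [show y + (l + 1) + 1 = y + 1 + l + 1 by ring]; exact h4⟩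
      · exact ⟨0, rfl, hyn, by simpa using u1⟩
    obtain ⟨a, e2, d1, d2, d3⟩ : ∃ a, Bd = (List.range' a (y - a)).map G ∧ 1 ≤ a ∧ a ≤ y ∧
        j ≤ G (a - 1) := by
      rcases d with ⟨u1, u2, u3⟩ | ⟨u1, rfl⟩
      · obtain ⟨a, l, e, h1, h2, h3, h4⟩ := hM Bd (m2 u2)
        rw [e, (fl_blk G a l).1] at u3
        have := inj _ _ (by omega) (by omega) (tp_inj u3).symm (by omega)
        exact ⟨a, by rw [show y - a = l + 1 by omega]; exact e, h1, by omega, h3⟩
      · exact ⟨y, by simp, y1, le_rfl, by omega⟩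
    refine ⟨a, y - a + lu, ?_, d1, by omega, ?_, ?_⟩
    · rw [e1, e2, ← hy, show y - a + lu + 1 = (y - a) + (lu + 1) by ring, ← List.range'_append_1,
        List.map_append, show a + (y - a) = y by omega, List.range'_succ, List.map_cons]
    · have : G (a - 1) ≠ j := fun e => by
        have := inj y (a - 1) (by omega) (by omega) (hy.trans e.symm) (by omega); omega
      omega
    · rw [show a + (y - a + lu) + 1 = y + lu + 1 by omega]
      have : G (y + lu + 1) ≠ j := fun e => by
        have := inj y (y + lu + 1) (by omega) (by omega) (hy.trans e.symm) (by omega); omega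
      omega
  have old : ∀ B ∈ lab T, (G (y + 1) < j → fl false B ≠ bt (G (y + 1))) →
      (G (y - 1) < j → fl true B ≠ tp (G (y - 1))) → Mx n G (j + 1) B := by
    intro B hB o1 o2
    obtain ⟨a, l, e, h1, h2, h3, h4⟩ := hM B hB
    refine ⟨a, l, e, h1, h2, ?_, ?_⟩
    · have : G (a - 1) ≠ j := fun e' => by
        have := inj y (a - 1) (by omega) (by omega) (hy.trans e'.symm) (by omega)
        have e3 : y + 1 = a := by omega
        rw [e3] at o1
        exact o1 (blt B hB a l e a le_rfl (by omega)) (by rw [e, (fl_blk G a l).2])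
      omega
    · have : G (a + l + 1) ≠ j := fun e' => by
        have := inj y (a + l + 1) (by omega) (by omega) (hy.trans e'.symm) (by omega)
        have e3 : y - 1 = a + l := by omega
        rw [e3] at o2
        exact o2 (blt B hB a l e _ (by omega) le_rfl) (by rw [e, (fl_blk G a l).1])
      omega
  have last : ∀ B1 a m B2 b, (B1 = [] → a = nil) → (B2 = [] → b = nil) → T = pre B1 a m B2 b →
      nxt j B1 a m B2 b ∈ St (j + 1) ∧ (B1 ≠ [] → B1 ∈ lab T) ∧ (B2 ≠ [] → B2 ∈ lab T) ∧
      ∀ B, B ∈ lab a ∨ B ∈ lab m ∨ B ∈ lab b → B ∈ lab T ∧ ∀ e,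
        (B1 ≠ [] → fl e B ≠ fl (par j) B1) ∧ (B2 ≠ [] → fl e B ≠ fl (!par j) B2) := by
    rintro B1 a m B2 b h1 h2 rfl
    refine ⟨List.mem_flatMap.2 ⟨_, hT, mem_of_pre j m h1 h2⟩,
      fun e => (mem_lab_pre h1 h2 _).2 (by simp [e]),
      fun e => (mem_lab_pre h1 h2 _).2 (by simp [e]), fun B hB =>
      ⟨(mem_lab_pre h1 h2 _).2 (Or.inr (Or.inr hB)), fun e => ?_⟩⟩
    obtain ⟨core, w1, -, w3⟩ := word_step j m h1 h2
    have s1 := hs.1
    rw [w1] at s1
    have := w3 B hB e
    constructor <;> intro e' <;>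
      simp only [if_neg e', List.pairwise_append, List.mem_append, List.mem_singleton] at s1
    · exact (s1.1.2.2 _ rfl _ this).ne'
    · exact (s1.2.2 _ (Or.inr this) _ rfl).ne
  rcases Nat.mod_two_eq_zero_or_one j with hp | hp
  · have ep : par j = false := by simp [par, hp]
    obtain ⟨B1, a, m, B2, b, h1, h2, eT, c1, c2⟩ := decomp (G (y + 1) < j) (G (y - 1) < j) hb.ne hs.1
      (fun h => ⟨(up h).1, fun z hz => ((up h).2 z hz).1 hp⟩)
      (fun h => ⟨(dn h).1, fun z hz => ((dn h).2 z hz).2 hp⟩)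
      (by rw [ep]; exact both)
    obtain ⟨l1, l2, l3, l4⟩ := last B1 a m B2 b h1 h2 eT
    rw [ep] at c1 c2 l4
    refine ⟨_, l1, fun B hB => ?_⟩
    rcases (mem_lab_nxt ..).1 hB with rfl | hB
    · rw [mrg, if_pos hp]; exact fin B1 B2 l2 l3 c1 c2
    · refine old B (l4 B hB).1 (fun h => ?_) fun h => ?_
      · rcases c1 with c | c
        · rw [← c.2.2]; exact ((l4 B hB).2 _).1 c.2.1
        · exact absurd h c.1
      · rcases c2 with c | c
        · rw [← c.2.2]; exact ((l4 B hB).2 _).2 c.2.1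
        · exact absurd h c.1
  · have ep : par j = true := by simp [par, hp]
    obtain ⟨B1, a, m, B2, b, h1, h2, eT, c1, c2⟩ := decomp (G (y - 1) < j) (G (y + 1) < j) hb.ne hs.1
      (fun h => ⟨(dn h).1, fun z hz => ((dn h).2 z hz).1 hp⟩)
      (fun h => ⟨(up h).1, fun z hz => ((up h).2 z hz).2 hp⟩)
      (by rw [ep]; exact fun h1 h2 B hB f1 f2 => both h2 h1 B hB f2 f1)
    obtain ⟨l1, l2, l3, l4⟩ := last B1 a m B2 b h1 h2 eT
    rw [ep] at c1 c2 l4
    refine ⟨_, l1, fun B hB => ?_⟩
    rcases (mem_lab_nxt ..).1 hB with rfl | hB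
    · rw [mrg, if_neg (by omega)]; exact fin B2 B1 l3 l2 c2 c1
    · refine old B (l4 B hB).1 (fun h => ?_) fun h => ?_
      · rcases c2 with c | c
        · rw [← c.2.2]; exact ((l4 B hB).2 _).2 c.2.1
        · exact absurd h c.1
      · rcases c1 with c | c
        · rw [← c.2.2]; exact ((l4 B hB).2 _).1 c.2.1
        · exact absurd h c.1

/-- a folding with the last segment at the bottom gives a path -/
theorem St_of_fold (I : Inv n H G) (h0 : G 0 = n) (hw : G (n + 1) = n) (hC : CreaseNC n H)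
    (hn : 1 ≤ n) : cons ((List.range' 1 n).map G) nil nil ∈ St n := by
  have key : ∀ j ≤ n, ∃ T ∈ St j, ∀ B ∈ lab T, Mx n G j B := by
    intro j
    induction j with
    | zero => exact fun _ => ⟨nil, by simp [St], by simp [lab]⟩
    | succ j ih =>
      intro hj
      obtain ⟨T, hT, hM⟩ := ih (by omega)
      exact up_step I h0 hw hC hj hT hM
  obtain ⟨T, hT, hM⟩ := key n le_rfl
  have hb := St_base hT
  have all : ∀ B ∈ lab T, B = (List.range' 1 n).map G := by
    intro B hB
    obtain ⟨a, l, e, h1, h2, h3, h4⟩ := hM B hB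
    have a1 : a - 1 = 0 := I.injG (by omega) (Nat.zero_le _)
      (by have := (I.hG (a - 1) (by omega)).1; omega)
    have a2 : a + l = n := by
      by_contra hne
      have := I.injG (show a + l + 1 ≤ n by omega) (Nat.zero_le _)
        (by have := (I.hG (a + l + 1) (by omega)).1; omega)
      omega
    rw [e, show a = 1 by omega, show l + 1 = n by omega]
  have hl := hb.perm.length_eq
  have z : ∀ X : LF, (∀ B ∈ lab X, B ≠ []) → (lab X).flatten.length = 0 → X = nil := by
    intro X h1 h2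
    cases X with
    | nil => rfl
    | cons B c r =>
      have := List.length_pos_of_ne_nil (h1 B (by simp [lab]))
      simp only [lab, List.flatten_cons, List.length_append] at h2
      omega
  cases T with
  | nil => simp [lab] at hl; omega
  | cons B c r =>
    have e := all B (by simp [lab])
    subst e
    simp only [lab, List.flatten_cons, List.flatten_append, List.length_append, List.length_map,
      List.length_range', List.length_range] at hl
    rw [z c (fun X hX => hb.ne X (by simp [lab, hX])) (by omega),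
      z r (fun X hX => hb.ne X (by simp [lab, hX])) (by omega)] at hT
    exact hT

end LF

end Pool.Agent.Lib.MP_8a1ce7_co.D
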