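import Pool.Agent.Lib.MP_8a1ce7_co.Part0
import Pool.Agent.Lib.MP_8a1ce7_co.Part1


set_option autoImplicit false
set_option maxRecDepth 100000

namespace Pool.Agent.Lib.MP_8a1ce7_co

theorem cert_all : ∀ u, u < 24155 → ∃ tg, chkE tabT 24155 98805389208100 99400900000000 100000000000000 354861213000000 (entK tabT u) tg = true := by
  intro u hu
  by_cases h0 : u < 1536
  · exact allK_spec _ _ _ _ _ _ _ _ _ part0 u (by omega) (by omega) hu
  by_cases h24 : u < 3072
  · exact allK_spec _ _ _ _ _ _ _ _ _ part24 u (by omega) (by omega) hu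
  by_cases h48 : u < 4608
  · exact allK_spec _ _ _ _ _ _ _ _ _ part48 u (by omega) (by omega) hu
  by_cases h72 : u < 6144
  · exact allK_spec _ _ _ _ _ _ _ _ _ part72 u (by omega) (by omega) hu
  by_cases h96 : u < 7680
  · exact allK_spec _ _ _ _ _ _ _ _ _ part96 u (by omega) (by omega) hu
  by_cases h120 : u < 9216
  · exact allK_spec _ _ _ _ _ _ _ _ _ part120 u (by omega) (by omega) hu
  by_cases h144 : u < 10752
  · exact allK_spec _ _ _ _ _ _ _ _ _ part144 u (by omega) (by omega) hu
  by_cases h168 : u < 12288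
  · exact allK_spec _ _ _ _ _ _ _ _ _ part168 u (by omega) (by omega) hu
  by_cases h192 : u < 13824
  · exact allK_spec _ _ _ _ _ _ _ _ _ part192 u (by omega) (by omega) hu
  by_cases h216 : u < 15360
  · exact allK_spec _ _ _ _ _ _ _ _ _ part216 u (by omega) (by omega) hu
  by_cases h240 : u < 16896
  · exact allK_spec _ _ _ _ _ _ _ _ _ part240 u (by omega) (by omega) hu
  by_cases h264 : u < 18432
  · exact allK_spec _ _ _ _ _ _ _ _ _ part264 u (by omega) (by omega) hu
  by_cases h288 : u < 19968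
  · exact allK_spec _ _ _ _ _ _ _ _ _ part288 u (by omega) (by omega) hu
  by_cases h312 : u < 21504
  · exact allK_spec _ _ _ _ _ _ _ _ _ part312 u (by omega) (by omega) hu
  by_cases h336 : u < 23040
  · exact allK_spec _ _ _ _ _ _ _ _ _ part336 u (by omega) (by omega) hu
  by_cases h360 : u < 24192
  · exact allK_spec _ _ _ _ _ _ _ _ _ part360 u (by omega) (by omega) hu
  omega

theorem upper_bd : ∃ η C : ℝ, 0 < η ∧ ∀ m, Bd (om (((997 : ℕ) : ℝ) / (1000 : ℕ)) η) ⟨0, 0, 0, 0⟩ m
    (C * (((357 : ℕ) : ℝ) / (100 : ℕ)) ^ m) :=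
  cert_bound tabT 24155 997 1000 357 100 (by norm_num) (by norm_num) (by norm_num) (by norm_num)
    (by norm_num) (by decide +kernel) (by decide +kernel) (by norm_num) (by norm_num)
    (by norm_num) cert_all

end Pool.Agent.Lib.MP_8a1ce7_co
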