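import Pool.Agent.Lib.MP_8a1ce7_co.Proc

set_option autoImplicit false

namespace Pool.Agent.Lib.MP_8a1ce7_co.D

namespace LF

def fl (e : Bool) (B : List ℕ) : ℤ := if e then tp (B.getLastD 0) else bt (B.headD 0)

/-- the pending faces, in the order of the boundary of the strip -/
def word : Bool → LF → List ℤ
  | _, nil => []
  | e, cons B c r => fl e B :: (word (!e) c ++ fl (!e) B :: word e r)

def par (j : ℕ) : Bool := decide (j % 2 = 1)

lemma par_succ (j : ℕ) : par (j + 1) = !par j := by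
  unfold par
  rcases Nat.mod_two_eq_zero_or_one j with h | h <;> simp [h, Nat.add_mod]

lemma word_app (e : Bool) (x y : LF) : word e (app x y) = word e x ++ word e y := by
  induction x with
  | nil => rfl
  | cons B c r _ ih => simp [app, word, ih]

lemma getLastD_app (x : List ℕ) (j : ℕ) (y : List ℕ) :
    (x ++ j :: y).getLastD 0 = if y = [] then j else y.getLastD 0 := by
  rcases List.eq_nil_or_concat y with rfl | ⟨y, u, rfl⟩
  · simp
  · rw [if_neg (by simp), List.concat_eq_append, ← List.cons_append, ← List.append_assoc,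
      List.getLastD_concat, List.getLastD_concat]

lemma headD_app (x : List ℕ) (j : ℕ) (y : List ℕ) :
    (x ++ j :: y).headD 0 = if x = [] then j else x.headD 0 := by
  cases x <;> simp

lemma fl_mrg (j : ℕ) (B1 B2 : List ℕ) :
    fl (!par j) (mrg j B1 B2) = (if B1 = [] then -(j : ℤ) - 1 else fl (!par j) B1) ∧
    fl (par j) (mrg j B1 B2) = if B2 = [] then (j : ℤ) else fl (par j) B2 := by
  rcases Nat.mod_two_eq_zero_or_one j with h | h
  · have e : par j = false := by simp [par, h]
    simp only [e, fl, mrg, if_pos h, getLastD_app, headD_app, Bool.not_false, if_true,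
      Bool.false_eq_true, if_false]
    constructor <;> split_ifs <;> simp [tp, bt, h]
  · have e : par j = true := by simp [par, h]
    simp only [e, fl, mrg, if_neg (show ¬j % 2 = 0 by omega), getLastD_app, headD_app,
      Bool.not_true, if_true, Bool.false_eq_true, if_false]
    constructor <;> split_ifs <;> simp [tp, bt, h]

lemma fl_mem {T : LF} {B : List ℕ} (h : B ∈ lab T) (e e' : Bool) : fl e' B ∈ word e T := by
  induction T generalizing e with
  | nil => simp [lab] at h
  | cons B' c r ih1 ih2 =>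
    simp only [lab, List.mem_cons, List.mem_append] at h
    rcases h with rfl | h | h
    · cases e <;> cases e' <;> simp [word]
    · simp [word, ih1 h]
    · simp [word, ih2 h]

lemma mem_word {T : LF} {e : Bool} {z : ℤ} (h : z ∈ word e T) : ∃ B ∈ lab T, ∃ e', z = fl e' B := by
  induction T generalizing e with
  | nil => simp [word] at h
  | cons B c r ih1 ih2 =>
    simp only [word, List.mem_cons, List.mem_append] at h
    rcases h with rfl | h | rfl | h
    · exact ⟨B, by simp [lab], _, rfl⟩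
    · obtain ⟨X, hX, e', rfl⟩ := ih1 h
      exact ⟨X, by simp [lab, hX], _, rfl⟩
    · exact ⟨B, by simp [lab], _, rfl⟩
    · obtain ⟨X, hX, e', rfl⟩ := ih2 h
      exact ⟨X, by simp [lab, hX], _, rfl⟩

lemma word_step (j : ℕ) {B1 : List ℕ} {a : LF} (m : LF) {B2 : List ℕ} {b : LF}
    (h1 : B1 = [] → a = nil) (h2 : B2 = [] → b = nil) : ∃ core : List ℤ,
    word (par j) (pre B1 a m B2 b) = (if B1 = [] then [] else [fl (par j) B1]) ++ core ++
      (if B2 = [] then [] else [fl (!par j) B2]) ∧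
    word (par (j + 1)) (nxt j B1 a m B2 b) = (if B1 = [] then [-(j : ℤ) - 1] else []) ++ core ++
      (if B2 = [] then [(j : ℤ)] else []) ∧
    ∀ B, B ∈ lab a ∨ B ∈ lab m ∨ B ∈ lab b → ∀ e, fl e B ∈ core := by
  refine ⟨word (!par j) a ++ (if B1 = [] then [] else [fl (!par j) B1]) ++ word (par j) m ++
    (if B2 = [] then [] else [fl (par j) B2]) ++ word (!par j) b, ?_⟩
  have := fl_mrg j B1 B2
  rw [par_succ, ← and_assoc]
  constructor
  · by_cases e1 : B1 = [] <;> by_cases e2 : B2 = [] <;>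
      simp only [e1, e2, if_true, if_false] at this <;>
      simp [nxt, pre, opt, word, word_app, *]
  · rintro B (h | h | h) e <;> simp [fl_mem h]

def Srt (j : ℕ) (T : LF) : Prop :=
  (word (par j) T).Pairwise (· < ·) ∧ ∀ z ∈ word (par j) T, -(j : ℤ) ≤ z ∧ z < j

lemma Srt.step {j : ℕ} {T T' : LF} (h : Srt j T) (s : Step j T T') : Srt (j + 1) T' := by
  obtain ⟨B1, a, m, B2, b, h1, h2, rfl, rfl⟩ := s
  obtain ⟨core, w1, w2, -⟩ := word_step j m h1 h2
  unfold Srt at h ⊢
  rw [w1] at h
  rw [w2]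
  have c1 : core.Pairwise (· < ·) :=
    h.1.sublist ((List.sublist_append_right _ _).trans (List.sublist_append_left _ _))
  have c2 : ∀ z ∈ core, -(j : ℤ) ≤ z ∧ z < j := fun z hz => h.2 z (by simp [hz])
  constructor
  · split_ifs <;> simp [List.pairwise_append, c1] <;> grind
  · intro z hz
    simp only [List.mem_append] at hz
    rcases hz with (hz | hz) | hz
    · split_ifs at hz <;> simp at hz; omega
    · have := c2 z hz; omega
    · split_ifs at hz <;> simp at hz; omega

def adj : List ℕ → List (ℕ × ℕ)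
  | x :: y :: r => (x, y) :: adj (y :: r)
  | _ => []

lemma adj_mem {B : List ℕ} {p : ℕ × ℕ} (h : p ∈ adj B) : p.1 ∈ B ∧ p.2 ∈ B := by
  induction B with
  | nil => simp [adj] at h
  | cons x B ih =>
    cases B with
    | nil => simp [adj] at h
    | cons y r =>
      simp only [adj, List.mem_cons] at h
      rcases h with rfl | h
      · simp
      · have := ih h
        exact ⟨List.mem_cons_of_mem _ this.1, List.mem_cons_of_mem _ this.2⟩

lemma adj_app {x y : List ℕ} {j : ℕ} {p : ℕ × ℕ} (h : p ∈ adj (x ++ j :: y)) :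
    p ∈ adj x ∨ p ∈ adj y ∨ (x ≠ [] ∧ p = (x.getLastD 0, j)) ∨ (y ≠ [] ∧ p = (j, y.headD 0)) := by
  induction x with
  | nil =>
    cases y with
    | nil => simp [adj] at h
    | cons u y => simp only [List.nil_append, adj, List.mem_cons] at h; simp; tauto
  | cons u x ih =>
    cases x with
    | nil =>
      simp only [List.cons_append, List.nil_append, adj, List.mem_cons] at h ih
      rcases h with h | h
      · simp [h]
      · have := ih h; simp [adj] at this ⊢; tauto
    | cons v x =>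
      simp only [List.cons_append, adj, List.mem_cons] at h ih
      rcases h with h | h
      · simp [adj, h]
      · have := ih h; simp [adj] at this ⊢; tauto

lemma adj_getD {L : List ℕ} {y : ℕ} (h : y + 1 < L.length) :
    (L.getD y 0, L.getD (y + 1) 0) ∈ adj L := by
  induction L generalizing y with
  | nil => simp at h
  | cons u L ih =>
    cases L with
    | nil => simp at h
    | cons v L =>
      cases y with
      | zero => simp [adj]
      | succ y =>
        have := ih (y := y) (by simpa using h)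
        simp only [adj, List.mem_cons]
        exact Or.inr (by simpa using this)

def Arc (T : LF) (p : ℕ × ℕ) : Prop := ∃ B ∈ lab T, p ∈ adj B

def Out (p : ℕ × ℕ) (z : ℤ) : Prop := (tp p.1 < z ∧ bt p.2 < z) ∨ (z < tp p.1 ∧ z < bt p.2)

structure Pl (j : ℕ) (T : LF) : Prop where
  srt : Srt j T
  free : ∀ p, Arc T p → ∀ z ∈ word (par j) T, Out p z
  nc : ∀ p q, Arc T p → Arc T q → p ≠ q → NC (tp p.1) (bt p.2) (tp q.1) (bt q.2)

lemma tp_bd {k j : ℕ} (h : k < j) : -(j : ℤ) ≤ tp k ∧ tp k < j := by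
  unfold tp; split_ifs <;> omega
lemma bt_bd {k j : ℕ} (h : k < j) : -(j : ℤ) ≤ bt k ∧ bt k < j := by
  unfold bt; split_ifs <;> omega

lemma arc_step {j : ℕ} {B1 : List ℕ} {a m : LF} {B2 : List ℕ} {b : LF}
    (h1 : B1 = [] → a = nil) (h2 : B2 = [] → b = nil) {p : ℕ × ℕ}
    (h : Arc (nxt j B1 a m B2 b) p) : Arc (pre B1 a m B2 b) p ∨
      (B1 ≠ [] ∧ min (tp p.1) (bt p.2) = -(j : ℤ) - 1 ∧
        (tp p.1 + bt p.2 = -(j : ℤ) - 1 + fl (par j) B1) ∧
        p = if j % 2 = 0 then (j, B1.headD 0) else (B1.getLastD 0, j)) ∨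
      (B2 ≠ [] ∧ max (tp p.1) (bt p.2) = (j : ℤ) ∧
        (tp p.1 + bt p.2 = (j : ℤ) + fl (!par j) B2) ∧
        p = if j % 2 = 0 then (B2.getLastD 0, j) else (j, B2.headD 0)) ∨
      ¬Base j (pre B1 a m B2 b) := by
  by_cases hb : Base j (pre B1 a m B2 b)
  swap
  · simp [hb]
  have m1 : B1 ≠ [] → B1 ∈ lab (pre B1 a m B2 b) := fun e => (mem_lab_pre h1 h2 _).2 (by simp [e])
  have m2 : B2 ≠ [] → B2 ∈ lab (pre B1 a m B2 b) := fun e => (mem_lab_pre h1 h2 _).2 (by simp [e])
  have hd : ∀ B : List ℕ, B ≠ [] → B.headD 0 ∈ B ∧ B.getLastD 0 ∈ B := fun B e => by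
    constructor
    · cases B <;> simp at e ⊢
    · rcases List.eq_nil_or_concat B with rfl | ⟨y, u, rfl⟩ <;> simp at e ⊢
  obtain ⟨B, hB, hp⟩ := h
  rcases (mem_lab_nxt ..).1 hB with rfl | hB
  swap
  · exact Or.inl ⟨B, (mem_lab_pre h1 h2 _).2 (Or.inr (Or.inr hB)), hp⟩
  have ne : ∀ B : List ℕ, p ∈ adj B → B ≠ [] := fun B h => List.ne_nil_of_mem (adj_mem h).1
  unfold mrg at hp
  split_ifs at hp with e
  · have ep : par j = false := by simp [par, e]
    rcases adj_app hp with h | h | ⟨h, rfl⟩ | ⟨h, rfl⟩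
    · exact Or.inl ⟨_, m2 (ne _ h), h⟩
    · exact Or.inl ⟨_, m1 (ne _ h), h⟩
    · have := tp_bd (hb.lt (m2 h) (hd _ h).2)
      have e2 : bt j = j := if_pos e
      refine Or.inr (Or.inr (Or.inl ⟨h, ?_, ?_, by simp [e]⟩)) <;> simp only [e2, ep, fl]
      · omega
      · simp [add_comm]
    · have := bt_bd (hb.lt (m1 h) (hd _ h).1)
      have e2 : tp j = -(j : ℤ) - 1 := if_pos e
      refine Or.inr (Or.inl ⟨h, ?_, ?_, by simp [e]⟩) <;> simp only [e2, ep, fl]
      · omega
      · simp
  · have ep : par j = true := by simp only [par, decide_eq_true_eq]; omega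
    rcases adj_app hp with h | h | ⟨h, rfl⟩ | ⟨h, rfl⟩
    · exact Or.inl ⟨_, m1 (ne _ h), h⟩
    · exact Or.inl ⟨_, m2 (ne _ h), h⟩
    · have := tp_bd (hb.lt (m1 h) (hd _ h).2)
      have e2 : bt j = -(j : ℤ) - 1 := if_neg e
      refine Or.inr (Or.inl ⟨h, ?_, ?_, by simp [e]⟩) <;> simp only [e2, ep, fl]
      · omega
      · simp [add_comm]
    · have := bt_bd (hb.lt (m2 h) (hd _ h).1)
      have e2 : tp j = j := if_neg e
      refine Or.inr (Or.inr (Or.inl ⟨h, ?_, ?_, by simp [e]⟩)) <;> simp only [e2, ep, fl]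
      · omega
      · simp

lemma Pl.step {j : ℕ} {T T' : LF} (hb : Base j T) (h : Pl j T) (s : Step j T T') :
    Pl (j + 1) T' := by
  have hs := h.srt.step s
  obtain ⟨B1, a, m, B2, b, h1, h2, rfl, rfl⟩ := s
  obtain ⟨core, w1, w2, -⟩ := word_step j m h1 h2
  have old : ∀ p, Arc (pre B1 a m B2 b) p →
      (-(j : ℤ) ≤ tp p.1 ∧ tp p.1 < j) ∧ -(j : ℤ) ≤ bt p.2 ∧ bt p.2 < j := by
    rintro p ⟨B, hB, hp⟩
    exact ⟨tp_bd (hb.lt hB (adj_mem hp).1), bt_bd (hb.lt hB (adj_mem hp).2)⟩
  have s1 := h.srt.1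
  have s2 := h.srt.2
  have fr := h.free
  rw [w1] at s1 s2 fr
  have x1 : B1 ≠ [] → (∀ z ∈ core, fl (par j) B1 < z) ∧ (-(j : ℤ) ≤ fl (par j) B1 ∧
      fl (par j) B1 < j) ∧ (B2 ≠ [] → fl (par j) B1 < fl (!par j) B2) ∧
      ∀ p, Arc (pre B1 a m B2 b) p → Out p (fl (par j) B1) := by
    intro e
    simp only [if_neg e, List.pairwise_append, List.mem_append, List.mem_singleton] at s1 s2 fr
    refine ⟨fun z hz => s1.1.2.2 _ rfl z hz, s2 _ (by simp), fun e2 => ?_,
      fun p hp => fr p hp _ (by simp)⟩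
    exact s1.2.2 _ (Or.inl rfl) _ (by simp [e2])
  have x2 : B2 ≠ [] → (∀ z ∈ core, z < fl (!par j) B2) ∧ (-(j : ℤ) ≤ fl (!par j) B2 ∧
      fl (!par j) B2 < j) ∧
      ∀ p, Arc (pre B1 a m B2 b) p → Out p (fl (!par j) B2) := by
    intro e
    simp only [if_neg e, List.pairwise_append, List.mem_append, List.mem_singleton] at s1 s2 fr
    exact ⟨fun z hz => s1.2.2 z (Or.inr hz) _ rfl, s2 _ (by simp), fun p hp => fr p hp _ (by simp)⟩
  have c2 : ∀ z ∈ core, -(j : ℤ) ≤ z ∧ z < j := fun z hz => s2 z (by simp [hz])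
  refine ⟨hs, fun p hp z hz => ?_, fun p q hp hq hne => ?_⟩
  · rw [w2] at hz
    simp only [List.mem_append] at hz
    have hz' : (B1 = [] ∧ z = -(j : ℤ) - 1) ∨ z ∈ core ∨ (B2 = [] ∧ z = j) := by
      rcases hz with (hz | hz) | hz
      · split_ifs at hz with e <;> simp at hz; exact Or.inl ⟨e, hz⟩
      · exact Or.inr (Or.inl hz)
      · split_ifs at hz with e <;> simp at hz; exact Or.inr (Or.inr ⟨e, hz⟩)
    unfold Out at fr ⊢
    rcases arc_step h1 h2 hp with o | ⟨e, o1, o2, _⟩ | ⟨e, o1, o2, _⟩ | o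
    · have := old p o
      rcases hz' with ⟨_, rfl⟩ | hz' | ⟨_, rfl⟩
      · omega
      · exact fr p o z (by simp [hz'])
      · omega
    · obtain ⟨y1, y2, _, _⟩ := x1 e
      rcases hz' with ⟨e', rfl⟩ | hz' | ⟨_, rfl⟩
      · exact absurd e' e
      · have := y1 z hz'; omega
      · omega
    · obtain ⟨y1, y2, _⟩ := x2 e
      rcases hz' with ⟨_, rfl⟩ | hz' | ⟨e', rfl⟩
      · omega
      · have := y1 z hz'; omega
      · exact absurd e' e
    · exact absurd hb o
  · have p1 := tp_odd p.1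
    have p2 := bt_even p.2
    have p3 := tp_odd q.1
    have p4 := bt_even q.2
    unfold Out at x1 x2
    rcases arc_step h1 h2 hp with o | ⟨e, o1, o2, o3⟩ | ⟨e, o1, o2, o3⟩ | o <;>
      rcases arc_step h1 h2 hq with u | ⟨e', u1, u2, u3⟩ | ⟨e', u1, u2, u3⟩ | u <;>
      first | exact absurd hb o | exact absurd hb u | exact h.nc p q o u hne
            | exact absurd (o3.trans u3.symm) hne | unfold NC
    · have := old p o; have := (x1 e').2.2.2 p o; have := (x1 e').2.1; omega
    · have := old p o; have := (x2 e').2.2 p o; have := (x2 e').2.1; omega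
    · have := old q u; have := (x1 e).2.2.2 q u; have := (x1 e).2.1; omega
    · have := (x1 e).2.2.1 e'; have := (x1 e).2.1; have := (x2 e').2.1; omega
    · have := old q u; have := (x2 e).2.2 q u; have := (x2 e).2.1; omega
    · have := (x1 e').2.2.1 e; have := (x1 e').2.1; have := (x2 e).2.1; omega

lemma St_pl {j : ℕ} {T : LF} (h : T ∈ St j) : Pl j T := by
  refine (St_ind (P := Pl) ⟨⟨by simp [word], by simp [word]⟩, by simp [word], ?_⟩
    (fun _ _ _ => Pl.step) j T h).2
  rintro p q ⟨B, hB, _⟩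
  simp [lab] at hB

lemma shape_dot {T : LF} (h : shape T = Fo.dot) : ∃ L, T = cons L nil nil := by
  cases T with
  | nil => simp [shape, Fo.dot] at h
  | cons B c r => cases c <;> cases r <;> simp [shape, Fo.dot] at h ⊢

/-- a path gives a folding -/
theorem fold_of_St {n : ℕ} {L : List ℕ} (h : cons L nil nil ∈ St (n + 1)) :
    L.length = n + 1 ∧ Inv n (fun k => L.idxOf k) (fun y => L.getD y 0) ∧
      CreaseNC n fun k => L.idxOf k := by
  have hp : L.Perm (List.range (n + 1)) := by simpa [lab] using (St_base h).perm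
  have hl : L.length = n + 1 := by simpa using hp.length_eq
  have hn : L.Nodup := hp.nodup_iff.2 List.nodup_range
  have I : Inv n (fun k => L.idxOf k) (fun y => L.getD y 0) := by
    constructor
    · intro i hi
      have hm : i ∈ L := hp.mem_iff.2 (List.mem_range.2 (by omega))
      have := List.idxOf_lt_length_of_mem hm
      refine ⟨by omega, ?_⟩
      rw [List.getD_eq_getElem _ _ this, List.getElem_idxOf]
    · intro t ht
      have hlt : t < L.length := by omega
      rw [List.getD_eq_getElem _ _ hlt]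
      have := List.mem_range.1 (hp.mem_iff.1 (List.getElem_mem hlt))
      exact ⟨by omega, hn.idxOf_getElem t hlt⟩
  refine ⟨hl, I, creases_of_arcs I fun y y' hy hy' hne => ?_⟩
  refine (St_pl h).nc (L.getD y' 0, L.getD (y' + 1) 0) (L.getD y 0, L.getD (y + 1) 0)
    ⟨L, by simp [lab], adj_getD (by omega)⟩ ⟨L, by simp [lab], adj_getD (by omega)⟩ fun e => ?_
  exact hne (I.injG hy.le hy'.le (congrArg Prod.fst e).symm)

end LF

end Pool.Agent.Lib.MP_8a1ce7_co.D
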